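import Mathlib

/-! Numerical part of the height inequality. -/

set_option autoImplicit false

namespace Pool.Agent.Lib.MP_bd85b6_lc

open Filter Finset

/-- Shift of a sequence. -/
def sh (n : ℕ) (f : ℕ → ℤ) : ℕ → ℤ := fun m => if n ≤ m then f (m - n) else 0

theorem sh_add (n : ℕ) (f g : ℕ → ℤ) : sh n (f + g) = sh n f + sh n g := by
  ext m
  simp only [sh, Pi.add_apply]
  split_ifs <;> simp

theorem sh_comm (a b : ℕ) (f : ℕ → ℤ) : sh a (sh b f) = sh b (sh a f) := by
  ext m
  simp only [sh]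
  split_ifs <;> first | rfl | omega | (congr 1; omega)

/-- Sum of all positive shifts by multiples of `j + 1`. -/
def NN (f : ℕ → ℤ) (j : ℕ) (m : ℕ) : ℤ :=
  if j + 1 ≤ m then f (m - (j + 1)) + NN f j (m - (j + 1)) else 0
termination_by m
decreasing_by omega

theorem NN_eq (f : ℕ → ℤ) (j : ℕ) : NN f j = sh (j + 1) (f + NN f j) := by
  ext m
  rw [NN]
  rfl

theorem NN_unique (f u : ℕ → ℤ) (j : ℕ) (h : u = sh (j + 1) (f + u)) : u = NN f j := by
  ext m
  induction m using Nat.strong_induction_on with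
  | _ m ih =>
    rw [h, NN]
    simp only [sh, Pi.add_apply]
    split_ifs with hm
    · rw [ih _ (by omega)]
    · rfl

theorem NN_step (f g : ℕ → ℤ) (i j : ℕ) (h : f = g + sh i f) :
    NN f j = NN g j + sh i (NN f j) := by
  symm
  refine NN_unique _ _ _ ?_
  have h1 : sh (j + 1) f = sh (j + 1) g + sh (j + 1) (sh i f) := by rw [← sh_add, ← h]
  conv_lhs => rw [NN_eq g j, NN_eq f j, sh_comm]
  simp only [sh_add, h1]
  abel

theorem comb_ineq (r : ℕ) (h : ℕ → ℕ → ℤ) (q : ℕ → ℕ → ℤ → ℤ) (E : ℕ → ℤ)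
    (H1 : ∀ i < r, h i = h (i + 1) + sh (i + 1) (h i))
    (H2 : ∀ i < r, ∀ m, ∀ᶠ M in atTop, q (i + 1) m M +
      (if i + 1 ≤ m then q i (m - (i + 1)) (M - E i) else 0) ≤ q i m M)
    (H3 : ∀ m, ∀ᶠ M in atTop, h r m * M ≤ q r m M)
    (H4 : ∀ m, ∀ᶠ M in atTop, q 0 m M ≤ h 0 m * M) (m : ℕ) :
    0 ≤ ∑ j ∈ range r, E j * NN (h 0) j m := by
  have key : ∀ n i, i + n = r → ∀ m, ∀ᶠ M in atTop,
      h i m * M - ∑ j ∈ Ico i r, E j * NN (h i) j m ≤ q i m M := by
    intro n
    induction n with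
    | zero =>
      intro i hi m
      obtain rfl : i = r := by omega
      simpa using H3 m
    | succ n ih =>
      intro i hi m
      have hir : i < r := by omega
      have ih1 := ih (i + 1) (by omega)
      have e1 : ∀ m, h i m = h (i + 1) m + sh (i + 1) (h i) m := fun m => congrFun (H1 i hir) m
      have e2 : ∀ j m, NN (h i) j m = NN (h (i + 1)) j m + sh (i + 1) (NN (h i) j) m :=
        fun j m => congrFun (NN_step _ _ _ j (H1 i hir)) m
      induction m using Nat.strong_induction_on with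
      | _ m ihm =>
        by_cases hm : i + 1 ≤ m
        · have h5 := (tendsto_atTop_add_const_right atTop (-E i) tendsto_id).eventually
            (ihm (m - (i + 1)) (by omega))
          filter_upwards [H2 i hir m, ih1 m, h5] with M a1 a2 a3
          rw [if_pos hm] at a1
          simp only [id, ← sub_eq_add_neg] at a3
          rw [Finset.sum_eq_sum_Ico_succ_bot hir] at a3 ⊢
          have e3 : ∑ j ∈ Ico (i + 1) r, E j * NN (h i) j m =
              ∑ j ∈ Ico (i + 1) r, E j * NN (h (i + 1)) j m +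
              ∑ j ∈ Ico (i + 1) r, E j * NN (h i) j (m - (i + 1)) := by
            rw [← Finset.sum_add_distrib]
            refine Finset.sum_congr rfl fun j _ => ?_
            rw [e2 j m, sh, if_pos hm, mul_add]
          have e4 : NN (h i) i m = h i (m - (i + 1)) + NN (h i) i (m - (i + 1)) := by
            rw [NN, if_pos hm]
          rw [e3, e4, e1 m, sh, if_pos hm]
          nlinarith
        · filter_upwards [H2 i hir m, ih1 m] with M a1 a2
          rw [if_neg hm] at a1
          rw [Finset.sum_eq_sum_Ico_succ_bot hir]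
          have e3 : ∑ j ∈ Ico (i + 1) r, E j * NN (h i) j m =
              ∑ j ∈ Ico (i + 1) r, E j * NN (h (i + 1)) j m := by
            refine Finset.sum_congr rfl fun j _ => ?_
            rw [e2 j m, sh, if_neg hm, add_zero]
          have e4 : NN (h i) i m = 0 := by rw [NN, if_neg hm]
          rw [e3, e4, e1 m, sh, if_neg hm]
          linarith
  obtain ⟨M, a1, a2⟩ := ((key r 0 (by omega) m).and (H4 m)).exists
  rw [← Finset.range_eq_Ico] at a1
  linarith

section
variable {f : ℕ → ℤ} (hf0 : ∀ m, 0 ≤ f m) (hf : Monotone f)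
include hf0

theorem NN_nonneg (j m : ℕ) : 0 ≤ NN f j m := by
  induction m using Nat.strong_induction_on with
  | _ m ih =>
    rw [NN]
    split_ifs with hm
    · exact add_nonneg (hf0 _) (ih _ (by omega))
    · rfl

theorem NN_le (j m : ℕ) : NN f j m ≤ ∑ x ∈ range m, f x := by
  induction m using Nat.strong_induction_on with
  | _ m ih =>
    rw [NN]
    split_ifs with hm
    · calc _ ≤ f (m - (j + 1)) + ∑ x ∈ range (m - (j + 1)), f x := by
            have := ih (m - (j + 1)) (by omega)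
            linarith
        _ = ∑ x ∈ range (m - (j + 1) + 1), f x := by rw [sum_range_succ, add_comm]
        _ ≤ _ := sum_le_sum_of_subset_of_nonneg (range_subset_range.2 (by omega))
            fun x _ _ => hf0 x
    · exact sum_nonneg fun x _ => hf0 x

include hf in
theorem le_NN (j m : ℕ) : ∑ x ∈ range (m - j), f x ≤ (j + 1) * NN f j m := by
  induction m using Nat.strong_induction_on with
  | _ m ih =>
    rw [NN]
    split_ifs with hm
    · have h1 := ih (m - (j + 1)) (by omega)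
      have h2 : ∑ x ∈ range (m - j), f x = ∑ x ∈ range (m - (j + 1) - j), f x +
          ∑ x ∈ Ico (m - (j + 1) - j) (m - j), f x := by
        rw [sum_range_add_sum_Ico _ (by omega)]
      have h3 : ∑ x ∈ Ico (m - (j + 1) - j) (m - j), f x ≤
          (Ico (m - (j + 1) - j) (m - j)).card • f (m - (j + 1)) :=
        sum_le_card_nsmul _ _ _ fun x hx => hf (by have := (mem_Ico.1 hx).2; omega)
      have h4 : ((Ico (m - (j + 1) - j) (m - j)).card : ℤ) ≤ j + 1 := by
        rw [Nat.card_Ico]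
        exact_mod_cast (by omega : m - j - (m - (j + 1) - j) ≤ j + 1)
      rw [nsmul_eq_mul] at h3
      have h5 := mul_le_mul_of_nonneg_right h4 (hf0 (m - (j + 1)))
      linarith
    · rw [show m - j = 0 by omega]
      simp

end

theorem exists_doubling (g : ℕ → ℤ) (r c : ℕ) (h1 : 1 ≤ g 1) (hg : ∀ m, g m ≤ (m : ℤ) ^ c) :
    ∃ m, 1 ≤ m ∧ 1 ≤ g m ∧ g (m + r) ≤ 2 * g m := by
  by_contra hcon
  push Not at hcon
  have key : ∀ n : ℕ, (2 : ℤ) ^ n ≤ g (1 + n * r) := by
    intro n
    induction n with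
    | zero => simpa using h1
    | succ n ih =>
      have h2 : (1 : ℤ) ≤ 2 ^ n := one_le_pow₀ (by norm_num)
      have := hcon (1 + n * r) (by omega) (h2.trans ih)
      rw [pow_succ, show 1 + (n + 1) * r = 1 + n * r + r by ring]
      linarith
  have h3 := (tendsto_pow_const_div_const_pow_of_one_lt c (r := 2) (by norm_num)).eventually
    (gt_mem_nhds (show (0 : ℝ) < 1 / (1 + r) ^ c by positivity))
  obtain ⟨n, hn, hn1⟩ := (h3.and (eventually_ge_atTop 1)).exists
  have h4 : ((2 : ℤ) ^ n : ℝ) ≤ ((1 + n * r : ℕ) : ℝ) ^ c := by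
    exact_mod_cast (key n).trans (hg _)
  have h5 : ((1 + n * r : ℕ) : ℝ) ^ c ≤ ((n : ℝ) * (1 + r)) ^ c := by
    refine pow_le_pow_left₀ (by positivity) ?_ c
    have : (1 : ℝ) ≤ n := by exact_mod_cast hn1
    push_cast
    nlinarith
  rw [div_lt_div_iff₀ (by positivity) (by positivity), ← mul_pow] at hn
  push_cast at h4 h5
  linarith

theorem numeric_contra (r d Θ c : ℕ) (hr : (2 * d * Θ : ℝ) < ∑ j ∈ Ico d r, 1 / ((j : ℝ) + 1))
    (f : ℕ → ℤ) (hf : Monotone f) (h1 : 1 ≤ f 0) (hc : ∀ m, f m ≤ ((m : ℤ) + 1) ^ c)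
    (E : ℕ → ℤ) (γ : ℕ) (hγ : 0 < γ) (hE1 : ∀ j < d, E j ≤ Θ * γ)
    (hE2 : ∀ j, d ≤ j → E j ≤ -γ) : ¬ ∀ m, 0 ≤ ∑ j ∈ range r, E j * NN f j m := by
  intro H
  have hf0 : ∀ m, 0 ≤ f m := fun m => by have := hf (Nat.zero_le m); linarith
  have hdr : d ≤ r := by
    by_contra h
    rw [Ico_eq_empty (by omega), sum_empty] at hr
    have : (0 : ℝ) ≤ 2 * d * Θ := by positivity
    linarith
  obtain ⟨m, -, hm1, hm⟩ := exists_doubling (fun m => ∑ x ∈ range m, f x) r (c + 1)
    (by simpa using h1) (fun m => by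
      calc ∑ x ∈ range m, f x ≤ (range m).card • (m : ℤ) ^ c :=
            sum_le_card_nsmul _ _ _ fun x hx => (hc x).trans (pow_le_pow_left₀ (by positivity)
              (by exact_mod_cast mem_range.1 hx) c)
        _ = _ := by rw [card_range, nsmul_eq_mul, pow_succ'])
  set g : ℤ := ∑ x ∈ range m, f x with hg
  have h2 := H (m + r)
  rw [← sum_range_add_sum_Ico _ hdr] at h2
  have h3 : ∑ j ∈ range d, E j * NN f j (m + r) ≤ (range d).card • (Θ * γ * (2 * g)) := by
    refine sum_le_card_nsmul _ _ _ fun j hj => ?_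
    have a1 := NN_nonneg hf0 j (m + r)
    have a2 := (NN_le hf0 j (m + r)).trans hm
    calc _ ≤ Θ * γ * NN f j (m + r) := mul_le_mul_of_nonneg_right (hE1 j (mem_range.1 hj)) a1
      _ ≤ _ := mul_le_mul_of_nonneg_left a2 (by positivity)
  have h4 : ((∑ j ∈ Ico d r, E j * NN f j (m + r) : ℤ) : ℝ) ≤
      ∑ j ∈ Ico d r, -(γ * g) * (1 / ((j : ℝ) + 1)) := by
    push_cast
    refine sum_le_sum fun j hj => ?_
    have a1 := NN_nonneg hf0 j (m + r)
    have a2 : g ≤ (j + 1) * NN f j (m + r) := by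
      refine le_trans ?_ (le_NN hf0 hf j (m + r))
      exact sum_le_sum_of_subset_of_nonneg
        (range_subset_range.2 (by have := (mem_Ico.1 hj).2; omega)) fun x _ _ => hf0 x
    have a3 : E j * NN f j (m + r) ≤ -γ * NN f j (m + r) :=
      mul_le_mul_of_nonneg_right (hE2 j (mem_Ico.1 hj).1) a1
    have a4 : (E j : ℝ) * NN f j (m + r) ≤ -γ * NN f j (m + r) := by exact_mod_cast a3
    have a5 : (g : ℝ) ≤ (j + 1) * NN f j (m + r) := by exact_mod_cast a2
    have a6 : (g : ℝ) * (1 / ((j : ℝ) + 1)) ≤ NN f j (m + r) := by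
      rw [mul_one_div, div_le_iff₀ (by positivity)]
      linarith
    have a7 : (0 : ℝ) ≤ γ := by positivity
    nlinarith
  rw [← mul_sum] at h4
  rw [card_range, nsmul_eq_mul] at h3
  have h5 : (0 : ℝ) ≤ d * (Θ * γ * (2 * g)) + ((∑ j ∈ Ico d r, E j * NN f j (m + r) : ℤ) : ℝ) := by
    exact_mod_cast (by linarith : (0 : ℤ) ≤ d * (Θ * γ * (2 * g)) +
      ∑ j ∈ Ico d r, E j * NN f j (m + r))
  have h6 : (0 : ℝ) < γ * g := by
    have : (0 : ℤ) < γ * g := mul_pos (by exact_mod_cast hγ) (by linarith)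
    exact_mod_cast this
  nlinarith

theorem exists_harmonic (d Θ : ℕ) :
    ∃ r, (2 * d * Θ : ℝ) < ∑ j ∈ Ico d r, 1 / ((j : ℝ) + 1) := by
  obtain ⟨r, h1, h2⟩ := ((Real.tendsto_sum_range_one_div_nat_succ_atTop.eventually
    (eventually_gt_atTop (2 * d * Θ + ∑ j ∈ range d, 1 / ((j : ℝ) + 1)))).and
    (eventually_ge_atTop d)).exists
  refine ⟨r, ?_⟩
  rw [← sum_range_add_sum_Ico _ h2] at h1
  linarith

end Pool.Agent.Lib.MP_bd85b6_lc
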