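import Pool.Agent.Lib.MP_bd85b6_lc.Regular
import Pool.Agent.Lib.MP_bd85b6_lc.Comb

-- part Pool.Agent.Lib.MP_bd85b6_lc.Hilb
section

/-! Bigraded Hilbert functions over the rational function field. -/

set_option autoImplicit false

namespace Pool.Agent.Lib.MP_bd85b6_lc

open MvPolynomial Module

theorem finrank_step {𝔽 A B : Type*} [Field 𝔽] [AddCommGroup A] [Module 𝔽 A] [AddCommGroup B]
    [Module 𝔽 B] (W W' : Submodule 𝔽 A) [FiniteDimensional 𝔽 W] (θ : A →ₗ[𝔽] B) (μ : A →ₗ[𝔽] A)
    (hμ : Function.Injective μ) :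
    ((∀ x ∈ W', μ x ∈ W ∧ θ (μ x) = 0) → finrank 𝔽 (W.map θ) + finrank 𝔽 W' ≤ finrank 𝔽 W) ∧
    ((∀ x ∈ W', μ x ∈ W ∧ θ (μ x) = 0) → (∀ x ∈ W, θ x = 0 → ∃ y ∈ W', μ y = x) →
      finrank 𝔽 W = finrank 𝔽 (W.map θ) + finrank 𝔽 W') := by
  have h1 := LinearMap.finrank_range_add_finrank_ker (θ.domRestrict W)
  rw [LinearMap.range_domRestrict] at h1
  have h2 : finrank 𝔽 (LinearMap.ker (θ.domRestrict W)) =
      finrank 𝔽 (W ⊓ LinearMap.ker θ : Submodule 𝔽 A) := by
    rw [← Submodule.finrank_map_subtype_eq W, LinearMap.ker_domRestrict, Submodule.map_comap_subtype]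
  have h3 : finrank 𝔽 (W'.map μ) = finrank 𝔽 W' :=
    (Submodule.equivMapOfInjective μ hμ W').finrank_eq.symm
  have : FiniteDimensional 𝔽 (W ⊓ LinearMap.ker θ : Submodule 𝔽 A) :=
    Submodule.finiteDimensional_of_le inf_le_left
  refine ⟨fun h => ?_, fun h h' => ?_⟩
  · have h4 : W'.map μ ≤ W ⊓ LinearMap.ker θ := by
      rintro _ ⟨x, hx, rfl⟩
      exact h x hx
    have := Submodule.finrank_mono h4
    omega
  · have h4 : W'.map μ = W ⊓ LinearMap.ker θ := by
      refine le_antisymm ?_ fun x hx => h' x hx.1 hx.2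
      rintro _ ⟨x, hx, rfl⟩
      exact h x hx
    rw [← h4] at h2
    omega

theorem clear_den {O K σ : Type*} [CommRing O] [IsDomain O] [Field K] [Algebra O K]
    [IsFractionRing O K] (u : MvPolynomial σ K) :
    ∃ c : O, c ≠ 0 ∧ ∃ w : MvPolynomial σ O, map (algebraMap O K) w = C (algebraMap O K c) * u := by
  obtain ⟨c, hc⟩ := IsLocalization.exist_integer_multiples (nonZeroDivisors O) u.support
    (fun m => coeff m u)
  refine ⟨c, nonZeroDivisors.coe_ne_zero c, exists_lift _ _ fun m => ?_⟩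
  rw [coeff_C_mul]
  by_cases hm : m ∈ u.support
  · obtain ⟨y, hy⟩ := hc m hm
    exact ⟨y, by rw [hy, Algebra.smul_def]⟩
  · rw [notMem_support_iff.1 hm, mul_zero]
    exact ⟨0, map_zero _⟩

theorem degree_mul_lt' {R : Type*} [CommRing R] {p q : Polynomial R} {a b : ℕ}
    (hp : p.degree < a) (hq : q.natDegree ≤ b) : (p * q).degree < (a + b : ℕ) := by
  by_cases h0 : p * q = 0
  · rw [h0, Polynomial.degree_zero]; exact WithBot.bot_lt_coe _
  · have hp0 : p ≠ 0 := left_ne_zero_of_mul h0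
    rw [← Polynomial.natDegree_lt_iff_degree_lt h0]
    rw [← Polynomial.natDegree_lt_iff_degree_lt hp0] at hp
    have := Polynomial.natDegree_mul_le (p := p) (q := q)
    omega

theorem degree_lt_of_mul {R : Type*} [CommRing R] [IsDomain R] {c p : Polynomial R} {M : ℕ}
    (hc : c ≠ 0) (h : (c * p).degree < (c.natDegree + M : ℕ)) : p.degree < M := by
  by_cases h0 : p = 0
  · rw [h0, Polynomial.degree_zero]; exact WithBot.bot_lt_coe _
  · rw [← Polynomial.natDegree_lt_iff_degree_lt h0]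
    rw [← Polynomial.natDegree_lt_iff_degree_lt (mul_ne_zero hc h0),
      Polynomial.natDegree_mul hc h0] at h
    omega

theorem degree_lt_mono {R : Type*} [CommRing R] {p : Polynomial R} {a b : ℕ}
    (hp : p.degree < a) (h : a ≤ b) : p.degree < b := hp.trans_le (by exact_mod_cast h)

/-- Polynomials in the parameter. -/
abbrev Ox := Polynomial ℂ
/-- Rational functions in the parameter. -/
abbrev Kx := FractionRing (Polynomial ℂ)

variable {σ : Type*}

/-- Inclusion of polynomial forms into forms with rational coefficients. -/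
noncomputable def io : MvPolynomial σ Ox →ₐ[ℂ] MvPolynomial σ Kx :=
  mapAlgHom (IsScalarTower.toAlgHom ℂ Ox Kx)

theorem io_apply (P : MvPolynomial σ Ox) : io P = map (algebraMap Ox Kx) P := rfl

theorem io_injective : Function.Injective (io : MvPolynomial σ Ox → MvPolynomial σ Kx) :=
  map_injective _ (IsFractionRing.injective Ox Kx)

theorem io_C (c : Ox) : io (C c : MvPolynomial σ Ox) = C (algebraMap Ox Kx c) := map_C _ _

theorem mem_of_io_C_mul {J : Ideal (MvPolynomial σ Kx)} {c : Ox} (hc : c ≠ 0)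
    {x : MvPolynomial σ Kx} (h : io (C c) * x ∈ J) : x ∈ J := by
  rw [io_C] at h
  refine (J.unit_mul_mem_iff_mem ?_).1 h
  exact (IsUnit.mk0 _ ((map_ne_zero_iff _ (IsFractionRing.injective Ox Kx)).2 hc)).map C

variable (σ) in
/-- Forms of degree `m` whose coefficients have degree less than `M`. -/
def VV (m M : ℕ) : Submodule ℂ (MvPolynomial σ Ox) where
  carrier := {P | P.IsHomogeneous m ∧ ∀ α, (coeff α P).degree < M}
  add_mem' := fun {x y} hx hy => ⟨hx.1.add hy.1, fun α => by
    rw [coeff_add]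
    exact (Polynomial.degree_add_le _ _).trans_lt (max_lt (hx.2 α) (hy.2 α))⟩
  zero_mem' := ⟨isHomogeneous_zero _ _ _, fun α => by
    rw [coeff_zero, Polynomial.degree_zero]; exact WithBot.bot_lt_coe _⟩
  smul_mem' := fun c {x} hx => ⟨by
    rw [← algebraMap_smul Ox]
    exact (homogeneousSubmodule σ Ox m).smul_mem _ hx.1, fun α => by
    rw [coeff_smul]
    exact (Polynomial.degree_smul_le _ _).trans_lt (hx.2 α)⟩

/-- Reduction modulo an ideal of the ring with rational coefficients. -/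
noncomputable def piJ (J : Ideal (MvPolynomial σ Kx)) :
    MvPolynomial σ Ox →ₐ[ℂ] (MvPolynomial σ Kx ⧸ J) := (Ideal.Quotient.mkₐ ℂ J).comp io

theorem piJ_apply (J : Ideal (MvPolynomial σ Kx)) (P : MvPolynomial σ Ox) :
    piJ J P = Ideal.Quotient.mk J (io P) := rfl

/-- The bigraded Hilbert function. -/
noncomputable def qq (J : Ideal (MvPolynomial σ Kx)) (m M : ℕ) : ℕ :=
  finrank ℂ ((VV σ m M).map (piJ J).toLinearMap)

/-- The Hilbert function. -/
noncomputable def hh (J : Ideal (MvPolynomial σ Kx)) (m : ℕ) : ℕ :=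
  finrank Kx ((homogeneousSubmodule σ Kx m).map (Ideal.Quotient.mkₐ Kx J).toLinearMap)

variable [Finite σ]

variable (σ) in
/-- Exponents of degree `m`. -/
noncomputable def Mon (m : ℕ) : Finset (σ →₀ ℕ) := (Finsupp.finite_of_degree_eq (σ := σ) m).toFinset

theorem mem_Mon {m : ℕ} {α : σ →₀ ℕ} : α ∈ Mon σ m ↔ α.degree = m := by simp [Mon]

theorem mem_Mon_of_mem_support {R : Type*} [CommRing R] {m : ℕ} {P : MvPolynomial σ R}
    (hP : P.IsHomogeneous m) {α : σ →₀ ℕ} (h : α ∈ P.support) : α ∈ Mon σ m := by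
  rw [mem_Mon]
  by_contra h'
  exact mem_support_iff.1 h (hP.coeff_eq_zero h')

theorem VV_le_span (m M : ℕ) : VV σ m M ≤ Submodule.span ℂ (Set.range
    fun p : Mon σ m × Fin M => (monomial p.1.1 (Polynomial.X ^ (p.2 : ℕ)) : MvPolynomial σ Ox)) := by
  intro P hP
  rw [P.as_sum]
  refine sum_mem fun α hα => ?_
  have h1 : ∑ i : Fin M, Polynomial.monomial i ((coeff α P).coeff i) = coeff α P := by
    simpa using (coeff α P).sum_fin (Polynomial.monomial ·) (by simp) (hP.2 α)
  rw [← h1, map_sum]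
  refine sum_mem fun i _ => ?_
  rw [← Polynomial.smul_X_eq_monomial, LinearMap.map_smul_of_tower]
  exact Submodule.smul_mem _ _
    (Submodule.subset_span ⟨(⟨α, mem_Mon_of_mem_support hP.1 hα⟩, i), rfl⟩)

instance (m M : ℕ) : FiniteDimensional ℂ (VV σ m M) :=
  have := FiniteDimensional.span_of_finite ℂ (Set.finite_range
    fun p : Mon σ m × Fin M => (monomial p.1.1 (Polynomial.X ^ (p.2 : ℕ)) : MvPolynomial σ Ox))
  Submodule.finiteDimensional_of_le (VV_le_span m M)

instance (m : ℕ) : FiniteDimensional Kx (homogeneousSubmodule σ Kx m) :=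
  Module.Finite.iff_fg.2 (homogeneousSubmodule_fg σ Kx m)

theorem qq_le (J : Ideal (MvPolynomial σ Kx)) (m M : ℕ) : qq J m M ≤ (Mon σ m).card * M := by
  refine (Submodule.finrank_map_le _ _).trans ?_
  have := FiniteDimensional.span_of_finite ℂ (Set.finite_range
    fun p : Mon σ m × Fin M => (monomial p.1.1 (Polynomial.X ^ (p.2 : ℕ)) : MvPolynomial σ Ox))
  refine (Submodule.finrank_mono (VV_le_span m M)).trans ?_
  have := finrank_range_le_card (R := ℂ)
    fun p : Mon σ m × Fin M => (monomial p.1.1 (Polynomial.X ^ (p.2 : ℕ)) : MvPolynomial σ Ox)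
  rwa [Fintype.card_prod, Fintype.card_coe, Fintype.card_fin] at this

theorem hom_eq_span {R : Type*} [CommRing R] (m : ℕ) : homogeneousSubmodule σ R m =
    Submodule.span R (Set.range fun α : Mon σ m => (monomial α.1 1 : MvPolynomial σ R)) := by
  refine le_antisymm (fun P hP => ?_) (Submodule.span_le.2 ?_)
  · rw [P.as_sum]
    refine sum_mem fun α hα => ?_
    rw [← mul_one (coeff α P), ← smul_eq_mul, map_smul]
    exact Submodule.smul_mem _ _
      (Submodule.subset_span ⟨⟨α, mem_Mon_of_mem_support hP hα⟩, rfl⟩)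
  · rintro _ ⟨α, rfl⟩
    exact isHomogeneous_monomial _ (mem_Mon.1 α.2)

theorem hh_bot (m : ℕ) : hh (⊥ : Ideal (MvPolynomial σ Kx)) m = (Mon σ m).card := by
  have hinj : Function.Injective (Ideal.Quotient.mkₐ Kx (⊥ : Ideal (MvPolynomial σ Kx))) := by
    rw [injective_iff_map_eq_zero]
    intro x hx
    simpa using Ideal.Quotient.eq_zero_iff_mem.1 hx
  rw [hh, ← (Submodule.equivMapOfInjective _ hinj _).finrank_eq, hom_eq_span,
    finrank_span_eq_card, Fintype.card_coe]
  exact (basisMonomials σ Kx).linearIndependent.comp _ Subtype.val_injective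

theorem hh_mul_le (J : Ideal (MvPolynomial σ Kx)) (m M : ℕ) : hh J m * M ≤ qq J m M := by
  rw [hh, hom_eq_span, Submodule.map_span]
  have := FiniteDimensional.span_of_finite Kx ((Set.finite_range
    fun α : Mon σ m => (monomial α.1 1 : MvPolynomial σ Kx)).image
      (Ideal.Quotient.mkₐ Kx J).toLinearMap)
  obtain ⟨f, hf, -, hind⟩ := Submodule.exists_fun_fin_finrank_span_eq Kx
    ((Ideal.Quotient.mkₐ Kx J).toLinearMap ''
      Set.range fun α : Mon σ m => (monomial α.1 1 : MvPolynomial σ Kx))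
  have hb : LinearIndependent ℂ fun j : Fin M => algebraMap Ox Kx (Polynomial.X ^ (j : ℕ)) := by
    have h1 : LinearIndependent ℂ fun j : Fin M => (Polynomial.X ^ (j : ℕ) : Ox) := by
      have := (Polynomial.basisMonomials ℂ).linearIndependent.comp _ (Fin.val_injective (n := M))
      simpa [Function.comp_def, Polynomial.monomial_one_right_eq_X_pow] using this
    exact h1.map' (IsScalarTower.toAlgHom ℂ Ox Kx).toLinearMap
      (LinearMap.ker_eq_bot.2 (IsFractionRing.injective Ox Kx))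
  have h2 := linearIndependent_smul hb hind
  have h3 := finrank_span_eq_card h2
  rw [Fintype.card_prod, Fintype.card_fin, Fintype.card_fin, mul_comm] at h3
  rw [← h3]
  refine Submodule.finrank_mono (Submodule.span_le.2 ?_)
  rintro _ ⟨⟨j, l⟩, rfl⟩
  obtain ⟨_, ⟨α, rfl⟩, h4⟩ := hf l
  refine ⟨monomial α.1 (Polynomial.X ^ (j : ℕ)),
    ⟨isHomogeneous_monomial _ (mem_Mon.1 α.2), fun β => ?_⟩, ?_⟩
  · classical
    rw [coeff_monomial]
    split_ifs
    · rw [Polynomial.degree_X_pow]; exact_mod_cast j.2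
    · exact WithBot.bot_lt_coe _
  · simp only [← h4, ← map_smul]
    change Ideal.Quotient.mk J (map (algebraMap Ox Kx) _) = Ideal.Quotient.mk J _
    congr 1
    rw [map_monomial, smul_eq_mul, mul_one]

theorem split_lemma (J : Ideal (MvPolynomial σ Kx)) (m : ℕ) :
    ∃ C0 : ℕ, ∀ M, C0 ≤ M → ∀ (P R : MvPolynomial σ Ox) (Δ : Ox), Δ ≠ 0 → P.IsHomogeneous m →
      R ∈ VV σ m (Δ.natDegree + M) → io (C Δ * P - R) ∈ J →
      ∃ P' ∈ VV σ m M, io (P' - P) ∈ J := by
  classical
  let U : Submodule Kx (MvPolynomial σ Kx) := J.restrictScalars Kx ⊓ homogeneousSubmodule σ Kx m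
  obtain ⟨t, ht⟩ : U.FG := Module.Finite.iff_fg.1
    (Submodule.finiteDimensional_of_le (S₂ := homogeneousSubmodule σ Kx m) inf_le_right)
  choose c hc w hw using fun j : t => clear_den (O := Ox) (j : MvPolynomial σ Kx)
  have htU : ∀ j : t, (j : MvPolynomial σ Kx) ∈ U := fun j => ht ▸ Submodule.subset_span j.2
  have hwJ : ∀ j, io (w j) ∈ J := fun j => by
    rw [io_apply, hw]; exact J.mul_mem_left _ (htU j).1
  have hwh : ∀ j, (w j).IsHomogeneous m := fun j => by
    refine IsHomogeneous.of_map (IsFractionRing.injective Ox Kx) ?_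
    rw [hw]
    exact IsHomogeneous.C_mul (htU j).2 _
  obtain ⟨C0, hC0⟩ : ∃ C0 : ℕ, ∀ j α, (coeff α (w j)).natDegree ≤ C0 := by
    refine ⟨Finset.univ.sup fun j => (w j).support.sup fun α => (coeff α (w j)).natDegree,
      fun j α => ?_⟩
    by_cases h : α ∈ (w j).support
    · exact (Finset.le_sup (f := fun α => (coeff α (w j)).natDegree) h).trans
        (Finset.le_sup (f := fun j => (w j).support.sup fun α => (coeff α (w j)).natDegree)
          (Finset.mem_univ j))
    · rw [notMem_support_iff.1 h]; simp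
  refine ⟨C0, fun M hM P R Δ hΔ hP hR hJ => ?_⟩
  have h1 : io (R - C Δ * P) ∈ U := by
    refine ⟨?_, IsHomogeneous.map (hR.1.sub (hP.C_mul _)) _⟩
    rw [← neg_sub, map_neg]
    exact neg_mem hJ
  rw [← ht] at h1
  obtain ⟨a, ha⟩ := (Submodule.mem_span_range_iff_exists_fun Kx
    (v := fun j : t => (j : MvPolynomial σ Kx)) (x := io (R - C Δ * P))).1
      (by rwa [Subtype.range_coe_subtype])
  obtain ⟨e, he⟩ := IsLocalization.exist_integer_multiples_of_finite (nonZeroDivisors Ox)
    (fun j : t => a j / algebraMap Ox Kx (c j))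
  choose b hb using he
  have he0 : (e : Ox) ≠ 0 := nonZeroDivisors.coe_ne_zero e
  have h2 : C (e : Ox) * (R - C Δ * P) = ∑ j, C (b j) * w j := by
    apply io_injective
    rw [map_mul, ← ha, map_sum, Finset.mul_sum]
    refine Finset.sum_congr rfl fun j _ => ?_
    have hcj : algebraMap Ox Kx (c j) ≠ 0 :=
      (map_ne_zero_iff _ (IsFractionRing.injective Ox Kx)).2 (hc j)
    rw [map_mul, io_C, io_C, io_apply, hw, hb, ← mul_assoc, ← map_mul, Algebra.smul_def,
      Algebra.smul_def, mul_assoc, div_mul_cancel₀ _ hcj, ← mul_assoc, algebraMap_eq, ← map_mul]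
  have heΔ : (e : Ox) * Δ ≠ 0 := mul_ne_zero he0 hΔ
  refine ⟨P + ∑ j, C (b j / (e * Δ)) * w j, ⟨hP.add (IsHomogeneous.sum _ _ _
    fun j _ => (hwh j).C_mul _), fun α => ?_⟩, ?_⟩
  · have h3 : C ((e : Ox) * Δ) * (P + ∑ j, C (b j / (e * Δ)) * w j) =
        C (e : Ox) * R - ∑ j, C (b j % (e * Δ)) * w j := by
      have h4 : ∑ j, C (b j) * w j = C ((e : Ox) * Δ) * ∑ j, C (b j / (e * Δ)) * w j +
          ∑ j, C (b j % (e * Δ)) * w j := by
        rw [Finset.mul_sum, ← Finset.sum_add_distrib]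
        refine Finset.sum_congr rfl fun j _ => ?_
        rw [← mul_assoc, ← map_mul, ← add_mul, ← map_add, EuclideanDomain.div_add_mod]
      rw [h4] at h2
      rw [map_mul] at h2 ⊢
      linear_combination -h2
    refine degree_lt_of_mul heΔ ?_
    rw [← coeff_C_mul, h3, coeff_sub, coeff_C_mul, coeff_sum]
    refine (Polynomial.degree_sub_le _ _).trans_lt (max_lt ?_ ?_)
    · rw [mul_comm]
      refine degree_lt_mono (degree_mul_lt' (hR.2 α) le_rfl) ?_
      rw [Polynomial.natDegree_mul he0 hΔ]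
      omega
    · refine (Polynomial.degree_sum_le _ _).trans_lt ((Finset.sup_lt_iff (WithBot.bot_lt_coe _)).2
        fun j _ => ?_)
      rw [coeff_C_mul]
      refine degree_mul_lt' ?_ ((hC0 j α).trans hM)
      rw [← Polynomial.degree_eq_natDegree heΔ]
      exact Polynomial.degree_mod_lt _ heΔ
  · rw [add_sub_cancel_left, map_sum]
    exact sum_mem fun j _ => by rw [map_mul]; exact J.mul_mem_left _ (hwJ j)

omit [Finite σ] in
theorem mul_injective_of_nzd {A : Type*} [CommRing A] {J : Ideal A} {f : A} (h : Nzd J f) (x : A ⧸ J)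
    (hx : Ideal.Quotient.mk J f * x = 0) : x = 0 := by
  obtain ⟨x, rfl⟩ := Ideal.Quotient.mk_surjective x
  rw [← map_mul, Ideal.Quotient.eq_zero_iff_mem] at hx
  exact Ideal.Quotient.eq_zero_iff_mem.2 (h x hx)

theorem qq_mono {J J' : Ideal (MvPolynomial σ Kx)} (h : J ≤ J') (m M : ℕ) :
    qq J' m M ≤ qq J m M := by
  have : (piJ J').toLinearMap = (Ideal.Quotient.factorₐ ℂ h).toLinearMap ∘ₗ (piJ J).toLinearMap :=
    rfl
  rw [qq, this, Submodule.map_comp]
  exact Submodule.finrank_map_le _ _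

theorem qq_step {J : Ideal (MvPolynomial σ Kx)} {f P : MvPolynomial σ Ox} {n β : ℕ} {Δ Pi : Ox}
    (hf : f.IsHomogeneous n) (hP : P.IsHomogeneous n) (hΔ : Δ ≠ 0) (hPi : Pi ≠ 0)
    (hdeg : ∀ α, coeff α f ≠ 0 → (coeff α f).natDegree + β ≤ Δ.natDegree)
    (hloc : io (C Pi * f - C Δ * P) ∈ J) (hnzd : Nzd J (io f)) (m : ℕ) :
    ∃ C0 : ℕ, ∀ M M', C0 ≤ M → M' + Pi.natDegree ≤ M + β →
      qq (J ⊔ Ideal.span {io f}) (m + n) M + qq J m M' ≤ qq J (m + n) M := by
  classical
  obtain ⟨C0, hC0⟩ := split_lemma J (m + n)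
  refine ⟨C0, fun M M' hM hM' => ?_⟩
  have hle : J ≤ J ⊔ Ideal.span {io f} := le_sup_left
  have e : (piJ (J ⊔ Ideal.span {io f})).toLinearMap =
      (Ideal.Quotient.factorₐ ℂ hle).toLinearMap ∘ₗ (piJ J).toLinearMap := rfl
  have hnzdP : Nzd J (io P) := by
    intro g hg
    refine hnzd g (mem_of_io_C_mul hPi ?_)
    have : io (C Pi) * (io f * g) = io (C Pi * f - C Δ * P) * g + io (C Δ) * (io P * g) := by
      simp only [map_sub, map_mul]; ring
    rw [this]
    exact add_mem (J.mul_mem_right _ hloc) (J.mul_mem_left _ hg)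
  rw [qq, e, Submodule.map_comp]
  refine (finrank_step _ _ _ (LinearMap.mulLeft ℂ (piJ J P)) ?_).1 ?_
  · rw [injective_iff_map_eq_zero]
    exact mul_injective_of_nzd hnzdP
  · rintro _ ⟨g, hg, rfl⟩
    obtain ⟨P', hP', h1⟩ := hC0 M hM (g * P) (g * (C Pi * f)) Δ hΔ (hg.1.mul hP)
      ⟨hg.1.mul (hf.C_mul _), fun α => by
        rw [coeff_mul]
        refine (Polynomial.degree_sum_le _ _).trans_lt
          ((Finset.sup_lt_iff (WithBot.bot_lt_coe _)).2 fun x _ => ?_)
        rw [coeff_C_mul]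
        by_cases h0 : coeff x.2 f = 0
        · rw [h0, mul_zero, mul_zero]; exact WithBot.bot_lt_coe _
        · have := hdeg _ h0
          refine degree_lt_mono (degree_mul_lt' (hg.2 x.1) Polynomial.natDegree_mul_le) ?_
          omega⟩ (by
        have : C Δ * (g * P) - g * (C Pi * f) = -g * (C Pi * f - C Δ * P) := by ring
        rw [this, map_mul]
        exact J.mul_mem_left _ hloc)
    have h2 : piJ J P * piJ J g = piJ J P' := by
      rw [← map_mul, piJ_apply, piJ_apply, eq_comm, Ideal.Quotient.eq, ← map_sub, mul_comm]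
      exact h1
    refine ⟨⟨P', hP', h2.symm⟩, ?_⟩
    change Ideal.Quotient.mk _ (io P * io g) = 0
    rw [Ideal.Quotient.eq_zero_iff_mem]
    refine Ideal.mul_mem_right _ _ (mem_of_io_C_mul hΔ ?_)
    have : io (C Δ) * io P = io (C Pi) * io f - io (C Pi * f - C Δ * P) := by
      simp only [map_sub, map_mul]; ring
    rw [this]
    exact sub_mem (Ideal.mul_mem_left _ _ (Ideal.mem_sup_right (Ideal.subset_span rfl))) (hle hloc)

theorem hh_step {J : Ideal (MvPolynomial σ Kx)} (hJ : HomI J) {f : MvPolynomial σ Kx} {n : ℕ}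
    (hf : f.IsHomogeneous n) (hnzd : Nzd J f) (m : ℕ) :
    hh J m = hh (J ⊔ Ideal.span {f}) m + if n ≤ m then hh J (m - n) else 0 := by
  have hle : J ≤ J ⊔ Ideal.span {f} := le_sup_left
  have e : (Ideal.Quotient.mkₐ Kx (J ⊔ Ideal.span {f})).toLinearMap =
      (Ideal.Quotient.factorₐ Kx hle).toLinearMap ∘ₗ (Ideal.Quotient.mkₐ Kx J).toLinearMap := rfl
  have hinj : Function.Injective (LinearMap.mulLeft Kx (Ideal.Quotient.mk J f)) := by
    rw [injective_iff_map_eq_zero]
    exact mul_injective_of_nzd hnzd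
  have key : ∀ x : MvPolynomial σ Kx, x.IsHomogeneous m → x ∈ J ⊔ Ideal.span {f} →
      ∃ y, x - (if n ≤ m then homogeneousComponent (m - n) y * f else 0) ∈ J := by
    intro x hx hxJ
    obtain ⟨y, j, hj, h⟩ := Ideal.mem_span_singleton_sup.1 (sup_comm J _ ▸ hxJ)
    have h1 := congrArg (homogeneousComponent m) h
    rw [map_add, hc_mul hf, homogeneousComponent_eq_self hx] at h1
    refine ⟨y, ?_⟩
    rw [← h1, add_sub_cancel_left]
    exact hJ m j hj
  rw [hh, hh, e, Submodule.map_comp]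
  split_ifs with hm
  · refine (finrank_step _ _ _ _ hinj).2 ?_ ?_
    · rintro _ ⟨g, hg, rfl⟩
      refine ⟨⟨f * g, ?_, rfl⟩, ?_⟩
      · have := hf.mul hg
        rwa [show n + (m - n) = m by omega] at this
      · change Ideal.Quotient.mk _ (f * g) = 0
        rw [Ideal.Quotient.eq_zero_iff_mem]
        exact Ideal.mul_mem_right _ _ (Ideal.mem_sup_right (Ideal.subset_span rfl))
    · rintro _ ⟨x, hx, rfl⟩ h0
      obtain ⟨y, hy⟩ := key x hx (Ideal.Quotient.eq_zero_iff_mem.1 h0)
      rw [if_pos hm] at hy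
      refine ⟨_, ⟨homogeneousComponent (m - n) y, homogeneousComponent_mem _ _, rfl⟩, ?_⟩
      change Ideal.Quotient.mk J (f * _) = Ideal.Quotient.mk J x
      rw [eq_comm, Ideal.Quotient.eq, mul_comm]
      exact hy
  · have := (finrank_step
      ((homogeneousSubmodule σ Kx m).map (Ideal.Quotient.mkₐ Kx J).toLinearMap) ⊥
      (Ideal.Quotient.factorₐ Kx hle).toLinearMap _ hinj).2 (by
        intro x hx
        rw [(Submodule.mem_bot _).1 hx, map_zero, map_zero]
        exact ⟨zero_mem _, rfl⟩) (by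
        rintro _ ⟨x, hx, rfl⟩ h0
        obtain ⟨y, hy⟩ := key x hx (Ideal.Quotient.eq_zero_iff_mem.1 h0)
        rw [if_neg hm, sub_zero] at hy
        exact ⟨0, zero_mem _, by
          rw [map_zero]; exact (Ideal.Quotient.eq_zero_iff_mem.2 hy).symm⟩)
    simpa using this

end Pool.Agent.Lib.MP_bd85b6_lc
end

-- part Pool.Agent.Lib.MP_bd85b6_lc.Height
section

/-! The height inequality: forms with few poles and many zeros at infinity have a common zero. -/

set_option autoImplicit false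

namespace Pool.Agent.Lib.MP_bd85b6_lc

open MvPolynomial Module

theorem hc_map {R S σ : Type*} [CommRing R] [CommRing S] (φ : R →+* S) (n : ℕ)
    (P : MvPolynomial σ R) :
    homogeneousComponent n (map φ P) = map φ (homogeneousComponent n P) := by
  classical
  ext m
  rw [coeff_map, coeff_homogeneousComponent, coeff_homogeneousComponent, coeff_map]
  split_ifs <;> simp

theorem card_Mon_mono {σ : Type*} [Finite σ] (i : σ) : Monotone fun m => (Mon σ m).card := by
  refine monotone_nat_of_le_succ fun m => ?_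
  refine Finset.card_le_card_of_injOn (fun α => α + Finsupp.single i 1) (fun α hα => ?_)
    (fun a _ b _ h => add_right_cancel h)
  have := mem_Mon.1 (Finset.mem_coe.1 hα)
  exact Finset.mem_coe.2 (mem_Mon.2 (by simp [this]))

theorem card_Mon_le (r m : ℕ) : (Mon (Fin r) m).card ≤ (m + 1) ^ r := by
  have h : ∀ α ∈ Mon (Fin r) m, ∀ i, α i < m + 1 := fun α hα i => by
    rw [← mem_Mon.1 hα]
    exact Nat.lt_succ_of_le (Finsupp.le_degree i α)
  have := Fintype.card_le_of_injective
    (fun α : Mon (Fin r) m => fun i : Fin r => (⟨α.1 i, h α.1 α.2 i⟩ : Fin (m + 1)))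
    (fun a b hab => Subtype.ext (Finsupp.ext fun i => by
      simpa using congrFun hab i))
  simpa using this

theorem height_core {r d Θ : ℕ} (hr : (2 * d * Θ : ℝ) < ∑ j ∈ Finset.Ico d r, 1 / ((j : ℝ) + 1))
    (Φ : ℕ → MvPolynomial (Fin r) Ox) (hΦ : ∀ n, (Φ n).IsHomogeneous (n + 1)) {Δ Pm : Ox}
    (hΔ : Δ ≠ 0) (hPi : Pm ≠ 0) {β γ : ℕ} (hγ : 0 < γ)
    (hdeg : ∀ n α, coeff α (Φ n) ≠ 0 → (coeff α (Φ n)).natDegree + β ≤ Δ.natDegree)
    (h1 : Δ.natDegree ≤ β + Θ * γ) (h2 : Pm.natDegree + γ ≤ β)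
    (hloc : ∀ n, d ≤ n → ∃ P : MvPolynomial (Fin r) Ox,
      io (C Pm * Φ n - C Δ * P) ∈ II (fun n => io (Φ n)) n) :
    ¬ ∀ i < r, Nzd (II (fun n => io (Φ n)) i) (io (Φ i)) := by
  intro hreg
  have hr0 : 0 < r := by
    by_contra h
    rw [Finset.Ico_eq_empty (by omega), Finset.sum_empty] at hr
    have : (0 : ℝ) ≤ 2 * d * Θ := by positivity
    linarith
  have hΨ : ∀ n, (io (Φ n)).IsHomogeneous (n + 1) := fun n => (hΦ n).map _
  let I := II (fun n => io (Φ n))
  have hI0 : I 0 = ⊥ := by simp [I, II]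
  let Pd : ℕ → Ox := fun n => if d ≤ n then Pm else Δ
  have hPd : ∀ n, Pd n ≠ 0 := fun n => by simp only [Pd]; split_ifs <;> assumption
  have hloc' : ∀ n, ∃ P : MvPolynomial (Fin r) Ox, P.IsHomogeneous (n + 1) ∧
      io (C (Pd n) * Φ n - C Δ * P) ∈ I n := by
    intro n
    by_cases hn : d ≤ n
    · obtain ⟨P, hP⟩ := hloc n hn
      refine ⟨homogeneousComponent (n + 1) P, homogeneousComponent_isHomogeneous _ _, ?_⟩
      have := homI_II hΨ n (n + 1) _ hP
      rw [io_apply, hc_map, map_sub, homogeneousComponent_C_mul, homogeneousComponent_C_mul,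
        homogeneousComponent_eq_self (hΦ n)] at this
      simp only [Pd, if_pos hn]
      exact this
    · exact ⟨Φ n, hΦ n, by simp [Pd, hn]⟩
  refine numeric_contra r d Θ r hr (fun m => ((Mon (Fin r) m).card : ℤ))
    (fun a b hab => Int.ofNat_le.2 (card_Mon_mono (⟨0, hr0⟩ : Fin r) hab)) ?_
    (fun m => by exact_mod_cast card_Mon_le r m) (fun n => ((Pd n).natDegree : ℤ) - β) γ hγ
    (fun j hj => ?_) (fun j hj => ?_) fun m => ?_
  · have : 0 < (Mon (Fin r) 0).card := Finset.card_pos.2 ⟨0, mem_Mon.2 (by simp)⟩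
    exact_mod_cast this
  · simp only [Pd, if_neg (not_le.2 hj)]
    have : (Δ.natDegree : ℤ) ≤ β + Θ * γ := by exact_mod_cast h1
    linarith
  · simp only [Pd, if_pos hj]
    omega
  · have key := comb_ineq r (fun i m => (hh (I i) m : ℤ)) (fun i m M => (qq (I i) m M.toNat : ℤ))
      (fun n => ((Pd n).natDegree : ℤ) - β) (fun i hi => ?_) (fun i hi m => ?_) (fun m => ?_)
      (fun m => ?_) m
    · simpa only [hI0, hh_bot] using key
    · ext m
      have := hh_step (homI_II hΨ i) (hΨ i) (hreg i hi) m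
      rw [← II_succ] at this
      simp only [Pi.add_apply, sh, I]
      rw [this]
      split_ifs <;> simp
    · by_cases hm : i + 1 ≤ m
      · obtain ⟨P, hP, hP'⟩ := hloc' i
        obtain ⟨C0, hC0⟩ := qq_step (hΦ i) hP hΔ (hPd i) (hdeg i) hP' (hreg i hi) (m - (i + 1))
        filter_upwards [Filter.eventually_ge_atTop ((C0 : ℤ) + (Pd i).natDegree)] with M hM
        rw [if_pos hm]
        have := hC0 M.toNat (M - (((Pd i).natDegree : ℤ) - β)).toNat (by omega) (by omega)
        rw [Nat.sub_add_cancel hm, ← II_succ (fun n => io (Φ n))] at this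
        exact_mod_cast this
      · refine Filter.Eventually.of_forall fun M => ?_
        rw [if_neg hm, add_zero]
        have : I i ≤ I (i + 1) := by
          simp only [I]
          rw [II_succ]
          exact le_sup_left
        exact_mod_cast qq_mono this m _
    · filter_upwards [Filter.eventually_ge_atTop (0 : ℤ)] with M hM
      obtain ⟨M, rfl⟩ := Int.eq_ofNat_of_zero_le hM
      exact_mod_cast hh_mul_le (I r) m M
    · filter_upwards [Filter.eventually_ge_atTop (0 : ℤ)] with M hM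
      obtain ⟨M, rfl⟩ := Int.eq_ofNat_of_zero_le hM
      rw [hI0, hh_bot]
      exact_mod_cast qq_le ⊥ m M

theorem JJ_map {R S : Type*} [CommRing R] [CommRing S] (φ : R →+* S) {r : ℕ}
    (Φ : ℕ → MvPolynomial (Fin r) R) (i j : ℕ) :
    (JJ Φ i j).map (map φ) = JJ (fun n => map φ (Φ n)) i j := by
  simp only [JJ, Ideal.map_span, Set.image_union, Set.image_image, map_X]

theorem nil_of_special {r : ℕ} (Φ : ℕ → MvPolynomial (Fin r) Ox)
    (hΦ : ∀ n, (Φ n).IsHomogeneous (n + 1)) (s0 : ℂ) (i : ℕ)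
    (h : ∀ w : Fin r → ℂ, (∀ j : Fin r, i ≤ j → w j = 0) →
      (∀ n < i, eval w (map (Polynomial.evalRingHom s0) (Φ n)) = 0) → w = 0) (j : Fin r) :
    ∃ n, X j ^ n ∈ JJ (fun n => io (Φ n)) i i := by
  let ev := Polynomial.evalRingHom s0
  have hev : Function.Surjective (map ev : MvPolynomial (Fin r) Ox → MvPolynomial (Fin r) ℂ) :=
    map_surjective _ fun c => ⟨Polynomial.C c, by simp [ev]⟩
  obtain ⟨n0, hn0⟩ := exists_hom_mem (JJ (fun n => map ev (Φ n)) i i)
    (X_mem_radical _ fun w hw => h w (fun l hl => by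
      simpa using hw (X l) (Or.inr ⟨l, hl, rfl⟩)) (fun n hn => hw _ (Or.inl ⟨n, hn, rfl⟩)))
  obtain ⟨c, hc1, hc⟩ := Submodule.exists_sub_one_mem_and_smul_le_of_fg_of_le_sup
    (I := RingHom.ker ev) (N := (JJ Φ i i).restrictScalars Ox)
    (homogeneousSubmodule_fg (Fin r) Ox n0) le_rfl (by
      intro x hx
      have h1 := hn0 n0 le_rfl (map ev x) (IsHomogeneous.map hx _)
      rw [← JJ_map, Ideal.mem_map_iff_of_surjective _ hev] at h1
      obtain ⟨y, hy, hxy⟩ := h1
      rw [← add_sub_cancel (homogeneousComponent n0 y) x]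
      refine add_mem (Submodule.mem_sup_left (homI_JJ hΦ i i n0 y hy)) (Submodule.mem_sup_right ?_)
      have h2 : map ev (x - homogeneousComponent n0 y) = 0 := by
        rw [map_sub, ← hc_map, hxy, homogeneousComponent_eq_self (IsHomogeneous.map hx _), sub_self]
      have h3 : (x - homogeneousComponent n0 y).IsHomogeneous n0 :=
        IsHomogeneous.sub hx (homogeneousComponent_isHomogeneous _ _)
      generalize x - homogeneousComponent n0 y = Q at h2 h3
      rw [Q.as_sum]
      refine sum_mem fun α hα => ?_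
      rw [← mul_one (coeff α Q), ← smul_eq_mul, map_smul]
      refine Submodule.smul_mem_smul ?_
        (isHomogeneous_monomial _ (mem_Mon.1 (mem_Mon_of_mem_support h3 hα)))
      rw [RingHom.mem_ker, ← coeff_map, h2, coeff_zero])
  have hc0 : c ≠ 0 := by
    rintro rfl
    simp at hc1
  refine ⟨n0, mem_of_io_C_mul hc0 ?_⟩
  have h4 : c • (X j : MvPolynomial (Fin r) Ox) ^ n0 ∈ JJ Φ i i :=
    hc (Submodule.smul_mem_pointwise_smul _ _ _ (isHomogeneous_X_pow j n0))
  have h5 := Ideal.mem_map_of_mem (map (algebraMap Ox Kx)) h4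
  rw [JJ_map, smul_eq_C_mul, map_mul, map_pow, map_X] at h5
  exact h5

theorem height (d Θ : ℕ) : ∃ r : ℕ, ∀ (Φ : ℕ → MvPolynomial (Fin r) Ox)
    (_ : ∀ n, (Φ n).IsHomogeneous (n + 1)) (Δ Pm : Ox) (_ : Δ ≠ 0) (_ : Pm ≠ 0) (β γ : ℕ)
    (_ : 0 < γ)
    (_ : ∀ n α, coeff α (Φ n) ≠ 0 → (coeff α (Φ n)).natDegree + β ≤ Δ.natDegree)
    (_ : Δ.natDegree ≤ β + Θ * γ) (_ : Pm.natDegree + γ ≤ β)
    (_ : ∀ n, d ≤ n → ∃ P : MvPolynomial (Fin r) Ox,
      io (C Pm * Φ n - C Δ * P) ∈ II (fun n => io (Φ n)) n) (s0 : ℂ),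
    ∃ i ≤ r, ∃ w : Fin r → ℂ, w ≠ 0 ∧ (∀ j : Fin r, i ≤ j → w j = 0) ∧
      ∀ n < i, eval w (map (Polynomial.evalRingHom s0) (Φ n)) = 0 := by
  obtain ⟨r, hr⟩ := exists_harmonic d Θ
  refine ⟨r, fun Φ hΦ Δ Pm hΔ hPi β γ hγ hdeg h1 h2 hloc s0 => ?_⟩
  by_contra hcon
  refine height_core hr Φ hΦ hΔ hPi hγ hdeg h1 h2 hloc
    (regular_of_flag (fun n => (hΦ n).map _) fun j => ?_)
  refine nil_of_special Φ hΦ s0 (j + 1) (fun w hw hw' => ?_) j
  by_contra hw0
  exact hcon ⟨j + 1, j.2, w, hw0, hw, hw'⟩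

end Pool.Agent.Lib.MP_bd85b6_lc
end

-- part Pool.Agent.Lib.MP_bd85b6_lc.Local
section

/-! Local analysis of the poles of the Taylor coefficients. -/

set_option autoImplicit false

namespace Pool.Agent.Lib.MP_bd85b6_lc

section abstract
open Polynomial

variable {B : Type*} [CommRing B]

/-- Polynomials with coefficients in a subring. -/
def CI (Λ : Subring B) : Subring B[X] where
  carrier := {p | ∀ n, p.coeff n ∈ Λ}
  mul_mem' := fun {p q} hp hq n => by
    rw [coeff_mul]; exact sum_mem fun x _ => mul_mem (hp _) (hq _)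
  one_mem' := fun n => by rw [coeff_one]; split_ifs <;> simp
  add_mem' := fun {p q} hp hq n => by rw [coeff_add]; exact add_mem (hp n) (hq n)
  zero_mem' := fun n => by simp
  neg_mem' := fun {p} hp n => by rw [coeff_neg]; exact neg_mem (hp n)

theorem C_mem_CI {Λ : Subring B} {c : B} (hc : c ∈ Λ) : C c ∈ CI Λ := fun n => by
  rw [coeff_C]; split_ifs <;> simp [hc]

theorem coeff_mul_of_X_pow_dvd {p G : B[X]} {i : ℕ} (h : X ^ i ∣ G) :
    (p * G).coeff i = p.coeff 0 * G.coeff i := by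
  obtain ⟨G', rfl⟩ := h
  have h1 := coeff_X_pow_mul (p * G') i 0
  have h2 := coeff_X_pow_mul G' i 0
  rw [zero_add] at h1 h2
  rw [mul_left_comm, h1, h2, mul_coeff_zero]

theorem X_pow_dvd_of_mul {p G : B[X]} {i : ℕ} (hp : p.coeff 0 = 1) (h : X ^ i ∣ p * G) :
    X ^ i ∣ G := by
  have h1 : IsCoprime X p := ⟨-p.divX, 1, by
    have := divX_mul_X_add p
    rw [hp, map_one] at this
    linear_combination -this⟩
  exact (h1.pow_left (m := i)).dvd_of_dvd_mul_left h

theorem coeff_pow_mul_sub_mem {Λ : Subring B} {u G : B[X]} (hu : u.coeff 0 = 1)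
    (hG : G ∈ CI Λ) (hG0 : G.coeff 0 = 1) {m : ℕ} (hm : 0 < m) (h : ∀ m' < m, u.coeff m' ∈ Λ)
    (n : ℕ) : (u ^ n * G).coeff m - n * u.coeff m ∈ Λ := by
  let v : B[X] := ∑ j ∈ Finset.range m, monomial j (u.coeff j)
  have hv : ∀ j, v.coeff j = if j < m then u.coeff j else 0 := fun j => by
    simp [v, finset_sum_coeff, coeff_monomial]
  have hvΛ : v ∈ CI Λ := fun j => by
    rw [hv]; split_ifs with hj
    · exact h j hj
    · exact zero_mem _
  have hy : X ^ m ∣ u - v := X_pow_dvd_iff.2 fun j hj => by rw [coeff_sub, hv, if_pos hj, sub_self]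
  obtain ⟨k, hk⟩ := powAddExpansion v (u - v) n
  rw [add_sub_cancel] at hk
  have h1 : u ^ n * G = v ^ n * G + (n * v ^ (n - 1) * G) * (u - v) +
      (k * G * (u - v)) * (u - v) := by rw [hk]; ring
  have h2 : (u - v).coeff 0 = 0 := by rw [coeff_sub, hv, if_pos hm, sub_self]
  have h3 : v.coeff 0 = 1 := by rw [hv, if_pos hm, hu]
  rw [h1, coeff_add, coeff_add, coeff_mul_of_X_pow_dvd hy, coeff_mul_of_X_pow_dvd hy,
    mul_coeff_zero, mul_coeff_zero, mul_coeff_zero _ (u - v), h2, hG0, coeff_zero_eq_eval_zero (v ^ _),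
    eval_pow, ← coeff_zero_eq_eval_zero v, h3, coeff_sub, hv, if_neg (lt_irrefl m)]
  simpa using mul_mem (pow_mem hvΛ n) hG m

theorem local_abstract {ι : Type*} [Fintype ι] (Λ : Subring B) (u E : B[X]) (G A : ι → B[X])
    (n : ι → ℕ) (lam : ι → B) (hu : u.coeff 0 = 1) (hE : E.coeff 0 = 1)
    (hG0 : ∀ j, (G j).coeff 0 = 1) (hG : ∀ j, G j ∈ CI Λ) (hlam : ∀ j, lam j ∈ Λ)
    (hrel : ∀ j, E * A j = u ^ n j * G j) (i : ℕ) (hi : 0 < i)
    (hF : X ^ i ∣ ∑ j, C (lam j) * A j) (Pm : B) (hPm : Pm ∈ Λ) (hPu : Pm * u.coeff i ∈ Λ)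
    (hn : (∀ a b, n a = n b) ∨ ∃ ε ∈ Λ, ε * ∑ j, lam j * n j = 1) :
    Pm * (∑ j, C (lam j) * A j).coeff i ∈ Λ := by
  have h1 : E * ∑ j, C (lam j) * A j = ∑ j, C (lam j) * (u ^ n j * G j) := by
    rw [Finset.mul_sum]
    exact Finset.sum_congr rfl fun j _ => by rw [mul_left_comm, hrel]
  have h2 : (∑ j, C (lam j) * A j).coeff i = (∑ j, C (lam j) * (u ^ n j * G j)).coeff i := by
    rw [← h1, coeff_mul_of_X_pow_dvd hF, hE, one_mul]
  have h3 : X ^ i ∣ ∑ j, C (lam j) * (u ^ n j * G j) := h1 ▸ hF.mul_left E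
  rw [h2]
  rcases hn with hn | ⟨ε, hε, hε1⟩
  · rcases isEmpty_or_nonempty ι with h | ⟨⟨j0⟩⟩
    · simp
    have h4 : ∑ j, C (lam j) * (u ^ n j * G j) = u ^ n j0 * ∑ j, C (lam j) * G j := by
      rw [Finset.mul_sum]
      exact Finset.sum_congr rfl fun j _ => by rw [hn j j0, mul_left_comm]
    have h5 : (u ^ n j0).coeff 0 = 1 := by
      rw [coeff_zero_eq_eval_zero, eval_pow, ← coeff_zero_eq_eval_zero, hu, one_pow]
    rw [h4] at h3 ⊢
    rw [coeff_mul_of_X_pow_dvd (X_pow_dvd_of_mul h5 h3), h5, one_mul]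
    exact mul_mem hPm ((sum_mem fun j _ => mul_mem (C_mem_CI (hlam j)) (hG j) : _ ∈ CI Λ) i)
  · have key : ∀ m, 0 < m → (∀ m' < m, u.coeff m' ∈ Λ) →
        (∑ j, C (lam j) * (u ^ n j * G j)).coeff m - (∑ j, lam j * n j) * u.coeff m ∈ Λ := by
      intro m hm h
      rw [finset_sum_coeff, Finset.sum_mul, ← Finset.sum_sub_distrib]
      refine sum_mem fun j _ => ?_
      rw [coeff_C_mul, mul_assoc, ← mul_sub]
      exact mul_mem (hlam j) (coeff_pow_mul_sub_mem hu (hG j) (hG0 j) hm h _)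
    have h6 : ∀ m < i, u.coeff m ∈ Λ := by
      intro m
      induction m using Nat.strong_induction_on with
      | _ m ih =>
        intro hm
        rcases Nat.eq_zero_or_pos m with rfl | hm0
        · rw [hu]; exact one_mem _
        · have h7 := key m hm0 fun m' hm' => ih m' hm' (by omega)
          rw [X_pow_dvd_iff.1 h3 m hm, zero_sub] at h7
          have h8 := mul_mem hε (neg_mem h7)
          rwa [neg_neg, ← mul_assoc, hε1, one_mul] at h8
    have h9 := mul_mem hPm (key i hi h6)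
    have h10 := mul_mem (sum_mem fun j (_ : j ∈ Finset.univ) =>
      mul_mem (hlam j) (natCast_mem Λ (n j))) hPu
    convert add_mem h9 h10 using 1
    ring

end abstract

open MvPolynomial

theorem local_cond {σ ι : Type*} [Fintype ι] [DecidableEq ι] (St : ι → MvPolynomial σ Ox)
    (hs : ∀ j, coeff 0 (St j) ≠ 0) (lam : ι → Ox) (hlam : ∑ j, lam j = 0)
    (Φ : ℕ → MvPolynomial σ Ox) (hΦ : ∀ n, Φ n = homogeneousComponent (n + 1)
      (∑ j, C (lam j * ∏ l ∈ Finset.univ.erase j, coeff 0 (St l)) * St j)) (Pm : Ox) (n : ℕ)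
    (H : ∀ θ : ℂ, ∃ (Q ρ : MvPolynomial σ Ox) (S : ι → MvPolynomial σ Ox) (m : ι → ℕ),
      coeff 0 Q ≠ 0 ∧ (coeff 0 ρ).eval θ ≠ 0 ∧ (∀ j, (coeff 0 (S j)).eval θ ≠ 0) ∧
      (∀ j, ρ * St j = Q ^ m j * S j) ∧ (homogeneousComponent (n + 1) Q = 0 ∨ coeff 0 Q ∣ Pm) ∧
      ((∀ a b, m a = m b) ∨ (∑ j, lam j * m j).eval θ ≠ 0)) :
    ∃ P : MvPolynomial σ Ox, io (C Pm * Φ n - C (∏ j, coeff 0 (St j)) * P) ∈
      II (fun n => io (Φ n)) n := by
  set J := II (fun n => io (Φ n)) n with hJ
  let B := MvPolynomial σ Kx ⧸ J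
  let ψ : MvPolynomial σ Ox →+* B := (piJ J).toRingHom
  let a : Ox →+* B := ψ.comp C
  let κ : Kx →+* B := (Ideal.Quotient.mk J).comp C
  have haκ : ∀ c, a c = κ (algebraMap Ox Kx c) := fun c => by
    change Ideal.Quotient.mk J (io (C c)) = _
    rw [io_C]; rfl
  let inv : Ox → B := fun c => κ (algebraMap Ox Kx c)⁻¹
  have hinv : ∀ c, c ≠ 0 → inv c * a c = 1 := fun c hc => by
    rw [haκ, ← map_mul, inv_mul_cancel₀ ((map_ne_zero_iff _ (IsFractionRing.injective Ox Kx)).2 hc),
      map_one]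
  have hinv_mul : ∀ c c', inv (c * c') = inv c * inv c' := fun c c' => by
    simp only [inv, map_mul, mul_inv]
  have hinv_pow : ∀ c (k : ℕ), inv (c ^ k) = inv c ^ k := fun c k => by
    simp only [inv, map_pow, ← inv_pow]
  let η : MvPolynomial σ Ox →+* Polynomial B :=
    eval₂Hom (Polynomial.C.comp a) fun i => Polynomial.X * Polynomial.C (ψ (X i))
  have hη : ∀ P k, (η P).coeff k = ψ (homogeneousComponent k P) := fun P k => by
    have h1 : eval₂Hom a (fun i => ψ (X i)) = ψ :=
      MvPolynomial.ringHom_ext (fun c => by simp [a]) (fun i => by simp)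
    rw [← h1]
    exact coeff_eval₂_line a (fun i => ψ (X i)) P k
  have hη0 : ∀ P, (η P).coeff 0 = a (coeff 0 P) := fun P => by
    rw [hη, homogeneousComponent_zero]; rfl
  have hηC : ∀ c, η (C c) = Polynomial.C (a c) := fun c => eval₂Hom_C _ _ _
  set Δ := ∏ j, coeff 0 (St j) with hΔ
  have hΔ0 : Δ ≠ 0 := Finset.prod_ne_zero_iff.2 fun j _ => hs j
  let A : ι → Polynomial B := fun j => Polynomial.C (inv (coeff 0 (St j))) * η (St j)
  set F0 := ∑ j, C (lam j * ∏ l ∈ Finset.univ.erase j, coeff 0 (St l)) * St j with hF0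
  have hF : Polynomial.C (a Δ) * ∑ j, Polynomial.C (a (lam j)) * A j = η F0 := by
    rw [hF0, map_sum, Finset.mul_sum]
    refine Finset.sum_congr rfl fun j _ => ?_
    rw [map_mul η, hηC, ← mul_assoc, ← mul_assoc, ← map_mul, ← map_mul, hΔ,
      ← Finset.mul_prod_erase _ _ (Finset.mem_univ j)]
    congr 2
    simp only [map_mul]
    linear_combination (a (lam j) * a (∏ l ∈ Finset.univ.erase j, coeff 0 (St l))) *
      hinv _ (hs j)
  have hcoef : ∀ k, (∑ j, Polynomial.C (a (lam j)) * A j).coeff k =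
      inv Δ * ψ (homogeneousComponent k F0) := fun k => by
    rw [← hη, ← hF, Polynomial.coeff_C_mul, ← mul_assoc, hinv _ hΔ0, one_mul]
  have hdvd : Polynomial.X ^ (n + 1) ∣ ∑ j, Polynomial.C (a (lam j)) * A j := by
    rw [Polynomial.X_pow_dvd_iff]
    intro k hk
    rw [hcoef]
    rcases k with _ | k
    · have : coeff 0 F0 = 0 := by
        rw [hF0, coeff_sum]
        simp only [coeff_C_mul, mul_assoc,
          Finset.prod_erase_mul _ (fun l => coeff 0 (St l)) (Finset.mem_univ _)]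
        rw [← Finset.sum_mul, hlam, zero_mul]
      rw [homogeneousComponent_zero, this, map_zero, map_zero, mul_zero]
    · have : ψ (Φ k) = 0 := Ideal.Quotient.eq_zero_iff_mem.2
        (Ideal.subset_span ⟨k, by simpa using hk, rfl⟩)
      rw [← hΦ, this, mul_zero]
  set b := a Pm * (∑ j, Polynomial.C (a (lam j)) * A j).coeff (n + 1) with hb
  have hloc : ∀ θ : ℂ, ∃ g : Ox, g.eval θ ≠ 0 ∧ ∃ P, a g * b = ψ P := by
    intro θ
    let Λ : Subring B :=
      { carrier := {b | ∃ g : Ox, g.eval θ ≠ 0 ∧ ∃ P, a g * b = ψ P}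
        mul_mem' := by
          rintro x y ⟨g, hg, P, hP⟩ ⟨g', hg', P', hP'⟩
          exact ⟨g * g', by simp [hg, hg'], P * P', by
            rw [map_mul, map_mul, ← hP, ← hP']; ring⟩
        one_mem' := ⟨1, by simp, 1, by simp⟩
        add_mem' := by
          rintro x y ⟨g, hg, P, hP⟩ ⟨g', hg', P', hP'⟩
          refine ⟨g * g', by simp [hg, hg'], C g' * P + C g * P', ?_⟩
          rw [map_add, map_mul, map_mul, map_mul, ← hP, ← hP']
          change _ = a g' * _ + a g * _
          ring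
        zero_mem' := ⟨1, by simp, 0, by simp⟩
        neg_mem' := by
          rintro x ⟨g, hg, P, hP⟩
          exact ⟨g, hg, -P, by rw [map_neg, ← hP]; ring⟩ }
    have hψΛ : ∀ P, ψ P ∈ Λ := fun P => ⟨1, by simp, P, by simp⟩
    have hinvΛ : ∀ c : Ox, c.eval θ ≠ 0 → inv c ∈ Λ := fun c hc =>
      ⟨c, hc, 1, by rw [mul_comm, hinv c (by rintro rfl; simp at hc), map_one]⟩
    have hne : ∀ c : Ox, c.eval θ ≠ 0 → c ≠ 0 := fun c hc => by rintro rfl; simp at hc
    obtain ⟨Q, ρ, S, m, hQ, hρ, hS, hrel, hQP, hm⟩ := H θ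
    refine local_abstract Λ (Polynomial.C (inv (coeff 0 Q)) * η Q)
      (Polynomial.C (inv (coeff 0 ρ)) * η ρ)
      (fun j => Polynomial.C (inv (coeff 0 (S j))) * η (S j)) A m (fun j => a (lam j)) ?_ ?_
      (fun j => ?_) (fun j => ?_) (fun j => hψΛ _) (fun j => ?_) (n + 1) (by omega) hdvd (a Pm)
      (hψΛ _) ?_ ?_
    · rw [Polynomial.coeff_C_mul, hη0, hinv _ hQ]
    · rw [Polynomial.coeff_C_mul, hη0, hinv _ (hne _ hρ)]
    · rw [Polynomial.coeff_C_mul, hη0, hinv _ (hne _ (hS j))]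
    · exact mul_mem (C_mem_CI (hinvΛ _ (hS j))) fun k => by rw [hη]; exact hψΛ _
    · have h1 := congrArg η (hrel j)
      have h2 := congrArg inv (congrArg constantCoeff (hrel j))
      rw [map_mul, map_mul, map_pow, hinv_mul, hinv_mul, hinv_pow] at h2
      simp only [constantCoeff_eq] at h2
      rw [map_mul, map_mul, map_pow] at h1
      have h3 := congrArg Polynomial.C h2
      rw [map_mul, map_mul, map_pow] at h3
      simp only [A]
      rw [mul_mul_mul_comm, h1, h3, mul_pow]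
      ring
    · rw [Polynomial.coeff_C_mul, hη]
      rcases hQP with h | ⟨c, rfl⟩
      · rw [h, map_zero, mul_zero, mul_zero]; exact zero_mem _
      · have : a (coeff 0 Q * c) * (inv (coeff 0 Q) * ψ (homogeneousComponent (n + 1) Q)) =
            a c * ψ (homogeneousComponent (n + 1) Q) := by
          rw [map_mul]
          linear_combination (a c * ψ (homogeneousComponent (n + 1) Q)) * hinv _ hQ
        rw [this]
        exact mul_mem (hψΛ _) (hψΛ _)
    · refine hm.imp_right fun h => ⟨_, hinvΛ _ h, ?_⟩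
      have := hinv _ (hne _ h)
      simpa only [map_sum, map_mul, map_natCast] using this
  obtain ⟨P, hP⟩ : ∃ P, b = ψ P := by
    let 𝔞 : Ideal Ox :=
      { carrier := {g | ∃ P, a g * b = ψ P}
        add_mem' := by
          rintro x y ⟨P, hP⟩ ⟨P', hP'⟩
          exact ⟨P + P', by rw [map_add, map_add, add_mul, hP, hP']⟩
        zero_mem' := ⟨0, by simp⟩
        smul_mem' := by
          rintro c x ⟨P, hP⟩
          exact ⟨C c * P, by rw [smul_eq_mul, map_mul, map_mul, mul_assoc, hP]; rfl⟩ }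
    obtain ⟨g0, hg0⟩ := (IsPrincipalIdealRing.principal 𝔞).principal
    have hroot : ∀ θ : ℂ, g0.eval θ ≠ 0 := fun θ h => by
      obtain ⟨g, hg, hP⟩ := hloc θ
      have : g ∈ 𝔞 := hP
      rw [hg0, Ideal.submodule_span_eq, Ideal.mem_span_singleton] at this
      obtain ⟨c, rfl⟩ := this
      simp [h] at hg
    have hunit : IsUnit g0 := by
      by_contra h
      have h0 : g0 ≠ 0 := by rintro rfl; simpa using hroot 0
      obtain ⟨θ, hθ⟩ := IsAlgClosed.exists_root g0 (fun h' => h
        (Polynomial.isUnit_iff_degree_eq_zero.2 h'))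
      exact hroot θ hθ
    have : (1 : Ox) ∈ 𝔞 := by
      rw [hg0, Ideal.submodule_span_eq, Ideal.mem_span_singleton]
      exact hunit.dvd
    obtain ⟨P, hP⟩ := this
    exact ⟨P, by simpa using hP⟩
  refine ⟨P, Ideal.Quotient.eq_zero_iff_mem.1 ?_⟩
  change ψ _ = 0
  rw [map_sub, map_mul, map_mul, ← hP, hb, hcoef, ← hΦ]
  change a Pm * _ - a Δ * _ = 0
  linear_combination (-a Pm * ψ (Φ n)) * hinv _ hΔ0

end Pool.Agent.Lib.MP_bd85b6_lc
end

-- part Pool.Agent.Lib.MP_bd85b6_lc.Syz
section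

/-! Reduced bases of syzygy modules over a polynomial ring in one variable. -/

set_option autoImplicit false

namespace Pool.Agent.Lib.MP_bd85b6_lc

open Polynomial Module

variable {κ : Type*} [Field κ] {ι : Type*} [Fintype ι]

theorem indep_of_leading {n : ℕ} (ν : Fin n → ι → κ[X]) (b : Fin n → ℕ)
    (hb : ∀ l j, (ν l j).natDegree ≤ b l)
    (hind : LinearIndependent κ fun l j => (ν l j).coeff (b l)) : LinearIndependent κ[X] ν := by
  classical
  rw [Fintype.linearIndependent_iff]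
  intro a ha
  by_contra hne
  push Not at hne
  obtain ⟨l0, hl0, hmax⟩ := Finset.exists_max_image (Finset.univ.filter fun l => a l ≠ 0)
    (fun l => (a l).natDegree + b l) (by simpa [Finset.Nonempty] using hne)
  set e := (a l0).natDegree + b l0 with he
  have h1 : ∀ l j, (a l * ν l j).coeff e =
      (if b l ≤ e then (a l).coeff (e - b l) else 0) * (ν l j).coeff (b l) := by
    intro l j
    by_cases h0 : a l = 0
    · simp [h0]
    · have h2 := hmax l (by simpa using h0)
      rw [if_pos (by omega)]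
      conv_lhs => rw [show e = (e - b l) + b l by omega]
      exact coeff_mul_add_eq_of_natDegree_le (by omega) (hb l j)
  have h3 := Fintype.linearIndependent_iff.1 hind
    (fun l => if b l ≤ e then (a l).coeff (e - b l) else 0) (by
      ext j
      have := congrArg (fun p => p.coeff e) (congrFun ha j)
      simp only [Finset.sum_apply, Pi.smul_apply, smul_eq_mul, finset_sum_coeff, h1, Pi.zero_apply,
        coeff_zero] at this ⊢
      exact this) l0
  simp only [he, le_add_iff_nonneg_left, zero_le, if_true, Nat.add_sub_cancel] at h3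
  exact (Finset.mem_filter.1 hl0).2 (leadingCoeff_eq_zero.1 h3)

theorem reduced_basis (W : Submodule κ[X] (ι → κ[X])) (β : ℕ)
    (hβ : ∀ A ∈ W, (∀ j, (A j).degree < β) → A = 0) :
    ∃ n ≤ Fintype.card ι, ∃ ν : Fin n → ι → κ[X], (∀ l, ν l ∈ W) ∧ LinearIndependent κ[X] ν ∧
      ∀ e : ℕ, ∀ A ∈ W, (∀ j, (A j).degree < e) →
        ∃ a : Fin n → κ[X], A = ∑ l, a l • ν l ∧ ∀ l, a l ≠ 0 → (a l).natDegree + β < e := by
  classical
  let P : (n : ℕ) → (Fin n → ι → κ[X]) → (Fin n → ℕ) → Prop := fun n ν b =>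
    (∀ l, ν l ∈ W ∧ ∀ j, (ν l j).natDegree ≤ b l) ∧
      LinearIndependent κ fun l j => (ν l j).coeff (b l)
  have hPn : ∀ n ν b, P n ν b → n ≤ Fintype.card ι := fun n ν b h => by
    simpa using h.2.fintype_card_le_finrank
  let Q : ℕ → Prop := fun n => ∃ ν b, P n ν b
  have hQ0 : Q 0 := ⟨fun l => l.elim0, fun l => l.elim0, fun l => l.elim0,
    linearIndependent_empty_type⟩
  set n := Nat.findGreatest Q (Fintype.card ι) with hn
  have hQn : Q n := Nat.findGreatest_spec (Nat.zero_le _) hQ0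
  have hQn1 : ¬ Q (n + 1) := fun h => by
    obtain ⟨ν, b, h'⟩ := h
    exact Nat.findGreatest_is_greatest (Nat.lt_succ_self n) (hPn _ _ _ h') ⟨ν, b, h'⟩
  have hex : ∃ s, ∃ ν b, P n ν b ∧ ∑ l, b l = s := by
    obtain ⟨ν, b, h⟩ := hQn
    exact ⟨_, ν, b, h, rfl⟩
  obtain ⟨ν, b, hP, hs⟩ := Nat.find_spec hex
  have hmin : ∀ ν' b', P n ν' b' → ∑ l, b l ≤ ∑ l, b' l := fun ν' b' h => by
    rw [hs]; exact Nat.find_min' hex ⟨ν', b', h, rfl⟩
  have hβb : ∀ l, β ≤ b l := by
    intro l
    by_contra h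
    have h1 := hβ _ (hP.1 l).1 fun j =>
      (degree_le_natDegree.trans (by exact_mod_cast (hP.1 l).2 j)).trans_lt
        (by exact_mod_cast not_le.1 h : ((b l : ℕ) : WithBot ℕ) < β)
    exact hP.2.ne_zero l (by simp [h1]; rfl)
  refine ⟨n, hPn _ _ _ hP, ν, fun l => (hP.1 l).1,
    indep_of_leading ν b (fun l => (hP.1 l).2) hP.2, fun e => ?_⟩
  induction e with
  | zero =>
    intro A _ hA
    refine ⟨0, ?_, by simp⟩
    ext1 j
    simpa using hA j
  | succ e ih =>
    intro A hAW hA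
    have hA' : ∀ j, (A j).natDegree ≤ e := fun j =>
      natDegree_le_of_degree_le (Order.le_of_lt_succ (by exact_mod_cast hA j))
    have h1 : (fun j => (A j).coeff e) ∈
        Submodule.span κ (Set.range fun l j => (ν l j).coeff (b l)) := by
      by_contra h
      refine hQn1 ⟨Fin.cons A ν, Fin.cons e b, fun l => ?_, ?_⟩
      · exact Fin.cases ⟨hAW, hA'⟩ hP.1 l
      · have e1 : (fun l j => ((Fin.cons A ν : Fin (n + 1) → ι → κ[X]) l j).coeff
            ((Fin.cons e b : Fin (n + 1) → ℕ) l)) = (Fin.cons (fun j => (A j).coeff e)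
              (fun l j => (ν l j).coeff (b l)) : Fin (n + 1) → ι → κ) := by
          ext l j
          refine Fin.cases ?_ (fun l => ?_) l <;> simp
        rw [e1]
        exact hP.2.finCons h
    obtain ⟨α, hα⟩ := (Submodule.mem_span_range_iff_exists_fun κ).1 h1
    have h2 : ∀ l, α l ≠ 0 → b l ≤ e := by
      intro l hl
      by_contra hbl
      have h3 := hmin (Function.update ν l A) (Function.update b l e) ⟨fun l' => ?_, ?_⟩
      · rw [Finset.sum_update_of_mem (Finset.mem_univ _),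
          ← Finset.add_sum_erase _ _ (Finset.mem_univ l), Finset.sdiff_singleton_eq_erase] at h3
        omega
      · by_cases h : l' = l
        · subst h; simpa using ⟨hAW, hA'⟩
        · simpa [h] using hP.1 l'
      · have e1 : (fun l' j => (Function.update ν l A l' j).coeff (Function.update b l e l')) =
            Function.update (fun l j => (ν l j).coeff (b l)) l (fun j => (A j).coeff e) := by
          ext l' j
          by_cases h : l' = l
          · subst h; simp
          · simp [h]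
        rw [e1]
        exact hP.2.update l (fun j => (A j).coeff e) ⟨1, one_mem _,
          Finsupp.equivFunOnFinite.symm α, mem_nonZeroDivisors_of_ne_zero (by simpa using hl), by
            rw [one_smul, ← hα, Finsupp.linearCombination_apply, Finsupp.sum_fintype _ _ (by simp)]
            simp⟩
    obtain ⟨a, ha, ha'⟩ := ih (A - ∑ l, (C (α l) * X ^ (e - b l)) • ν l)
      (sub_mem hAW (sum_mem fun l _ => W.smul_mem _ (hP.1 l).1)) (fun j => by
        rw [degree_lt_iff_coeff_zero]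
        intro m hm
        have h4 : ∀ l, (C (α l) * X ^ (e - b l) * ν l j).coeff m =
            if m = e then α l * (ν l j).coeff (b l) else 0 := by
          intro l
          by_cases hl : α l = 0
          · simp [hl]
          · have h5 := h2 l hl
            rw [mul_assoc, coeff_C_mul, show m = (m - (e - b l)) + (e - b l) by omega,
              coeff_X_pow_mul]
            split_ifs with h
            · congr 2; omega
            · rw [coeff_eq_zero_of_natDegree_lt (((hP.1 l).2 j).trans_lt (by omega)), mul_zero]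
        simp only [Pi.sub_apply, Finset.sum_apply, Pi.smul_apply, smul_eq_mul, coeff_sub,
          finset_sum_coeff, h4]
        split_ifs with h
        · subst h
          have := congrFun hα j
          simp only [Finset.sum_apply, Pi.smul_apply, smul_eq_mul] at this
          rw [this, sub_self]
        · rw [coeff_eq_zero_of_natDegree_lt ((hA' j).trans_lt (by omega))]
          simp)
    refine ⟨fun l => a l + C (α l) * X ^ (e - b l), ?_, fun l hl => ?_⟩
    · simp only [add_smul, Finset.sum_add_distrib, ← ha, sub_add_cancel]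
    · have h6 : (C (α l) * X ^ (e - b l)).natDegree ≤ e - b l := natDegree_C_mul_X_pow_le _ _
      have h7 := natDegree_add_le (a l) (C (α l) * X ^ (e - b l))
      have h8 := hβb l
      by_cases hα0 : α l = 0
      · simp only [hα0, map_zero, zero_mul, add_zero] at hl ⊢
        have := ha' l hl
        omega
      · have h9 := h2 l hα0
        by_cases ha0 : a l = 0
        · simp only [ha0, zero_add]
          omega
        · have := ha' l ha0
          beta_reduce
          rcases le_max_iff.1 h7 with h | h <;> omega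

theorem syz_package [DecidableEq ι] (S τ : ι → κ[X]) (hτ : ∑ j, τ j * S j = 1) (hS : ∑ j, S j = 0)
    (j0 : ι) (β : ℕ)
    (hβ : ∀ A : ι → κ[X], ∑ j, S j * A j = 0 → A j0 = 0 → (∀ j, (A j).degree < β) → A = 0) :
    ∃ n ≤ Fintype.card ι, ∃ (ν lam : Fin n → ι → κ[X]) (lam1 : ι → κ[X]),
      (∀ l, ∑ j, lam l j = 0) ∧
      (∀ (A : ι → κ[X]) (e : ℕ), ∑ j, S j * A j = 0 → (∀ j, (A j).natDegree ≤ e) →
        ∀ l, ∑ j, lam l j * A j ≠ 0 → (∑ j, lam l j * A j).natDegree + β ≤ e) ∧
      ∀ i j, (if i = j then 1 else 0) = ∑ l, ν l i * lam l j + lam1 j + τ i * S j := by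
  let W : Submodule κ[X] (ι → κ[X]) :=
    { carrier := {A | ∑ j, S j * A j = 0 ∧ A j0 = 0}
      add_mem' := fun {x y} hx hy =>
        ⟨by simp [mul_add, Finset.sum_add_distrib, hx.1, hy.1], by simp [hx.2, hy.2]⟩
      zero_mem' := by simp
      smul_mem' := fun c {x} hx => ⟨by
        simp only [Pi.smul_apply, smul_eq_mul, mul_left_comm _ c, ← Finset.mul_sum, hx.1,
          mul_zero], by simp [hx.2]⟩ }
  obtain ⟨n, hn, ν, hνW, hind, hgen⟩ := reduced_basis W β fun A hA => hβ A hA.1 hA.2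
  have hW : ∀ A : ι → κ[X], ∑ j, S j * A j = 0 → (fun i => A i - A j0) ∈ W := fun A hA =>
    ⟨by simp only [mul_sub, Finset.sum_sub_distrib, hA, ← Finset.sum_mul, hS, zero_mul, sub_self],
      sub_self _⟩
  have hdeg : ∀ (A : ι → κ[X]) (e : ℕ), (∀ j, (A j).natDegree ≤ e) →
      ∀ i, (A i - A j0).degree < (e + 1 : ℕ) := fun A e h i =>
    (degree_le_natDegree.trans (by
      exact_mod_cast (natDegree_sub_le _ _).trans (max_le (h i) (h j0)))).trans_lt
      (by exact_mod_cast Nat.lt_succ_self e : ((e : ℕ) : WithBot ℕ) < (e + 1 : ℕ))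
  let u : ι → ι → κ[X] := fun j i => (if i = j then 1 else 0) - τ i * S j
  have hu : ∀ j, ∑ i, S i * u j i = 0 := fun j => by
    simp only [u, mul_sub, Finset.sum_sub_distrib, mul_ite, mul_one, mul_zero, Finset.sum_ite_eq',
      Finset.mem_univ, if_true, ← mul_assoc, ← Finset.sum_mul, mul_comm (S _) (τ _), hτ, one_mul,
      sub_self]
  have h1 : ∀ j, ∃ a : Fin n → κ[X], (fun i => u j i - u j j0) = ∑ l, a l • ν l := fun j => by
    obtain ⟨a, ha, -⟩ := hgen _ _ (hW _ (hu j)) (hdeg (u j) (Finset.univ.sup fun i =>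
      (u j i).natDegree) fun i => Finset.le_sup (f := fun i => (u j i).natDegree)
        (Finset.mem_univ i))
    exact ⟨a, ha⟩
  choose a ha using h1
  have hP3 : ∀ i j, (if i = j then 1 else 0) = ∑ l, ν l i * a j l + u j j0 + τ i * S j := by
    intro i j
    have := congrFun (ha j) i
    simp only [Finset.sum_apply, Pi.smul_apply, smul_eq_mul] at this
    simp only [mul_comm (ν _ _), ← this, u]
    ring
  have hcoord : ∀ A : ι → κ[X], ∑ j, S j * A j = 0 →
      (fun i => A i - A j0) = ∑ l, (∑ j, a j l * A j) • ν l := by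
    intro A hA
    have h2 : ∀ i, A i = ∑ l, (∑ j, a j l * A j) * ν l i + ∑ j, u j j0 * A j := by
      intro i
      have h3 : A i = ∑ j, (if i = j then 1 else 0) * A j := by simp
      rw [h3]
      simp only [hP3, add_mul, Finset.sum_add_distrib, mul_assoc, ← Finset.mul_sum, hA, mul_zero,
        add_zero, Finset.sum_mul]
      rw [Finset.sum_comm]
      congr 1
      exact Finset.sum_congr rfl fun l _ => Finset.sum_congr rfl fun j _ => by ring
    ext1 i
    have h4 : ∀ l, ν l j0 = 0 := fun l => (hνW l).2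
    rw [h2 i, h2 j0]
    simp [h4]
  refine ⟨n, hn, ν, fun l j => a j l, fun j => u j j0, fun l => ?_, fun A e hA he l hl => ?_, hP3⟩
  · have := hcoord 1 (by simpa using hS)
    have h5 := Fintype.linearIndependent_iff.1 hind _ (by rw [← this]; ext1 i; simp) l
    simpa using h5
  · obtain ⟨a', ha', hd⟩ := hgen _ _ (hW A hA) (hdeg A e he)
    have h6 := Fintype.linearIndependent_iff.1 hind (fun l => a' l - ∑ j, a j l * A j) (by
      simp only [sub_smul, Finset.sum_sub_distrib, ← ha', ← hcoord A hA, sub_self]) l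
    rw [sub_eq_zero] at h6
    rw [← h6] at hl ⊢
    have := hd l hl
    omega

end Pool.Agent.Lib.MP_bd85b6_lc
end
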