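import Pool.Agent.Lib.MP_bd85b6_lc.BFocal
import Pool.Agent.Lib.MP_bd85b6_lc.Syz

-- part Pool.Agent.Lib.MP_bd85b6_lc.Circuit
section

/-! The cone of directions along which the ratios of a circuit are constant. -/

set_option autoImplicit false

namespace Pool.Agent.Lib.MP_bd85b6_lc.B

open MvPolynomial

section maps
variable {L : Type*} [Field L] [Algebra L ℂ] {σ : Type*}

/-- Evaluation of the coefficients at a point. -/
noncomputable def evx (x : σ → ℂ) : Polynomial (MvPolynomial σ L) →+* Ox :=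
  Polynomial.mapRingHom (aeval x : MvPolynomial σ L →ₐ[L] ℂ).toRingHom

/-- Restriction to the pencil of lines with direction `V`. -/
noncomputable def ln (V : σ → L) : MvPolynomial σ L →+* Polynomial (MvPolynomial σ L) :=
  eval₂Hom (Polynomial.C.comp C) fun i =>
    Polynomial.C (X i) + Polynomial.X * Polynomial.C (C (V i))

/-- Specialization of the parameter. -/
noncomputable def sp (s0 : ℂ) : Polynomial (MvPolynomial σ L) →+* MvPolynomial σ ℂ :=
  Polynomial.eval₂RingHom (map (algebraMap L ℂ)) (C s0)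

/-- Translation of the base point along a linear subspace. -/
noncomputable def tau {ρ : Type*} [Fintype ρ] (x : σ → ℂ) (E : ρ → σ → ℂ) :
    Polynomial (MvPolynomial σ L) →+* MvPolynomial ρ Ox :=
  Polynomial.eval₂RingHom (((map Polynomial.C).comp (aff x E).toRingHom).comp
    (map (algebraMap L ℂ))) (C Polynomial.X)

theorem poly_hom_ext {S : Type*} [CommRing S] {f g : Polynomial (MvPolynomial σ L) →+* S}
    (h1 : ∀ c, f (Polynomial.C (C c)) = g (Polynomial.C (C c)))
    (h2 : ∀ i, f (Polynomial.C (X i)) = g (Polynomial.C (X i)))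
    (h3 : f Polynomial.X = g Polynomial.X) : f = g :=
  Polynomial.ringHom_ext' (MvPolynomial.ringHom_ext h1 h2) h3

theorem eval_sp (x : σ → ℂ) (s0 : ℂ) (p : Polynomial (MvPolynomial σ L)) :
    eval x (sp s0 p) = (evx x p).eval s0 := by
  have : (eval x).comp (sp s0) = (Polynomial.evalRingHom s0).comp (evx (L := L) x) :=
    poly_hom_ext (fun c => by simp [sp, evx]) (fun i => by simp [sp, evx]) (by simp [sp, evx])
  exact congrArg (fun φ => φ p) this

theorem evx_ln (x : σ → ℂ) (V : σ → L) (q : MvPolynomial σ L) :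
    evx x (ln V q) = line x (fun i => algebraMap L ℂ (V i)) (map (algebraMap L ℂ) q) := by
  have : (evx x).comp (ln V) =
      (line x (fun i => algebraMap L ℂ (V i))).toRingHom.comp (map (algebraMap L ℂ)) :=
    MvPolynomial.ringHom_ext (fun c => by simp [ln, evx, line]) (fun i => by
      simp only [ln, evx, line, RingHom.coe_comp, Function.comp_apply, eval₂Hom_X',
        Polynomial.map_add, Polynomial.map_mul, Polynomial.coe_mapRingHom, Polynomial.map_C, Polynomial.map_X, map_X,
        AlgHom.toRingHom_eq_coe, RingHom.coe_coe, aeval_X, aeval_C])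
  exact congrArg (fun φ => φ q) this

theorem evx_injective {x : σ → ℂ} (hx : AlgebraicIndependent L x) :
    Function.Injective (evx (L := L) x) := Polynomial.map_injective _ hx

theorem natDegree_evx {x : σ → ℂ} (hx : AlgebraicIndependent L x)
    (p : Polynomial (MvPolynomial σ L)) : (evx x p).natDegree = p.natDegree :=
  Polynomial.natDegree_map_eq_of_injective hx p

variable {ρ : Type*} [Fintype ρ]

theorem coeff_zero_tau (x : σ → ℂ) (E : ρ → σ → ℂ) (p : Polynomial (MvPolynomial σ L)) :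
    coeff 0 (tau x E p) = evx x p := by
  have : constantCoeff.comp (tau x E) = evx (L := L) x :=
    poly_hom_ext (fun c => by simp [tau, evx, aff]) (fun i => by simp [tau, evx, aff])
      (by simp [tau, evx])
  exact congrArg (fun φ => φ p) this

theorem natDegree_coeff_tau (x : σ → ℂ) (E : ρ → σ → ℂ) (p : Polynomial (MvPolynomial σ L))
    (α : ρ →₀ ℕ) : (coeff α (tau x E p)).natDegree ≤ p.natDegree := by
  rw [tau, Polynomial.coe_eval₂RingHom, Polynomial.eval₂_eq_sum_range, coeff_sum]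
  refine Polynomial.natDegree_sum_le_of_forall_le _ _ fun i hi => ?_
  rw [← map_pow, mul_comm, coeff_C_mul]
  simp only [RingHom.coe_comp, Function.comp_apply, coeff_map]
  refine (Polynomial.natDegree_mul_C_le _ _).trans ?_
  rw [Polynomial.natDegree_X_pow]
  exact Nat.lt_succ_iff.1 (Finset.mem_range.1 hi)

theorem totalDegree_tau_ln (x : σ → ℂ) (E : ρ → σ → ℂ) (V : σ → L) (q : MvPolynomial σ L) :
    (tau x E (ln V q)).totalDegree ≤ q.totalDegree := by
  have : (tau x E).comp (ln V) = eval₂Hom (C.comp (Polynomial.C.comp (algebraMap L ℂ)))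
      (fun i => C (Polynomial.C (x i) + Polynomial.X * Polynomial.C (algebraMap L ℂ (V i))) +
        ∑ u, C (Polynomial.C (E u i)) * X u) :=
    MvPolynomial.ringHom_ext (fun c => by simp [tau, ln, aff]) (fun i => by
      simp only [tau, ln, aff, RingHom.coe_comp, Function.comp_apply, eval₂Hom_X', map_add,
        map_mul, Polynomial.coe_eval₂RingHom, Polynomial.eval₂_add, Polynomial.eval₂_mul,
        Polynomial.eval₂_C, Polynomial.eval₂_X, map_X,
        AlgHom.toRingHom_eq_coe, RingHom.coe_coe, aeval_X, aeval_C, map_C, map_sum, algebraMap_eq]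
      ring)
  have h2 : tau x E (ln V q) = _ := congrArg (fun φ => φ q) this
  rw [h2]
  exact totalDegree_eval₂_le _ (fun r => by simp) _ (fun i => totalDegree_affine_le _ _) q

theorem map_eval_tau (x : σ → ℂ) (E : ρ → σ → ℂ) (s0 : ℂ) (p : Polynomial (MvPolynomial σ L)) :
    map (Polynomial.evalRingHom s0) (tau x E p) = aff x E (sp s0 p) := by
  have : (map (Polynomial.evalRingHom s0)).comp (tau x E) =
      (aff x E).toRingHom.comp (sp (L := L) s0) :=
    poly_hom_ext (fun c => by simp [tau, sp, aff]) (fun i => by simp [tau, sp, aff])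
      (by simp [tau, sp, aff])
  exact congrArg (fun φ => φ p) this

end maps

theorem Df_sp {σ : Type*} {A : Set ℂ} {s0 : ℂ} (hs : s0 ∈ Const A)
    (p : Polynomial (MvPolynomial σ (Const A))) : Df A (sp s0 p) := by
  have : sp s0 = (map (algebraMap (Const A) ℂ)).comp
      (Polynomial.evalRingHom (C (⟨s0, hs⟩ : Const A) : MvPolynomial σ (Const A))) :=
    poly_hom_ext (fun c => by simp [sp]) (fun i => by simp [sp]) (by simp [sp]; rfl)
  rw [this]
  exact Df_map _

theorem exists_bezout {ι : Type*} [Fintype ι] (s : ι → Ox) (j0 : ι) (h : s j0 ≠ 0) :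
    ∃ (g : Ox) (S τ : ι → Ox), g ≠ 0 ∧ (∀ j, s j = g * S j) ∧ ∑ j, τ j * S j = 1 := by
  obtain ⟨g, hg⟩ := (IsPrincipalIdealRing.principal (Ideal.span (Set.range s))).principal
  have h1 : ∀ j, ∃ S, s j = g * S := fun j => by
    have : s j ∈ Ideal.span (Set.range s) := Ideal.subset_span ⟨j, rfl⟩
    rwa [hg, Ideal.submodule_span_eq, Ideal.mem_span_singleton] at this
  choose S hS using h1
  have h2 : g ∈ Ideal.span (Set.range s) := by
    rw [hg]; exact Submodule.mem_span_singleton_self g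
  obtain ⟨τ, hτ⟩ := Ideal.mem_span_range_iff_exists_fun.1 h2
  have hg0 : g ≠ 0 := left_ne_zero_of_mul (hS j0 ▸ h)
  refine ⟨g, S, τ, hg0, hS, mul_left_cancel₀ hg0 ?_⟩
  rw [mul_one, Finset.mul_sum]
  conv_rhs => rw [← hτ]
  exact Finset.sum_congr rfl fun j _ => by rw [hS j]; ring

theorem natDegree_comb_le {n : ℕ} (y : Fin n → ℂ) (p : Fin n → Ox) {β e : ℕ}
    (h : ∀ l, p l ≠ 0 → (p l).natDegree + β ≤ e) (h0 : ∑ l, Polynomial.C (y l) * p l ≠ 0) :
    (∑ l, Polynomial.C (y l) * p l).natDegree + β ≤ e := by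
  obtain ⟨l, -, hl⟩ := Finset.exists_ne_zero_of_sum_ne_zero h0
  have h1 := h l (right_ne_zero_of_mul hl)
  have h2 : (∑ l, Polynomial.C (y l) * p l).natDegree ≤ e - β := by
    refine Polynomial.natDegree_sum_le_of_forall_le _ _ fun l _ => ?_
    refine (Polynomial.natDegree_C_mul_le _ _).trans ?_
    by_cases h3 : p l = 0
    · simp [h3]
    · have := h l h3; omega
  omega

theorem circuit_cone (d Θ : ℕ) : ∃ r : ℕ, ∀ {σ ι : Type} [Fintype σ] [Fintype ι] {A : Set ℂ}
    (_ : A.Finite) {x : σ → ℂ} (_ : Gen A x) (V : σ → Const A)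
    (St : ι → Polynomial (MvPolynomial σ (Const A))) (_ : ∑ j, St j = 0)
    (Pm : Polynomial (MvPolynomial σ (Const A))) (_ : Pm ≠ 0) (β γ : ℕ) (_ : 0 < γ) (j0 : ι)
    (_ : ∀ B : ι → Ox, ∑ j, evx x (St j) * B j = 0 → B j0 = 0 → (∀ j, (B j).degree < β) → B = 0)
    (_ : ∑ j, (St j).natDegree ≤ β + Θ * γ) (_ : Pm.natDegree + γ ≤ β)
    (_ : ∀ θ : ℂ, ∃ (Q ρ : Polynomial (MvPolynomial σ (Const A)))
      (S : ι → Polynomial (MvPolynomial σ (Const A))) (m : ι → ℕ),
      Q ≠ 0 ∧ (evx x ρ).eval θ ≠ 0 ∧ (∀ j, (evx x (S j)).eval θ ≠ 0) ∧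
      (∀ j, ρ * St j = Q ^ m j * S j) ∧
      ((∃ q, Q = ln V q ∧ q.totalDegree ≤ d) ∨ evx x Q ∣ evx x Pm) ∧
      ((∀ a b, m a = m b) ∨ (evx x Q).eval θ = 0))
    {s0 : ℂ} (_ : s0 ∈ Const A) (_ : ∀ j, (evx x (St j)).eval s0 ≠ 0),
    ∃ Z : Set (σ → ℂ), IsCone (r * r) Z ∧ Big ((Fintype.card ι + 1) * r) Z ∧
      ∀ v ∈ Z, ∀ t : ℂ, ∃ a : ℂ, ∀ j,
        eval (x + t • v) (sp s0 (St j)) = a * (evx x (St j)).eval s0 := by
  classical
  obtain ⟨r, hr⟩ := height d Θ
  refine ⟨r, fun {σ ι} _ _ {A} hA {x} hx V St hsum Pm hPm β γ hγ j0 hβ h1 h2 hloc {s0} hs0 hs => ?_⟩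
  have hxi := hx.algInd
  set s : ι → Ox := fun j => evx x (St j) with hsdef
  have hsne : ∀ j, s j ≠ 0 := fun j h => hs j (by simp only [s] at h; simp [h])
  obtain ⟨g, S, τ, hg0, hS, hτ⟩ := exists_bezout s j0 (hsne j0)
  have hssum : ∑ j, s j = 0 := by simp only [s, ← map_sum, hsum, map_zero]
  have hSsum : ∑ j, S j = 0 := by
    refine mul_left_cancel₀ hg0 ?_
    rw [Finset.mul_sum, mul_zero, ← hssum]
    exact Finset.sum_congr rfl fun j _ => (hS j).symm
  obtain ⟨n, hn, ν, lam, lam1, P1, P2, P3⟩ := syz_package S τ hτ hSsum j0 β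
    (fun B hB => hβ B (by
      have : ∑ j, s j * B j = g * ∑ j, S j * B j := by
        rw [Finset.mul_sum]
        exact Finset.sum_congr rfl fun j _ => by rw [hS j, mul_assoc]
      rw [this, hB, mul_zero]))
  have P1' : ∀ θ l, ∑ j, (lam l j).eval θ = 0 := fun θ l => by
    rw [← Polynomial.eval_finset_sum, P1, Polynomial.eval_zero]
  have P3' : ∀ θ i j, (if i = j then 1 else 0 : ℂ) = ∑ l, (ν l i).eval θ * (lam l j).eval θ +
      (lam1 j).eval θ + (τ i).eval θ * (S j).eval θ := fun θ i j => by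
    have := congrArg (Polynomial.eval θ) (P3 i j)
    rw [apply_ite (Polynomial.eval θ)] at this
    simpa [Polynomial.eval_finset_sum] using this
  set Δ : Ox := ∏ j, s j with hΔ
  have hΔ0 : Δ ≠ 0 := Finset.prod_ne_zero_iff.2 fun j _ => hsne j
  let Rt : Finset ℂ := insert s0 Δ.roots.toFinset
  let A' : Set ℂ := (A ∪ Set.range x) ∪
    Set.range fun p : Rt × Fin n × ι => (lam p.2.1 p.2.2).eval p.1
  have hA' : A'.Finite := (hA.union (Set.finite_range _)).union (Set.finite_range _)
  have hAA : A ⊆ Const A' := fun a ha => mem_Const_of_mem (Or.inl (Or.inl ha))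
  have hxA : ∀ i, x i ∈ Const A' := fun i => mem_Const_of_mem (Or.inl (Or.inr ⟨i, rfl⟩))
  have hlamA : ∀ θ ∈ Rt, ∀ l j, (lam l j).eval θ ∈ Const A' := fun θ hθ l j =>
    mem_Const_of_mem (Or.inr ⟨(⟨θ, hθ⟩, l, j), rfl⟩)
  let F : (Fin n → ℂ) → MvPolynomial σ ℂ := fun y =>
    ∑ j, C ((∑ l, y l * (lam l j).eval s0) / eval x (sp s0 (St j))) * sp s0 (St j)
  have hflex : ∀ y, Gen A' y → Flex (F y) x ∧ eval x (F y) = 0 := fun y hy =>
    flex_lemma hAA (P1' s0) (P3' s0) hy (hlamA s0 (Finset.mem_insert_self _ _))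
      (fun j => Df_sp hs0 _) (by rw [← map_sum, hsum, map_zero]) hx hxA
      (fun j => by rw [eval_sp]; exact hs j) (g := g.eval s0) (fun j => by
        rw [eval_sp, ← Polynomial.eval_mul, ← hS])
  have hbig : ∀ y, Gen A' y → Big r (Sig (F y) x r) := by
    intro y hy
    refine sig_big (hflex y hy).1 (hflex y hy).2 r fun M => ?_
    let E : Fin r → σ → ℂ := fun u i => M i u
    let lamY : ι → Ox := fun j => ∑ l, Polynomial.C (y l) * lam l j
    have hlamY : ∑ j, lamY j = 0 := by
      simp only [lamY]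
      rw [Finset.sum_comm]
      simp only [← Finset.mul_sum, P1, mul_zero, Finset.sum_const_zero]
    let F0 : MvPolynomial (Fin r) Ox :=
      ∑ j, C (lamY j * ∏ l ∈ Finset.univ.erase j, s l) * tau x E (St j)
    have hkey := hr (fun k => homogeneousComponent (k + 1) F0)
      (fun k => homogeneousComponent_isHomogeneous _ _) Δ (evx x Pm) hΔ0
      ((map_ne_zero_iff _ (evx_injective hxi)).2 hPm) β γ hγ (fun k α hα => ?_) ?_
      (by rw [natDegree_evx hxi]; exact h2) (fun k hk => ?_) s0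
    · obtain ⟨i, hi, w, hw0, hwi, hw⟩ := hkey
      refine ⟨i, hi, w, hw0, hwi, fun k hk => ?_⟩
      have h3 := hw k hk
      have h4 : map (Polynomial.evalRingHom s0) F0 = C (Δ.eval s0) * aff x E (F y) := by
        simp only [F0, F, map_sum, map_mul, map_C, map_eval_tau, Finset.mul_sum, ← mul_assoc]
        refine Finset.sum_congr rfl fun j _ => ?_
        congr 1
        rw [aff, aeval_C, algebraMap_eq, ← map_mul C, ← map_mul C, hΔ,
          ← Finset.mul_prod_erase _ _ (Finset.mem_univ j), eval_sp]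
        congr 1
        have := hs j
        simp only [lamY, Polynomial.coe_evalRingHom, Polynomial.eval_finset_sum,
          Polynomial.eval_mul, Polynomial.eval_C, s]
        field_simp
      rw [← hc_map, h4, homogeneousComponent_C_mul, map_mul, eval_C, ← coeff_line_aff] at h3
      have h5 : Δ.eval s0 ≠ 0 := by
        rw [hΔ, Polynomial.eval_prod]
        exact Finset.prod_ne_zero_iff.2 fun j _ => hs j
      have h6 : (fun a => ∑ j, M a j * w j) = ∑ u, w u • E u := by
        ext a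
        simp [E, mul_comm]
      rw [h6]
      exact (mul_eq_zero.1 h3).resolve_left h5
    · rw [coeff_homogeneousComponent] at hα ⊢
      have hdeg : α.degree = k + 1 := by
        by_contra h
        exact hα (if_neg h)
      rw [if_pos hdeg] at hα ⊢
      let B : ι → Ox := fun j => (∏ l ∈ Finset.univ.erase j, s l) * coeff α (tau x E (St j))
      have h3 : coeff α F0 = ∑ l, Polynomial.C (y l) * ∑ j, lam l j * B j := by
        simp only [F0, coeff_sum, coeff_C_mul, lamY, Finset.sum_mul, Finset.mul_sum, B, mul_assoc]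
        exact Finset.sum_comm
      rw [h3] at hα ⊢
      refine natDegree_comb_le y _ (P2 B _ ?_ fun j => ?_) hα
      · refine mul_left_cancel₀ hg0 ?_
        have h4 : ∀ j, g * (S j * B j) = Δ * coeff α (tau x E (St j)) := fun j => by
          rw [← mul_assoc, ← hS, hΔ, ← Finset.mul_prod_erase _ _ (Finset.mem_univ j), mul_assoc]
        rw [Finset.mul_sum, Finset.sum_congr rfl fun j _ => h4 j, ← Finset.mul_sum, ← coeff_sum,
          ← map_sum, hsum, map_zero, coeff_zero, mul_zero, mul_zero]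
      · refine Polynomial.natDegree_mul_le.trans ?_
        rw [hΔ, ← Finset.mul_prod_erase _ _ (Finset.mem_univ j), Polynomial.natDegree_mul (hsne j)
          (Finset.prod_ne_zero_iff.2 fun l _ => hsne l), add_comm]
        have := natDegree_coeff_tau x E (St j) α
        rw [← natDegree_evx hxi] at this
        exact Nat.add_le_add_right this _
    · rw [hΔ, Polynomial.natDegree_prod _ _ fun j _ => hsne j]
      simpa only [s, natDegree_evx hxi] using h1
    · have key := local_cond (fun j => tau x E (St j)) (fun j => by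
          rw [coeff_zero_tau]; exact hsne j) lamY hlamY (fun k => homogeneousComponent (k + 1) F0)
        (fun k => by simp only [coeff_zero_tau]; rfl) (evx x Pm) k fun θ => ?_
      · simpa only [coeff_zero_tau] using key
      obtain ⟨Q, ρ, S', m, hQ, hρ, hS', hrel, hQd, hm⟩ := hloc θ
      have hQ' : evx x Q ≠ 0 := (map_ne_zero_iff _ (evx_injective hxi)).2 hQ
      refine ⟨tau x E Q, tau x E ρ, fun j => tau x E (S' j), m, by rwa [coeff_zero_tau],
        by rwa [coeff_zero_tau], fun j => by rw [coeff_zero_tau]; exact hS' j,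
        fun j => by rw [← map_mul, hrel, map_mul, map_pow], ?_, ?_⟩
      · rw [coeff_zero_tau]
        refine hQd.imp_left ?_
        rintro ⟨q, rfl, hq⟩
        exact homogeneousComponent_eq_zero _ _
          (((totalDegree_tau_ln x E V q).trans hq).trans_lt (by omega))
      · by_cases hm' : ∀ a b, m a = m b
        · exact Or.inl hm'
        have hQθ := hm.resolve_left hm'
        refine Or.inr fun h0 => hm' ?_
        obtain ⟨j1, -, hj1⟩ := Finset.exists_min_image Finset.univ m ⟨j0, Finset.mem_univ _⟩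
        have hrel' : ∀ j, evx x ρ * (g * S j) = evx x Q ^ m j * evx x (S' j) := fun j => by
          rw [← hS, ← map_mul, hrel, map_mul, map_pow]
        have hθ : θ ∈ Rt := by
          push Not at hm'
          obtain ⟨a, b, hab⟩ := hm'
          obtain ⟨j, hj⟩ : ∃ j, m j ≠ 0 := by
            by_contra h
            push Not at h
            exact hab (by rw [h, h])
          have h3 := congrArg (Polynomial.eval θ) (hrel' j)
          rw [← hS, Polynomial.eval_mul, Polynomial.eval_mul, Polynomial.eval_pow, hQθ,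
            zero_pow hj, zero_mul] at h3
          refine Finset.mem_insert_of_mem (Multiset.mem_toFinset.2
            ((Polynomial.mem_roots hΔ0).2 ?_))
          rw [Polynomial.IsRoot, hΔ, Polynomial.eval_prod]
          exact Finset.prod_eq_zero (Finset.mem_univ j) ((mul_eq_zero.1 h3).resolve_left hρ)
        refine unit_lemma (P1' θ) (P3' θ) hy (hlamA θ hθ) m j1 (fun j hj => ?_) ?_
        · obtain ⟨c, hc⟩ := Nat.exists_eq_add_of_lt (lt_of_le_of_ne (hj1 j (Finset.mem_univ _))
            (Ne.symm hj))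
          have h3 : S j * evx x (S' j1) = S j1 * evx x Q ^ (c + 1) * evx x (S' j) := by
            refine mul_left_cancel₀ (pow_ne_zero (m j1) hQ') ?_
            have h4 := hrel' j
            rw [hc, add_assoc, pow_add] at h4
            linear_combination S j1 * h4 - S j * hrel' j1
          have h5 := congrArg (Polynomial.eval θ) h3
          rw [Polynomial.eval_mul, Polynomial.eval_mul, Polynomial.eval_mul, Polynomial.eval_pow,
            hQθ, zero_pow (by omega), mul_zero, zero_mul] at h5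
          exact (mul_eq_zero.1 h5).resolve_right (hS' j1)
        · simpa [lamY, Polynomial.eval_finset_sum] using h0
  obtain ⟨y, hy⟩ := exists_gen hA' (Fin n)
  let Y : Option (Fin n) → Fin n → ℂ := fun a => y + a.elim 0 fun l => Pi.single l 1
  have hY : ∀ a, Gen A' (Y a) := fun a => hy.add_const fun i => by
    cases a with
    | none => exact zero_mem _
    | some l =>
      simp only [Option.elim, Pi.single_apply]
      split_ifs
      · exact one_mem _
      · exact zero_mem _
  obtain ⟨hc1, hc2⟩ := cone_biInter Finset.univ (fun a => Sig (F (Y a)) x r)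
    fun a _ => ⟨sig_cone _ _ _, hbig _ (hY a)⟩
  refine ⟨_, hc1, hc2.mono (Nat.mul_le_mul_right _ (by simpa using hn)), fun v hv t => ?_⟩
  let B : ι → ℂ := fun j => eval (x + t • v) (sp s0 (St j)) / (s j).eval s0
  have h3 : ∀ a, ∑ l, Y a l * ∑ j, (lam l j).eval s0 * B j = 0 := by
    intro a
    have h4 := sig_line (hflex _ (hY a)).1 (hflex _ (hY a)).2
      (Set.mem_iInter₂.1 hv a (Finset.mem_univ _)) t
    rw [← h4]
    simp only [F, map_sum, map_mul, eval_C, Finset.mul_sum, Finset.sum_div, Finset.sum_mul, B,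
      eval_sp x, s]
    rw [Finset.sum_comm]
    exact Finset.sum_congr rfl fun j _ => Finset.sum_congr rfl fun l _ => by ring
  have h5 := const_of_dual (P3' s0) B (fun l => by
    have h6 := h3 (some l)
    have h7 := h3 none
    simp only [Y, Option.elim, Pi.add_apply, add_mul, Finset.sum_add_distrib, Pi.zero_apply,
      add_zero] at h6 h7
    rw [h7, zero_add] at h6
    simpa [Pi.single_apply] using h6) (by
    have hg1 : g.eval s0 ≠ 0 := by
      have := hs j0
      change (s j0).eval s0 ≠ 0 at this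
      rw [hS, Polynomial.eval_mul] at this
      exact left_ne_zero_of_mul this
    have h6 : ∀ j, (S j).eval s0 * B j = eval (x + t • v) (sp s0 (St j)) / g.eval s0 := by
      intro j
      have := hs j
      change (s j).eval s0 ≠ 0 at this
      simp only [B]
      rw [hS, Polynomial.eval_mul] at this ⊢
      have := right_ne_zero_of_mul this
      field_simp
    rw [Finset.sum_congr rfl fun j _ => h6 j, ← Finset.sum_div, ← map_sum, ← map_sum, hsum]
    simp)
  refine ⟨∑ j, (lam1 j).eval s0 * B j, fun j => ?_⟩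
  rw [← h5 j]
  exact (div_mul_cancel₀ _ (hs j)).symm

end Pool.Agent.Lib.MP_bd85b6_lc.B
end

-- part Pool.Agent.Lib.MP_bd85b6_lc.Places
section

/-! Local factorizations at the points of a generic line, and base change of syzygies. -/

set_option autoImplicit false

namespace Pool.Agent.Lib.MP_bd85b6_lc.B

open Module

section frac
open Polynomial

variable {R : Type*} [CommRing R] [IsDomain R] {ι : Type*} [Fintype ι]

theorem clear_poly_family (p : ι → (FractionRing R)[X]) : ∃ b : R, b ≠ 0 ∧ ∃ w : ι → R[X],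
    ∀ j, (w j).map (algebraMap R (FractionRing R)) = C (algebraMap R (FractionRing R) b) * p j := by
  classical
  choose b hb hw using fun j => IsLocalization.integerNormalization_spec (nonZeroDivisors R) (p j)
  refine ⟨∏ j, b j, Finset.prod_ne_zero_iff.2 fun j _ => nonZeroDivisors.ne_zero (hb j),
    fun j => C (∏ l ∈ Finset.univ.erase j, b l) *
      IsLocalization.integerNormalization (nonZeroDivisors R) (p j), fun j => ?_⟩
  rw [Polynomial.map_mul, hw, map_C, Algebra.smul_def, Polynomial.algebraMap_apply, ← mul_assoc, ← C_mul,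
    ← map_mul, Finset.prod_erase_mul _ _ (Finset.mem_univ j)]

theorem bad_place (ev : R →+* ℂ) (hev : Function.Injective ev) (St : ι → R[X])
    (hSt : ∀ j, St j ≠ 0) (Pm : R[X]) (hPm : Pm ≠ 0) (θ : ℂ) (hθ : (Pm.map ev).eval θ = 0) :
    ∃ (Q ρ : R[X]) (S : ι → R[X]) (m : ι → ℕ), Q ≠ 0 ∧ (ρ.map ev).eval θ ≠ 0 ∧
      (∀ j, ((S j).map ev).eval θ ≠ 0) ∧ (∀ j, ρ * St j = Q ^ m j * S j) ∧
      Q.map ev ∣ Pm.map ev ∧ (Q.map ev).eval θ = 0 := by
  let F := FractionRing R
  let evF : F →+* ℂ := IsFractionRing.lift hev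
  let _ : Algebra F ℂ := evF.toAlgebra
  have hinj := IsFractionRing.injective R F
  have hmap : ∀ p : R[X], p.map ev = (p.map (algebraMap R F)).map evF := fun p => by
    rw [Polynomial.map_map]
    congr 1
    ext r
    simp [evF]
  have haev : ∀ p : F[X], aeval θ p = (p.map evF).eval θ := fun p => by
    rw [aeval_def, eval_map]; rfl
  have hne : ∀ p : R[X], p ≠ 0 → p.map (algebraMap R F) ≠ 0 := fun p hp =>
    (Polynomial.map_ne_zero_iff hinj).2 hp
  have hint : IsIntegral F θ := IsAlgebraic.isIntegral ⟨_, hne _ hPm, by rw [haev, ← hmap, hθ]⟩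
  obtain ⟨b, hb, Q, hQ⟩ := clear_poly_family (fun _ : Unit => minpoly F θ)
  have hb' : algebraMap R F b ≠ 0 := (map_ne_zero_iff _ hinj).2 hb
  set π := (Q ()).map (algebraMap R F) with hπ
  have hπ' : π = C (algebraMap R F b) * minpoly F θ := hQ ()
  have hdvd : ∀ p : F[X], π ∣ p ↔ aeval θ p = 0 := fun p => by
    rw [hπ', ← minpoly.dvd_iff, (isUnit_C.2 hb'.isUnit).mul_left_dvd]
  have hπ0 : π ≠ 0 := by
    rw [hπ']; exact mul_ne_zero (C_ne_zero.2 hb') (minpoly.ne_zero hint)
  have hπu : ¬ IsUnit π := fun h => by simpa using (hdvd 1).1 h.dvd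
  choose m a ha1 ha2 using fun j => WfDvdMonoid.max_power_factor' (hne _ (hSt j)) hπu
  obtain ⟨c, hc, S, hS⟩ := clear_poly_family a
  have hc' : algebraMap R F c ≠ 0 := (map_ne_zero_iff _ hinj).2 hc
  refine ⟨Q (), C c, S, m, fun h => hπ0 (by rw [hπ, h, Polynomial.map_zero]), ?_, fun j => ?_,
    fun j => ?_, ?_, ?_⟩
  · simpa using (map_ne_zero_iff _ hev).2 hc
  · rw [hmap, ← haev, hS, map_mul]
    exact mul_ne_zero (by
      rw [aeval_C]; exact (map_ne_zero_iff _ (algebraMap F ℂ).injective).2 hc') (fun h => ha1 j ((hdvd _).2 h))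
  · apply Polynomial.map_injective _ hinj
    rw [Polynomial.map_mul, Polynomial.map_mul, Polynomial.map_pow, hS, ha2 j, map_C]
    ring
  · rw [hmap, hmap]
    exact Polynomial.map_dvd _ ((hdvd _).2 (by rw [haev, ← hmap, hθ]))
  · rw [hmap, ← haev]
    exact (hdvd _).1 dvd_rfl

theorem base_change (ev : R →+* ℂ) (hev : Function.Injective ev) (T : ι → R[X]) (e : ℕ)
    (Z : Set ι) (h : ∀ w : ι → R[X], ∑ j, w j * T j = 0 → (∀ j, (w j).natDegree ≤ e) →
      (∀ j ∈ Z, w j = 0) → w = 0) (B : ι → ℂ[X]) (hB : ∑ j, B j * (T j).map ev = 0)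
    (hdeg : ∀ j, (B j).natDegree ≤ e) (hZ : ∀ j ∈ Z, B j = 0) : B = 0 := by
  let F := FractionRing R
  let evF : F →+* ℂ := IsFractionRing.lift hev
  let _ : Algebra F ℂ := evF.toAlgebra
  have hinj : Function.Injective (algebraMap R F) := IsFractionRing.injective R F
  have hev' : ∀ r, ev r = algebraMap F ℂ (algebraMap R F r) := fun r =>
    (IsFractionRing.lift_algebraMap hev r).symm
  ext j n
  refine (Module.forall_dual_apply_eq_zero_iff F _).1 fun φ => ?_
  let Φ : ℂ[X] → F[X] := fun p => p.sum fun k c => monomial k (φ c)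
  have hΦ : ∀ p k, (Φ p).coeff k = φ (p.coeff k) := fun p k => by
    simp only [Φ, finset_sum_coeff, coeff_monomial, Polynomial.sum, Finset.sum_ite_eq',
      Polynomial.mem_support_iff]
    split_ifs with h
    · rfl
    · rw [not_not.1 h, map_zero]
  obtain ⟨b, hb, w, hw⟩ : ∃ b : R, b ≠ 0 ∧ ∃ w : ι → R[X],
      ∀ j, (w j).map (algebraMap R F) = C (algebraMap R F b) * Φ (B j) :=
    clear_poly_family fun j => Φ (B j)
  have hb' : algebraMap R F b ≠ 0 := (map_ne_zero_iff _ hinj).2 hb
  have h1 := h w ?_ (fun j => ?_) (fun j hj => ?_)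
  · have h2 := hw j
    rw [h1, Pi.zero_apply, Polynomial.map_zero, eq_comm, mul_eq_zero, C_eq_zero] at h2
    rw [← hΦ, h2.resolve_left hb', coeff_zero]
  · apply Polynomial.map_injective _ hinj
    simp only [Polynomial.map_sum, Polynomial.map_mul, hw, mul_assoc, ← Finset.mul_sum,
      Polynomial.map_zero]
    refine mul_eq_zero_of_right _ ?_
    ext k
    have h3 := congrArg (fun p => φ (p.coeff k)) hB
    simp only [finset_sum_coeff, coeff_mul, map_sum, coeff_map, coeff_zero, map_zero, hΦ] at h3 ⊢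
    rw [← h3]
    refine Finset.sum_congr rfl fun j _ => Finset.sum_congr rfl fun x _ => ?_
    rw [hev', mul_comm ((B j).coeff _), ← Algebra.smul_def, map_smul, smul_eq_mul, mul_comm]
  · rw [← natDegree_map_eq_of_injective hinj, hw]
    refine (natDegree_C_mul_le _ _).trans (natDegree_le_iff_coeff_eq_zero.2 fun k hk => ?_)
    rw [hΦ, coeff_eq_zero_of_natDegree_lt ((hdeg j).trans_lt hk), map_zero]
  · apply Polynomial.map_injective _ hinj
    rw [hw, Polynomial.map_zero]
    refine mul_eq_zero_of_right _ ?_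
    ext k
    rw [hΦ, hZ j hj, coeff_zero, map_zero, coeff_zero]

end frac

open MvPolynomial

variable {σ : Type*} [Fintype σ] {A : Set ℂ}

theorem line_tan {x : σ → ℂ} (hx : Gen A x) {V : σ → ℂ} (hV : ∀ i, V i ∈ Const A) (θ : ℂ) :
    Fintype.card σ ≤ finrank ℂ (Tan A (x + θ • V)) + 1 := by
  have htop : Tan A (x + θ • V) ⊔ Submodule.span ℂ {V} = ⊤ := by
    rw [eq_top_iff]
    intro ω _
    obtain ⟨δ, hδ, h⟩ := hx ω
    have h1 : ω = (fun i => δ ((x + θ • V) i)) - δ θ • V := by
      ext i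
      simp [h, hV i δ hδ, mul_comm]
    rw [h1]
    exact sub_mem (Submodule.mem_sup_left (mem_Tan.2 ⟨δ, hδ, fun _ => rfl⟩))
      (Submodule.mem_sup_right (Submodule.smul_mem _ _ (Submodule.mem_span_singleton_self _)))
  have h4 := Submodule.finrank_add_le_finrank_add_finrank (Tan A (x + θ • V))
    (Submodule.span ℂ {V})
  rw [htop, finrank_top, finrank_fintype_fun_eq_card] at h4
  have h5 : finrank ℂ (Submodule.span ℂ {V}) ≤ 1 := by
    simpa using finrank_span_le_card (R := ℂ) ({V} : Set (σ → ℂ))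
  omega

theorem no_common_root {x : σ → ℂ} (hx : Gen A x) (V : σ → Const A) {κ : Type*}
    (f : κ → MvPolynomial σ (Const A)) (hcop : ∀ g, (∀ i, g ∣ f i) → IsUnit g) (θ : ℂ) :
    ¬ ∀ i, (evx x (ln V (f i))).eval θ = 0 := by
  intro h
  have h1 := codim_two_L f hcop (x + θ • fun i => (V i : ℂ)) fun i => by
    rw [aeval_eq_eval_map, ← eval_line, ← h i, evx_ln]
    rfl
  have h2 := line_tan hx (fun i => (V i).2) θ
  omega

theorem good_place {ι : Type*} {x : σ → ℂ} (hx : Gen A x) (V : σ → Const A) (d : ℕ)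
    (T : ι → MvPolynomial σ (Const A)) (hT0 : ∀ j, T j ≠ 0)
    (hT : ∀ j q, Irreducible q → q ∣ T j → q.totalDegree ≤ d)
    (μ : ι → Polynomial (MvPolynomial σ (Const A))) (θ : ℂ) (hμ : ∀ j, (evx x (μ j)).eval θ ≠ 0) :
    ∃ (q : MvPolynomial σ (Const A)) (S : ι → Polynomial (MvPolynomial σ (Const A))) (m : ι → ℕ),
      ln V q ≠ 0 ∧ q.totalDegree ≤ d ∧ (∀ j, (evx x (S j)).eval θ ≠ 0) ∧
      (∀ j, μ j * ln V (T j) = ln V q ^ m j * S j) ∧
      ((∀ a b, m a = m b) ∨ (evx x (ln V q)).eval θ = 0) := by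
  classical
  by_cases h : ∀ j, (evx x (ln V (T j))).eval θ ≠ 0
  · refine ⟨1, fun j => μ j * ln V (T j), 0, by simp, by simp, fun j => ?_, by simp,
      Or.inl fun _ _ => rfl⟩
    rw [map_mul, Polynomial.eval_mul]
    exact mul_ne_zero (hμ j) (h j)
  push Not at h
  obtain ⟨j1, hj1⟩ := h
  let E : MvPolynomial σ (Const A) →+* ℂ :=
    ((Polynomial.evalRingHom θ).comp (evx x)).comp (ln V)
  obtain ⟨q, hq, hqT, hq0⟩ : ∃ q, Irreducible q ∧ q ∣ T j1 ∧ E q = 0 := by
    obtain ⟨u, hu⟩ := UniqueFactorizationMonoid.factors_prod (hT0 j1)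
    have h1 : E (UniqueFactorizationMonoid.factors (T j1)).prod = 0 := by
      have h2 : E (T j1) = 0 := hj1
      rw [← hu, map_mul] at h2
      exact (mul_eq_zero.1 h2).resolve_right (u.isUnit.map E).ne_zero
    rw [map_multiset_prod, Multiset.prod_eq_zero_iff, Multiset.mem_map] at h1
    obtain ⟨π, h2, h3⟩ := h1
    exact ⟨π, UniqueFactorizationMonoid.irreducible_of_factor π h2,
      UniqueFactorizationMonoid.dvd_of_mem_factors h2, h3⟩
  choose m T' h1 h2 using fun j => WfDvdMonoid.max_power_factor (hT0 j) hq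
  refine ⟨q, fun j => μ j * ln V (T' j), m, fun h0 => ?_, hT j1 q hq hqT, fun j => ?_,
    fun j => by rw [h2 j, map_mul, map_pow]; ring, Or.inr hq0⟩
  · have h3 := evx_ln x V q
    rw [h0, map_zero] at h3
    have h4 := eval_line x (fun i => algebraMap (Const A) ℂ (V i)) 0
      (map (algebraMap (Const A) ℂ) q)
    rw [← h3, zero_smul, add_zero, ← aeval_eq_eval_map, Polynomial.eval_zero] at h4
    exact hq.ne_zero (algebraicIndependent_iff.1 hx.algInd q h4.symm)
  · rw [map_mul, Polynomial.eval_mul]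
    refine mul_ne_zero (hμ j) fun h0 => ?_
    refine no_common_root hx V ![q, T' j] (fun g hg => ?_) θ ?_
    · exact (hq.isRelPrime_iff_not_dvd.2 (h1 j)) (hg 0) (hg 1)
    · intro i
      fin_cases i
      · exact hq0
      · exact h0

end Pool.Agent.Lib.MP_bd85b6_lc.B
end

-- part Pool.Agent.Lib.MP_bd85b6_lc.Key
section

/-! A second linear relation holds along a big cone of lines through a generic point. -/

set_option autoImplicit false

namespace Pool.Agent.Lib.MP_bd85b6_lc.B

open MvPolynomial Module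

theorem line_nonconst {σ : Type*} [Finite σ] {A : Set ℂ} {x V : σ → ℂ}
    (h : Gen A (Sum.elim x V)) {f : MvPolynomial σ ℂ} (hf : Df A f) (h0 : f ≠ 0)
    (hu : ¬ IsUnit f) : 0 < (line x V f).natDegree := by
  by_contra hcon
  obtain ⟨g, rfl⟩ := hf.lift
  have h1 : eval (x + V) (map (algebraMap (Const A) ℂ) g) =
      eval x (map (algebraMap (Const A) ℂ) g) := by
    have h2 := eval_line x V 1 (map (algebraMap (Const A) ℂ) g)
    have h3 := eval_line x V 0 (map (algebraMap (Const A) ℂ) g)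
    rw [Polynomial.eq_C_of_natDegree_eq_zero (Nat.eq_zero_of_not_pos hcon),
      Polynomial.eval_C] at h2 h3
    simpa using h2.symm.trans h3
  let P : MvPolynomial (σ ⊕ σ) (Const A) :=
    aeval (fun i => X (Sum.inl i) + X (Sum.inr i)) g - rename Sum.inl g
  have hP : ∀ u w : σ → ℂ, aeval (Sum.elim u w) P = eval (u + w) (map (algebraMap (Const A) ℂ) g) -
      eval u (map (algebraMap (Const A) ℂ) g) := by
    intro u w
    rw [← aeval_eq_eval_map, ← aeval_eq_eval_map, map_sub, aeval_rename, ← AlgHom.comp_apply,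
      comp_aeval]
    congr 3
    ext i
    simp
  have hP0 : P = 0 := algebraicIndependent_iff.1 h.algInd P (by rw [hP, h1, sub_self])
  have h4 : map (algebraMap (Const A) ℂ) g = C (eval 0 (map (algebraMap (Const A) ℂ) g)) := by
    refine MvPolynomial.funext fun w => ?_
    have := hP 0 w
    rw [hP0, map_zero, zero_add, eq_comm, sub_eq_zero] at this
    rw [this, eval_C]
  refine hu ?_
  rw [h4] at h0 ⊢
  exact (IsUnit.mk0 _ (fun h => h0 (by rw [h, C_0]))).map C

theorem lift_factors {σ : Type*} {A : Set ℂ} {d : ℕ} {T : MvPolynomial σ ℂ}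
    (hT : ∀ q, Irreducible q → q ∣ T → q.totalDegree ≤ d)
    (hf : ∀ q ∈ UniqueFactorizationMonoid.factors T, Df A q) (u : (MvPolynomial σ ℂ)ˣ)
    (hu : (UniqueFactorizationMonoid.factors T).prod * u = T) (huA : Df A (u : MvPolynomial σ ℂ)) :
    ∃ T' : MvPolynomial σ (Const A), map (algebraMap (Const A) ℂ) T' = T ∧
      ∀ q, Irreducible q → q ∣ T' → q.totalDegree ≤ d := by
  classical
  let lf : MvPolynomial σ ℂ → MvPolynomial σ (Const A) := fun f =>
    if h : Df A f then h.lift.choose else 0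
  have hlf : ∀ f, Df A f → map (algebraMap (Const A) ℂ) (lf f) = f := fun f h => by
    simp only [lf, dif_pos h]
    exact h.lift.choose_spec
  refine ⟨((UniqueFactorizationMonoid.factors T).map lf).prod * lf u, ?_, fun q hq hqT => ?_⟩
  · rw [map_mul, hlf _ huA, map_multiset_prod, Multiset.map_map,
      Multiset.map_congr (f := (map (algebraMap (Const A) ℂ)) ∘ lf) (g := id) rfl
        (fun f h => hlf f (hf f h)), Multiset.map_id, hu]
  · have hp := hq.prime
    rcases hp.dvd_or_dvd hqT with h | h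
    · obtain ⟨_, h1, h2⟩ := hp.exists_mem_multiset_dvd h
      obtain ⟨f, hfT, rfl⟩ := Multiset.mem_map.1 h1
      have hirr := UniqueFactorizationMonoid.irreducible_of_factor f hfT
      have h3 : (lf f).totalDegree = f.totalDegree := by
        conv_rhs => rw [← hlf f (hf f hfT)]
        rw [totalDegree, totalDegree, support_map_of_injective _ (algebraMap (Const A) ℂ).injective]
      refine (totalDegree_le_of_dvd_of_isDomain h2 fun h0 => hirr.ne_zero ?_).trans
        (h3 ▸ hT f hirr (UniqueFactorizationMonoid.dvd_of_mem_factors hfT))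
      rw [← hlf f (hf f hfT), h0, map_zero]
    · exact absurd (isUnit_of_dvd_unit h (isUnit_of_isUnit_map (by
        rw [hlf _ huA]; exact u.isUnit))) hq.not_isUnit

theorem exists_nat_eval_ne_zero {W : Ox} (hW : W ≠ 0) : ∃ n : ℕ, W.eval (n : ℂ) ≠ 0 := by
  classical
  obtain ⟨n, hn⟩ := Infinite.exists_notMem_finset
    (W.roots.toFinset.preimage (Nat.cast : ℕ → ℂ) Nat.cast_injective.injOn)
  refine ⟨n, fun h => hn ?_⟩
  rw [Finset.mem_preimage, Multiset.mem_toFinset, Polynomial.mem_roots hW]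
  exact h

theorem poly_map_sub {R : Type*} [CommRing R] (f : Polynomial R →+* ℂ) (a b : Polynomial R) :
    f (a - b) = f a - f b := map_sub f a b

theorem key_prop (k d : ℕ) : ∃ δ B : ℕ, ∀ {σ ι : Type} [Fintype σ] [Fintype ι]
    (_ : Fintype.card ι ≤ k) (T : ι → MvPolynomial σ ℂ) (_ : ∀ j, T j ≠ 0)
    (_ : ∀ j q, Irreducible q → q ∣ T j → q.totalDegree ≤ d)
    (_ : ∀ g, (∀ j, g ∣ T j) → IsUnit g) (_ : ∑ j, T j = 0) (_ : ∃ j, ¬ IsUnit (T j))
    (A0 : Set ℂ) (_ : A0.Finite),
    ∃ x : σ → ℂ, Gen A0 x ∧ ∃ c : ι → ℂ, (∃ i j, c i ≠ c j) ∧ ∃ Z : Set (σ → ℂ),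
      IsCone δ Z ∧ Big B Z ∧ ∀ v ∈ Z, ∀ t : ℂ, ∑ j, c j * eval (x + t • v) (T j) = 0 := by
  classical
  set AA := 2 * (k + 1) * 2 ^ k + 1 with hAA
  obtain ⟨r, hr⟩ := circuit_cone d (4 * k * AA ^ (k + 1))
  refine ⟨r * r, 2 ^ k * ((k + 1) * r),
    fun {σ ι} _ _ hk T hT0 hT hcop hsum ⟨jn, hjn⟩ A0 hA0 => ?_⟩
  choose u hu using fun j => UniqueFactorizationMonoid.factors_prod (hT0 j)
  obtain ⟨A1, hA1, hDf⟩ := exists_Df ((⋃ j, ((UniqueFactorizationMonoid.factors (T j)).toFinset :
    Set (MvPolynomial σ ℂ))) ∪ Set.range (fun j => (u j : MvPolynomial σ ℂ)) ∪ Set.range T)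
    (((Set.finite_iUnion fun j => Finset.finite_toSet _).union (Set.finite_range _)).union
      (Set.finite_range _))
  obtain ⟨V0, hV0⟩ := exists_gen hA1 σ
  let A : Set ℂ := A0 ∪ A1 ∪ Set.range V0
  have hA : A.Finite := (hA0.union hA1).union (Set.finite_range _)
  have hA1A : A1 ⊆ A := fun a ha => Or.inl (Or.inr ha)
  obtain ⟨x, hx⟩ := exists_gen hA σ
  have hxi := hx.algInd
  let V : σ → Const A := fun i => ⟨V0 i, mem_Const_of_mem (Or.inr ⟨i, rfl⟩)⟩
  choose T' hT' hT'd using fun j => lift_factors (A := A) (hT j) (fun q hq =>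
    (hDf q (Or.inl (Or.inl (Set.mem_iUnion.2 ⟨j, by simpa using hq⟩)))).mono' hA1A) (u j) (hu j)
    ((hDf _ (Or.inl (Or.inr ⟨j, rfl⟩))).mono' hA1A)
  have hT'0 : ∀ j, T' j ≠ 0 := fun j h => hT0 j (by rw [← hT', h, map_zero])
  have hcop' : ∀ g, (∀ j, g ∣ T' j) → IsUnit g := fun g hg =>
    isUnit_of_isUnit_map (hcop _ fun j => by rw [← hT']; exact map_dvd _ (hg j))
  let Tl : ι → Polynomial (MvPolynomial σ (Const A)) := fun j => ln V (T' j)
  have hTl : ∀ y j, evx y (Tl j) = line y V0 (T j) := fun y j => by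
    rw [evx_ln, hT']; rfl
  have hTl0 : ∀ j, Tl j ≠ 0 := fun j h => by
    have h1 := eval_line x V0 0 (T j)
    rw [← hTl, h, map_zero, zero_smul, add_zero, Polynomial.eval_zero] at h1
    exact hT0 j (hx.eq_zero ((hDf _ (Or.inr ⟨j, rfl⟩)).mono' hA1A) h1.symm)
  have hTlsum : ∑ j, Tl j = 0 := by
    have : ∑ j, T' j = 0 := map_injective _ (algebraMap (Const A) ℂ).injective (by
      simp only [map_sum, hT', hsum, map_zero])
    simp only [Tl, ← map_sum, this, map_zero]
  obtain ⟨i0, -, hi0⟩ := Finset.exists_max_image Finset.univ (fun j => (Tl j).natDegree)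
    ⟨jn, Finset.mem_univ _⟩
  set D := (Tl i0).natDegree with hD
  have hD0 : 0 < D := by
    refine lt_of_lt_of_le ?_ (hi0 jn (Finset.mem_univ _))
    rw [← natDegree_evx hxi, hTl]
    refine line_nonconst (A := A1) ?_ (hDf _ (Or.inr ⟨jn, rfl⟩)) (hT0 jn) hjn
    have := (hV0.sum hx (hA1A.trans (subset_Const _)) (fun i => (V i).2)).comp Sum.swap
      Sum.swap_leftInverse.injective
    convert this using 1
    ext (i | i) <;> rfl
  have hevne : ∀ p : Polynomial (MvPolynomial σ (Const A)), p ≠ 0 → evx x p ≠ 0 := fun p hp =>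
    (map_ne_zero_iff _ (evx_injective hxi)).2 hp
  have h2k : 2 ^ Fintype.card ι ≤ 2 ^ k := Nat.pow_le_pow_right (by norm_num) hk
  obtain ⟨e, e', he1, he2, he3, 𝒞, μ, hμ, ⟨h, hh0, α, hα⟩, z, hz, iz, jz, hzT⟩ :=
    null_data Tl hTl0 hTlsum AA D i0 (fun B hB hdvd => by
      obtain ⟨g, S, τ, hg0, hS, hτ⟩ := exists_bezout (fun j => evx x (Tl j)) i0
        (hevne _ (hTl0 i0))
      have hgu : IsUnit g := by
        by_contra hg
        obtain ⟨θ, hθ⟩ := IsAlgClosed.exists_root g (fun h' => hg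
          (Polynomial.isUnit_iff_degree_eq_zero.2 h'))
        refine no_common_root hx V T' hcop' θ fun j => ?_
        have := hS j
        simp only [Tl] at this
        rw [this, Polynomial.eval_mul, hθ, zero_mul]
      have h1 : evx x (Tl i0) ∣ evx x B * g := by
        have h2 : evx x B * g = ∑ j, τ j * evx x (B * Tl j) := by
          rw [← mul_one (evx x B * g), ← hτ, Finset.mul_sum]
          exact Finset.sum_congr rfl fun j _ => by rw [map_mul, hS j]; ring
        rw [h2]
        exact Finset.dvd_sum fun j _ => (map_dvd _ (hdvd j)).mul_left _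
      have h3 := Polynomial.natDegree_le_of_dvd (hgu.dvd_mul_right.1 h1) (hevne _ hB)
      rwa [natDegree_evx hxi, natDegree_evx hxi] at h3)
      (by
        have h1 := Nat.mul_le_mul hk h2k
        have h2 : k * 2 ^ k ≤ 2 * (k + 1) * 2 ^ k := Nat.mul_le_mul_right _ (by omega)
        omega) hD0
  set b := 2 ^ Fintype.card ι * e with hb
  have hb1 : 2 * (k + 1) * b ≤ e' := by
    refine le_trans ?_ he1
    rw [hb, hAA, ← mul_assoc]
    exact Nat.mul_le_mul_right _ ((Nat.mul_le_mul_left _ h2k).trans (by omega))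
  have hb2 : 2 * (k + 1) * b = 2 * (k * b) + 2 * b := by ring
  obtain ⟨s0n, hs0⟩ := exists_nat_eval_ne_zero (W := evx x ((∏ C ∈ 𝒞, ∏ j ∈ C, μ C j) *
    (∏ j, Tl j) * h * (z iz * Tl jz - z jz * Tl iz))) (hevne _ (mul_ne_zero (mul_ne_zero
      (mul_ne_zero (Finset.prod_ne_zero_iff.2 fun C hC => Finset.prod_ne_zero_iff.2 fun j hj =>
        ((hμ C hC).1 j).2 hj) (Finset.prod_ne_zero_iff.2 fun j _ => hTl0 j)) hh0)
          (sub_ne_zero.2 hzT)))
  set s0 : ℂ := (s0n : ℂ) with hs0def
  have hs0A : s0 ∈ Const A := natCast_mem _ _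
  let ev : Polynomial (MvPolynomial σ (Const A)) →+* ℂ := (Polynomial.evalRingHom s0).comp (evx x)
  have hev : ∀ p, ev p = (evx x p).eval s0 := fun _ => rfl
  rw [← hev, map_mul, map_mul, map_mul, map_prod, map_prod] at hs0
  have hs1 : ∀ C ∈ 𝒞, ∀ j ∈ C, ev (μ C j) ≠ 0 := fun C hC j hj => by
    have := Finset.prod_ne_zero_iff.1 (left_ne_zero_of_mul (left_ne_zero_of_mul
      (left_ne_zero_of_mul hs0))) C hC
    rw [map_prod] at this
    exact Finset.prod_ne_zero_iff.1 this j hj
  have hs2 : ∀ j, ev (Tl j) ≠ 0 := fun j => Finset.prod_ne_zero_iff.1 (right_ne_zero_of_mul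
    (left_ne_zero_of_mul (left_ne_zero_of_mul hs0))) j (Finset.mem_univ _)
  have hs3 : ev h ≠ 0 := right_ne_zero_of_mul (left_ne_zero_of_mul hs0)
  have hs4 := right_ne_zero_of_mul hs0
  have hZ : ∀ C : Finset ι, ∃ Z : Set (σ → ℂ), C ∈ 𝒞 → (IsCone (r * r) Z ∧ Big ((k + 1) * r) Z) ∧
      ∀ v ∈ Z, ∀ t : ℂ, ∃ a : ℂ, ∀ j ∈ C,
        eval (x + t • v) (sp s0 (μ C j * Tl j)) = a * ev (μ C j * Tl j) := by
    intro C
    by_cases hC : C ∈ 𝒞
    swap
    · exact ⟨∅, fun h => absurd h hC⟩
    obtain ⟨hμ1, ⟨j0, hj0⟩, hμ3, hμ4, hμ5⟩ := hμ C hC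
    have hμ0 : ∀ j ∉ C, μ C j = 0 := fun j hj => by
      by_contra h
      exact hj ((hμ1 j).1 h)
    have hCk : C.card ≤ k := (Finset.card_le_univ C).trans hk
    have hPm : ∏ j : C, μ C j ≠ 0 := Finset.prod_ne_zero_iff.2 fun j _ => (hμ1 j).2 j.2
    have key := hr (ι := C) hA hx V (fun j => μ C j * Tl j) ?_ (∏ j : C, μ C j) hPm
      (e' + 1 - b) (e' + 1 - b - k * b) (by omega) ⟨j0, hj0⟩ (fun B hB hB0 hBd => ?_) ?_ ?_
      (fun θ => ?_) hs0A (fun j => ?_)
    · obtain ⟨Z, hZ1, hZ2, hZ3⟩ := key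
      refine ⟨Z, fun _ => ⟨⟨hZ1, hZ2.mono (Nat.mul_le_mul_right _ (by simpa using hCk))⟩,
        fun v hv t => ?_⟩⟩
      obtain ⟨a, ha⟩ := hZ3 v hv t
      exact ⟨a, fun j hj => ha ⟨j, hj⟩⟩
    · rw [Finset.sum_coe_sort C (fun j => μ C j * Tl j), ← hμ3]
      exact Finset.sum_subset (Finset.subset_univ _) fun j _ hj => by rw [hμ0 j hj, zero_mul]
    · let B' : ι → Ox := fun j => if hj : j ∈ C then B ⟨j, hj⟩ * evx x (μ C j) else 0
      have h1 := base_change (aeval x : MvPolynomial σ (Const A) →ₐ[Const A] ℂ).toRingHom hxi Tl e'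
        {j | j ∉ C ∨ j = j0} (fun w h1 h2 h3 => hμ5 w h1 h2 (fun j hj => h3 j (Or.inl hj))
          ⟨j0, hj0, h3 j0 (Or.inr rfl)⟩) B' ?_ (fun j => ?_) ?_
      · ext1 j
        have h2 := congrFun h1 j
        simp only [B', dif_pos j.2, Pi.zero_apply] at h2
        exact (mul_eq_zero.1 h2).resolve_right (hevne _ ((hμ1 j).2 j.2))
      · rw [← hB, ← Finset.sum_subset (Finset.subset_univ C) (fun j _ hj => by simp [B', hj]),
          ← Finset.sum_coe_sort C]
        refine Finset.sum_congr rfl fun j _ => ?_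
        simp only [B', dif_pos j.2, map_mul]
        change _ * evx x (Tl j) = _
        ring
      · simp only [B']
        split_ifs with hj
        · by_cases h0 : B ⟨j, hj⟩ = 0
          · simp [h0]
          · have h2 := (Polynomial.natDegree_lt_iff_degree_lt h0).2 (hBd ⟨j, hj⟩)
            have h3 := hμ4 j
            rw [← natDegree_evx hxi] at h3
            refine Polynomial.natDegree_mul_le.trans ?_
            omega
        · simp
      · rintro j (hj | rfl)
        · simp [B', hj]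
        · simp [B', hj0, hB0]
    · have h1 : ∑ j : C, (μ C j * Tl j).natDegree ≤ k * (b + D) := by
        refine (Finset.sum_le_card_nsmul _ _ (b + D) fun (j : C) _ => Polynomial.natDegree_mul_le.trans
          (add_le_add (hμ4 j) (hi0 j (Finset.mem_univ _)))).trans ?_
        simpa using Nat.mul_le_mul_right _ hCk
      have h2 : AA ^ (Fintype.card ι + 1) ≤ AA ^ (k + 1) :=
        Nat.pow_le_pow_right (by omega) (by omega)
      have h3 : D ≤ AA ^ (k + 1) * (2 * (e' + 1 - b - k * b)) := by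
        refine he2.le.trans (Nat.mul_le_mul h2 ?_)
        have : 2 * (k + 1) * b = 2 * (k * b) + 2 * b := by ring
        omega
      have h4 : b ≤ D := by omega
      calc _ ≤ k * (2 * D) := h1.trans (Nat.mul_le_mul_left _ (by omega))
        _ ≤ k * (2 * (AA ^ (k + 1) * (2 * (e' + 1 - b - k * b)))) :=
          Nat.mul_le_mul_left _ (Nat.mul_le_mul_left _ h3)
        _ = 4 * k * AA ^ (k + 1) * (e' + 1 - b - k * b) := by ring
        _ ≤ _ := Nat.le_add_left _ _
    · have h1 : (∏ j : C, μ C j).natDegree ≤ k * b := by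
        refine (Polynomial.natDegree_prod_le _ _).trans
          ((Finset.sum_le_card_nsmul _ _ b fun (j : C) _ => hμ4 j).trans ?_)
        simpa using Nat.mul_le_mul_right _ hCk
      have : 2 * (k + 1) * b = 2 * (k * b) + 2 * b := by ring
      omega
    · by_cases hθ : (evx x (∏ j : C, μ C j)).eval θ = 0
      · obtain ⟨Q, ρ, S, m, a1, a2, a3, a4, a5, a6⟩ := bad_place
          (aeval x : MvPolynomial σ (Const A) →ₐ[Const A] ℂ).toRingHom hxi
          (fun j : C => μ C j * Tl j) (fun j => mul_ne_zero ((hμ1 j).2 j.2) (hTl0 j)) _ hPm θ hθ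
        exact ⟨Q, ρ, S, m, a1, a2, a3, a4, Or.inr a5, Or.inr a6⟩
      · rw [map_prod, Polynomial.eval_prod] at hθ
        obtain ⟨q, S, m, a1, a2, a3, a4, a5⟩ := good_place hx V d (fun j : C => T' j)
          (fun j => hT'0 j) (fun j => hT'd j) (fun j : C => μ C j) θ
          (fun j => Finset.prod_ne_zero_iff.1 hθ j (Finset.mem_univ _))
        exact ⟨ln V q, 1, S, m, a1, by simp, a3, fun j => by rw [one_mul]; exact a4 j,
          Or.inl ⟨q, rfl, a2⟩, a5⟩
    · rw [← hev, map_mul]
      exact mul_ne_zero (hs1 C hC j j.2) (hs2 j)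
  choose Z hZ using hZ
  obtain ⟨hc1, hc2⟩ := cone_biInter 𝒞 Z fun C hC => (hZ C hC).1
  refine ⟨x + s0 • V0, (hx.add_const fun i => mul_mem hs0A (V i).2).mono'
    fun a ha => Or.inl (Or.inl ha), fun j => ev (z j) / ev (Tl j), ⟨iz, jz, fun h => hs4 ?_⟩,
    _, hc1, hc2.mono (Nat.mul_le_mul_right _ ?_), fun v hv t => ?_⟩
  · rw [div_eq_div_iff (hs2 iz) (hs2 jz)] at h
    refine (poly_map_sub ev _ _).trans ?_
    rw [map_mul, map_mul, h, sub_self]
  · refine (Finset.card_le_univ 𝒞).trans ?_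
    rw [Fintype.card_finset]
    exact h2k
  · have h1 : ∀ t : ℂ, eval (x + t • v) (∑ j, C (ev (z j) / ev (Tl j)) * sp s0 (Tl j)) =
        ∑ j, ev (z j) / ev (Tl j) * eval (x + s0 • V0 + t • v) (T j) := fun t => by
      simp only [map_sum, map_mul, eval_C, eval_sp, hTl, eval_line, add_right_comm]
    rw [← h1]
    refine eval_zero_of_mul (h := sp s0 h) (by rw [eval_sp]; exact hs3) (fun t => ?_) t
    have h2 : ∀ C ∈ 𝒞, ∑ j, ev (z j) / ev (Tl j) *
        eval (x + t • v) (sp s0 (μ C j * Tl j)) = 0 := by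
      intro C hC
      obtain ⟨a, ha⟩ := (hZ C hC).2 v (Set.mem_iInter₂.1 hv C hC) t
      have h3 := congrArg ev (hz C hC)
      rw [map_sum, map_zero] at h3
      rw [← mul_zero a, ← h3, Finset.mul_sum]
      refine Finset.sum_congr rfl fun j _ => ?_
      by_cases hj : j ∈ C
      · rw [ha j hj, map_mul, map_mul]
        have := hs2 j
        field_simp
      · have : μ C j = 0 := by
          by_contra h
          exact hj (((hμ C hC).1 j).1 h)
        simp [this]
    have h4 : ∀ j, eval (x + t • v) (sp s0 h) * (ev (z j) / ev (Tl j) *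
        eval (x + t • v) (sp s0 (Tl j))) = ∑ C ∈ 𝒞, eval (x + t • v) (sp s0 (α C)) *
          (ev (z j) / ev (Tl j) * eval (x + t • v) (sp s0 (μ C j * Tl j))) := fun j => by
      rw [hα j]
      simp only [map_sum, map_mul, Finset.sum_mul]
      exact Finset.sum_congr rfl fun C _ => by ring
    simp only [map_sum, map_mul _ (C _), eval_C, Finset.mul_sum, h4]
    rw [Finset.sum_comm]
    refine Finset.sum_eq_zero fun C hC => ?_
    rw [← Finset.mul_sum, h2 C hC, mul_zero]

end Pool.Agent.Lib.MP_bd85b6_lc.B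
end
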