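import Pool.Agent.Lib.MP_bd85b6_lc.BFocal
import Pool.Agent.Lib.MP_bd85b6_lc.BKey

-- part Pool.Agent.Lib.MP_bd85b6_lc.Restrict
section

/-! Common factors created by restricting to an affine subspace. -/

set_option autoImplicit false

namespace Pool.Agent.Lib.MP_bd85b6_lc.B

open MvPolynomial Module

section
variable {σ ρ : Type*}

theorem Df_aff [Fintype ρ] {A : Set ℂ} {b : σ → ℂ} {E : ρ → σ → ℂ} (hb : ∀ i, b i ∈ Const A)
    (hE : ∀ u i, E u i ∈ Const A) {f : MvPolynomial σ ℂ} (hf : Df A f) : Df A (aff b E f) := by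
  obtain ⟨g, rfl⟩ := hf.lift
  have : (aff b E).toRingHom.comp (map (algebraMap (Const A) ℂ)) =
      (map (algebraMap (Const A) ℂ)).comp (aeval (R := Const A) fun i =>
        (C ⟨b i, hb i⟩ + ∑ u, C ⟨E u i, hE u i⟩ * X u : MvPolynomial ρ (Const A))).toRingHom :=
    MvPolynomial.ringHom_ext (fun c => by simp [aff]) (fun i => by
      simp only [aff, AlgHom.toRingHom_eq_coe, RingHom.coe_comp, RingHom.coe_coe,
        Function.comp_apply, map_X, aeval_X, map_add, map_sum, map_mul, map_C]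
      rfl)
  have h2 : aff b E (map (algebraMap (Const A) ℂ) g) = _ := congrArg (fun φ => φ g) this
  rw [h2]
  exact Df_map _

theorem tan_comb [Fintype σ] [Fintype ρ] {A A2 : Set ℂ} (hA : A ⊆ Const A2) (W : ρ → σ → ℂ)
    (hW : ∀ u i, W u i ∈ Const A2) {u0 : ρ → ℂ} (hu : Gen A2 u0) (o : ρ) :
    finrank ℂ (Tan A (W o)) ≤ finrank ℂ (Tan A (∑ u, u0 u • W u)) := by
  classical
  obtain ⟨I, hI, hgen⟩ := exists_gen_coords A (W o)
  refine hI.trans ?_
  have key := Gen.card_le (A := A) (a := ∑ u, u0 u • W u) (Subtype.val : I → σ) ?_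
  · simpa using key
  refine gen_of_algInd (algebraicIndependent_iff.2 fun P hP => ?_)
  have h1 : aff 0 (fun u (i : I) => W u i) (map (algebraMap (Const A) ℂ) P) = 0 := by
    refine hu.eq_zero (Df_aff (fun _ => zero_mem _) (fun u (i : I) => hW u i)
      ((Df_map P).mono hA)) ?_
    rw [eval_aff, ← aeval_eq_eval_map, ← hP]
    congr 2
    ext i
    simp
  refine algebraicIndependent_iff.1 hgen.algInd P ?_
  have h2 := congrArg (eval (Pi.single o 1)) h1
  rw [eval_aff, ← aeval_eq_eval_map, map_zero] at h2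
  rw [← h2]
  congr 2
  ext i
  simp [Pi.single_apply]

theorem exists_root_line [Finite ρ] {A : Set ℂ} {u0 : ρ → ℂ} (hu : Gen A u0)
    {γ : MvPolynomial ρ ℂ} (hγ : Df A γ) (hirr : Irreducible γ) : ∃ t : ℂ, eval (t • u0) γ = 0 := by
  classical
  by_cases h : (line 0 u0 γ).degree = 0
  · exfalso
    have h2 := eval_line 0 u0 1 γ
    have h3 := eval_line 0 u0 0 γ
    rw [Polynomial.eq_C_of_degree_eq_zero h, Polynomial.eval_C] at h2 h3
    have h4 : eval u0 γ = eval 0 γ := by simpa using h2.symm.trans h3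
    have h5 : γ - C (eval 0 γ) = 0 := by
      refine hu.eq_zero (fun m => ?_) (by rw [map_sub, eval_C, h4, sub_self])
      rw [coeff_sub, coeff_C]
      refine sub_mem (hγ m) ?_
      split_ifs
      · exact hγ.eval_mem fun _ => zero_mem _
      · exact zero_mem _
    rw [sub_eq_zero] at h5
    refine hirr.not_isUnit ?_
    rw [h5]
    exact (IsUnit.mk0 _ (fun h => hirr.ne_zero (by rw [h5, h, C_0]))).map C
  · obtain ⟨t, ht⟩ := IsAlgClosed.exists_root _ h
    refine ⟨t, ?_⟩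
    have := eval_line 0 u0 t γ
    rw [ht.eq_zero, zero_add] at this
    exact this.symm

theorem smul_tan [Fintype ρ] {A : Set ℂ} {u0 : ρ → ℂ} (hu : Gen A u0) {t : ℂ} (ht : t ≠ 0) :
    Fintype.card ρ ≤ finrank ℂ (Tan A (t • u0)) + 1 := by
  have htop : Tan A (t • u0) ⊔ Submodule.span ℂ {u0} = ⊤ := by
    rw [eq_top_iff]
    intro ω _
    obtain ⟨δ, hδ, h⟩ := hu (t⁻¹ • ω)
    have h1 : ω = (fun i => δ ((t • u0) i)) - δ t • u0 := by
      ext i
      simp only [Pi.smul_apply, smul_eq_mul, Derivation.leibniz, h, Pi.sub_apply]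
      field_simp
      ring
    rw [h1]
    exact sub_mem (Submodule.mem_sup_left (mem_Tan.2 ⟨δ, hδ, fun _ => rfl⟩))
      (Submodule.mem_sup_right (Submodule.smul_mem _ _ (Submodule.mem_span_singleton_self _)))
  have h4 := finrank_sup_span_le (Tan A (t • u0)) u0
  rwa [htop, finrank_top, finrank_fintype_fun_eq_card] at h4

theorem coprime_of_grad {n : ℕ} {γ : Fin n → MvPolynomial ρ ℂ} (hirr : ∀ b, Irreducible (γ b))
    {y : ρ → ℂ} (hli : LinearIndependent ℂ fun b => grad (γ b) y) {a b : Fin n} (hab : a ≠ b)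
    (g : MvPolynomial ρ ℂ) (ha : g ∣ γ a) (hb : g ∣ γ b) : IsUnit g := by
  by_contra hg
  have h1 : γ a ∣ γ b := ((hirr a).dvd_iff.1 ha).elim (fun h => absurd h hg)
    (fun h => h.dvd.trans hb)
  obtain ⟨u, hu⟩ := (hirr a).associated_of_dvd (hirr b) h1
  obtain ⟨r, -, hr⟩ := isUnit_iff_eq_C_of_isReduced.1 u.isUnit
  refine linearIndependent_iff_notMem_span.1 hli b ?_
  rw [← hu, hr, grad_mul, grad_C, smul_zero, zero_add]
  exact Submodule.smul_mem _ _ (Submodule.subset_span ⟨a, by simpa using hab, rfl⟩)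

theorem common_factor_bound [Fintype σ] [Fintype ρ] {κ : Type*} {A : Set ℂ} (hA : A.Finite)
    (T : κ → MvPolynomial σ ℂ) (hT : ∀ j, Df A (T j)) (hcop : ∀ g, (∀ j, g ∣ T j) → IsUnit g)
    {x : σ → ℂ} (hx : Gen A x) (j0 : κ) (hTx : eval x (T j0) ≠ 0) (W : ρ → σ → ℂ) (o : ρ)
    {B : ℕ} (hB : Fintype.card σ ≤ finrank ℂ (Tan (A ∪ Set.range x) (W o)) + B)
    (G : MvPolynomial ρ ℂ) (hG : ∀ j, G ∣ aff x W (T j)) :
    finrank ℂ (GS {q | Irreducible q ∧ q ∣ G} 0) ≤ B := by
  classical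
  by_contra hcon
  obtain ⟨γ, hγ, hli⟩ := exists_indep_grad _ _ (n := B + 1) (Nat.lt_of_not_le hcon)
  obtain ⟨A1, hA1, hDf⟩ := exists_Df_fam γ
  let A2 := (A ∪ Set.range x) ∪ (Set.range (fun p : ρ × σ => W p.1 p.2) ∪ A1)
  obtain ⟨u0, hu⟩ := exists_gen (A := A2)
    ((hA.union (Set.finite_range x)).union ((Set.finite_range _).union hA1)) ρ
  have hDf2 : ∀ b, Df A2 (γ b) := fun b =>
    (hDf b).mono' (Set.subset_union_right.trans Set.subset_union_right)
  choose t ht using fun b => exists_root_line hu (hDf2 b) (hγ b).1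
  have ht0 : ∀ b, t b ≠ 0 := by
    intro b hb
    have h1 := ht b
    rw [hb, zero_smul] at h1
    obtain ⟨h, hh⟩ := (hγ b).2.trans (hG j0)
    have h2 := congrArg (eval 0) hh
    rw [map_mul, h1, zero_mul, eval_aff] at h2
    exact hTx (by simpa using h2)
  have hinj : Function.Injective t := by
    intro a b hab
    by_contra hne
    have h1 := codim_two (A := A2) ![γ a, γ b] (fun i => by fin_cases i <;> exact hDf2 _)
      (fun g hg => coprime_of_grad (fun b => (hγ b).1) hli hne g (hg 0) (hg 1)) (t b • u0)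
      (fun i => by
        fin_cases i
        · exact hab ▸ ht a
        · exact ht b)
    have h2 := smul_tan hu (ht0 b)
    omega
  have h3 := focal T hT hcop hx (∑ u, u0 u • W u) t hinj ht0 (fun b j => by
    obtain ⟨h, hh⟩ := (hγ b).2.trans (hG j)
    have h2 := congrArg (eval (t b • u0)) hh
    rw [map_mul, ht b, zero_mul, eval_aff] at h2
    rw [← h2, Finset.smul_sum]
    simp only [smul_smul, Pi.smul_apply, smul_eq_mul])
  have h4 := tan_comb (A := A ∪ Set.range x) (A2 := A2)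
    (Set.subset_union_left.trans (subset_Const _)) W
    (fun u i => mem_Const_of_mem (Or.inr (Or.inl ⟨(u, i), rfl⟩))) hu o
  omega

end

end Pool.Agent.Lib.MP_bd85b6_lc.B
end

-- part Pool.Agent.Lib.MP_bd85b6_lc.Main
section

/-! The rank bound, by induction on the number of products. -/

set_option autoImplicit false

namespace Pool.Agent.Lib.MP_bd85b6_lc.B

open MvPolynomial Module

/-- The irreducible factors of a family of polynomials. -/
def Irr {σ ι : Type*} (T : ι → MvPolynomial σ ℂ) : Set (MvPolynomial σ ℂ) :=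
  {q | Irreducible q ∧ ∃ j, q ∣ T j}

/-- The rank bound `w` holds for at most `k` products with factors of degree at most `d`. -/
def Bound (k d w : ℕ) : Prop :=
  ∀ {σ ι : Type} [Fintype σ] [Fintype ι] (_ : Fintype.card ι ≤ k) (T : ι → MvPolynomial σ ℂ)
    (_ : ∀ j, T j ≠ 0) (_ : ∀ j q, Irreducible q → q ∣ T j → q.totalDegree ≤ d)
    (_ : ∀ g, (∀ j, g ∣ T j) → IsUnit g)
    (_ : ∀ S : Finset ι, S.Nonempty → S ≠ Finset.univ → ∑ j ∈ S, T j ≠ 0) (_ : ∑ j, T j = 0)
    (x : σ → ℂ), finrank ℂ (GS (Irr T) x) ≤ w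

/-- The space of linear relations. -/
def Rel {σ ι : Type*} [Fintype ι] (T : ι → MvPolynomial σ ℂ) : Submodule ℂ (ι → ℂ) where
  carrier := {c | ∑ j, C (c j) * T j = 0}
  add_mem' := fun {a b} ha hb => by
    simp only [Set.mem_setOf_eq, Pi.add_apply, map_add, add_mul, Finset.sum_add_distrib] at *
    rw [ha, hb, add_zero]
  zero_mem' := by simp
  smul_mem' := fun r {a} ha => by
    simp only [Set.mem_setOf_eq, Pi.smul_apply, smul_eq_mul, map_mul, mul_assoc,
      ← Finset.mul_sum] at *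
    rw [ha, mul_zero]

theorem mem_Rel {σ ι : Type*} [Fintype ι] {T : ι → MvPolynomial σ ℂ} {c : ι → ℂ} :
    c ∈ Rel T ↔ ∑ j, C (c j) * T j = 0 := Iff.rfl

theorem circuit_bound {k d w : ℕ} (hB : Bound k d w) {σ ι : Type} [Fintype σ] [Fintype ι]
    (T : ι → MvPolynomial σ ℂ) (hT0 : ∀ j, T j ≠ 0)
    (hT : ∀ j q, Irreducible q → q ∣ T j → q.totalDegree ≤ d) {S : Finset ι}
    (hS : IsCirc (Rel T) S) (hk : S.card ≤ k) (x : σ → ℂ) :
    finrank ℂ (GS {q | Irreducible q ∧ (∃ j ∈ S, q ∣ T j) ∧ ∃ j ∈ S, ¬ q ∣ T j} x) ≤ w := by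
  classical
  obtain ⟨⟨ξ, hξ, hξS⟩, ⟨j0, hj0⟩, hmin⟩ := hS
  have : Nonempty S := ⟨⟨j0, hj0⟩⟩
  obtain ⟨G, T', hG, hcop⟩ := exists_gcd_fac (fun j : S => T j)
  have hG0 : G ≠ 0 := fun h => hT0 j0 (by rw [hG ⟨j0, hj0⟩, h, zero_mul])
  have hu : ∀ j : S, IsUnit (C (ξ j) : MvPolynomial σ ℂ) := fun j =>
    (IsUnit.mk0 _ ((hξS j).2 j.2)).map C
  have hsum : ∀ R : Finset S, ∑ j ∈ R, C (ξ j) * T' j = 0 ↔
      (fun j => if j ∈ R.map (Function.Embedding.subtype _) then ξ j else 0) ∈ Rel T := by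
    intro R
    rw [mem_Rel]
    have h1 : ∑ j, C (if j ∈ R.map (Function.Embedding.subtype _) then ξ j else 0) * T j =
        G * ∑ j ∈ R, C (ξ j) * T' j := by
      simp only [apply_ite C, C_0, ite_mul, zero_mul, Finset.sum_ite_mem, Finset.univ_inter,
        Finset.sum_map, Function.Embedding.coe_subtype, Finset.mul_sum]
      exact Finset.sum_congr rfl fun j _ => by rw [hG j]; ring
    rw [h1, mul_eq_zero, or_iff_right hG0]
  refine le_trans (Submodule.finrank_mono (Submodule.span_mono (Set.image_mono ?_)))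
    (hB (ι := S) (by simpa using hk) (fun j => C (ξ j) * T' j) (fun j => ?_) (fun j q hq h => ?_)
      (fun g hg => hcop g fun j => (hu j).dvd_mul_left.1 (hg j)) (fun R hR hR' h => ?_) ?_ x)
  · rintro q ⟨hq, ⟨j, hj, h1⟩, j', hj', h2⟩
    refine ⟨hq, ⟨j, hj⟩, Dvd.dvd.mul_left ?_ _⟩
    rw [hG ⟨j, hj⟩] at h1
    refine (hq.prime.dvd_or_dvd h1).resolve_left fun h3 => h2 ?_
    rw [hG ⟨j', hj'⟩]
    exact h3.mul_right _
  · exact mul_ne_zero (hu j).ne_zero fun h => hT0 j (by rw [hG j, h, mul_zero])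
  · refine hT j q hq ?_
    rw [hG j]
    exact ((hu j).dvd_mul_left.1 h).mul_left _
  · obtain ⟨j1, hj1⟩ : ∃ j, j ∉ R := by
      by_contra h'
      push Not at h'
      exact hR' (Finset.eq_univ_of_forall h')
    obtain ⟨j2, hj2⟩ := hR
    have h2 := hmin _ ((hsum R).1 h) (fun j hj => if_neg fun h' => by
      obtain ⟨j', -, rfl⟩ := Finset.mem_map.1 h'
      exact hj j'.2) ⟨j1, j1.2, if_neg fun h' => by
        obtain ⟨j', h'', h3⟩ := Finset.mem_map.1 h'
        exact hj1 ((Subtype.ext h3 : j' = j1) ▸ h'')⟩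
    have h3 := congrFun h2 j2
    have h4 : (j2 : ι) ∈ R.map (Function.Embedding.subtype _) := Finset.mem_map.2 ⟨j2, hj2, rfl⟩
    rw [if_pos h4] at h3
    exact (hξS j2).2 j2.2 h3
  · rw [hsum]
    convert hξ using 2 with j
    split_ifs with h
    · rfl
    · by_contra h'
      exact h (Finset.mem_map.2 ⟨⟨j, (hξS j).1 (Ne.symm h')⟩, Finset.mem_univ _, rfl⟩)

theorem two_rel {k d w : ℕ} (hB : Bound k d w) {σ ι : Type} [Fintype σ] [Fintype ι]
    (hk : Fintype.card ι ≤ k + 1) (T : ι → MvPolynomial σ ℂ) (hT0 : ∀ j, T j ≠ 0)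
    (hT : ∀ j q, Irreducible q → q ∣ T j → q.totalDegree ≤ d)
    (hcop : ∀ g, (∀ j, g ∣ T j) → IsUnit g)
    (hmin : ∀ S : Finset ι, S.Nonempty → S ≠ Finset.univ → ∑ j ∈ S, T j ≠ 0)
    (hsum : ∑ j, T j = 0) (c : ι → ℂ) (hc : ∃ i j, c i ≠ c j) (hcT : c ∈ Rel T) (x : σ → ℂ) :
    finrank ℂ (GS (Irr T) x) ≤ 2 ^ (k + 1) * w := by
  classical
  have h1 : (fun _ => 1 : ι → ℂ) ∈ Rel T := by simpa [mem_Rel] using hsum
  have hcirc : ∀ S, IsCirc (Rel T) S → S.card ≤ k := by
    intro S hS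
    by_contra hlt
    have hu : S = Finset.univ := Finset.eq_univ_of_card _
      (le_antisymm (Finset.card_le_univ _) (by omega))
    obtain ⟨i, j, hij⟩ := hc
    have h2 := hS.2.2 (c - c i • fun _ => 1) (sub_mem hcT (Submodule.smul_mem _ _ h1))
      (by simp [hu]) ⟨i, by simp [hu], by simp⟩
    have h3 := congrFun h2 j
    simp only [Pi.sub_apply, Pi.smul_apply, smul_eq_mul, mul_one, Pi.zero_apply] at h3
    exact hij (sub_eq_zero.1 h3).symm
  let Q : Finset ι → Set (MvPolynomial σ ℂ) := fun S =>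
    {q | Irreducible q ∧ (∃ j ∈ S, q ∣ T j) ∧ ∃ j ∈ S, ¬ q ∣ T j}
  let s : Finset (Finset ι) := Finset.univ.filter (IsCirc (Rel T))
  have h2 := finrank_sup_le s (fun S => GS (Q S) x) w fun S hS =>
    circuit_bound hB T hT0 hT (Finset.mem_filter.1 hS).2 (hcirc S (Finset.mem_filter.1 hS).2) x
  have h3 : s.card ≤ 2 ^ (k + 1) := by
    refine (Finset.card_filter_le _ _).trans ?_
    rw [Finset.card_univ, Fintype.card_finset]
    exact Nat.pow_le_pow_right (by omega) hk
  refine le_trans (Submodule.finrank_mono (Submodule.span_le.2 ?_))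
    (h2.trans (Nat.mul_le_mul_right _ h3))
  rintro _ ⟨q, ⟨hq, j0, hj0⟩, rfl⟩
  suffices h : ∃ S, IsCirc (Rel T) S ∧ q ∈ Q S by
    obtain ⟨S, hS, hqS⟩ := h
    exact (Finset.le_sup (f := fun S => GS (Q S) x) (Finset.mem_filter.2 ⟨Finset.mem_univ _, hS⟩))
      (Submodule.subset_span ⟨q, hqS, rfl⟩)
  by_contra hcon
  push Not at hcon
  have hex : ∀ S, ∃ ξ : ι → ℂ, IsCirc (Rel T) S → ξ ∈ Rel T ∧ ∀ j, ξ j ≠ 0 ↔ j ∈ S := by
    intro S
    by_cases h : IsCirc (Rel T) S
    · obtain ⟨ξ, h1, h2⟩ := h.1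
      exact ⟨ξ, fun _ => ⟨h1, h2⟩⟩
    · exact ⟨0, fun h' => absurd h' h⟩
  choose ξ hξ using hex
  let J : Finset ι := Finset.univ.filter fun j => q ∣ T j
  have hproj : ∀ y ∈ Submodule.span ℂ (ξ '' {S | IsCirc (Rel T) S}),
      (fun j => if j ∈ J then y j else 0) ∈ Rel T := by
    intro y hy
    induction hy using Submodule.span_induction with
    | mem y hy =>
      obtain ⟨S, hS, rfl⟩ := hy
      by_cases h : ∃ j ∈ S, q ∣ T j
      · have h4 : ∀ j ∈ S, q ∣ T j := by
          by_contra h5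
          push Not at h5
          exact hcon S hS ⟨hq, h, h5⟩
        convert (hξ S hS).1 using 2 with j
        split_ifs with h5
        · rfl
        · by_contra h6
          exact h5 (by simpa [J] using h4 j (((hξ S hS).2 j).1 (Ne.symm h6)))
      · convert zero_mem (Rel T) using 2 with j
        split_ifs with h5
        · by_contra h6
          exact h ⟨j, ((hξ S hS).2 j).1 h6, by simpa [J] using h5⟩
        · rfl
    | zero => convert zero_mem (Rel T) using 2 with j; simp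
    | add y z _ _ hy hz =>
      convert add_mem hy hz using 2 with j
      simp only [Pi.add_apply]
      split_ifs <;> simp
    | smul r y _ hy =>
      convert Submodule.smul_mem _ r hy using 2 with j
      simp only [Pi.smul_apply]
      split_ifs <;> simp
  have h4 := mem_Rel.1 (hproj _ (le_span_circ (Rel T) ξ hξ h1))
  refine hmin J ⟨j0, by simpa [J] using hj0⟩ (fun h => hq.not_isUnit (hcop q fun j => ?_)) ?_
  · have : j ∈ J := h ▸ Finset.mem_univ j
    simpa [J] using this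
  · simpa only [apply_ite C, C_0, C_1, ite_mul, zero_mul, one_mul, Finset.sum_ite_mem,
      Finset.univ_inter] using h4

theorem bound_zero (d : ℕ) : Bound 0 d 0 := by
  intro σ ι _ _ hk T _ _ hcop _ _ x
  have : IsEmpty ι := Fintype.card_eq_zero_iff.1 (Nat.le_zero.1 hk)
  exact absurd (hcop 0 fun j => isEmptyElim j) not_isUnit_zero

theorem bound_succ {k d w : ℕ} (hB : Bound k d w) : ∃ w', Bound (k + 1) d w' := by
  classical
  obtain ⟨δ, B, hkey⟩ := key_prop (k + 1) d
  obtain ⟨p, hp⟩ : ∃ p, p = B + 2 ^ (k + 1) * w + 1 := ⟨_, rfl⟩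
  obtain ⟨m, hm⟩ : ∃ m, m = (δ + 1) ^ B * (δ + 1) ^ p + 1 := ⟨_, rfl⟩
  refine ⟨p * m, fun {σ ι} _ _ hk T hT0 hT hcop hmin hsum x0 => ?_⟩
  by_contra hcon
  obtain ⟨q, hq, hli0⟩ := exists_indep_grad _ _ (Nat.le_of_not_le hcon)
  have hpm : 0 < p * m := Nat.mul_pos (by omega) (by omega)
  obtain ⟨f, hf⟩ := (linInd_iff_minor _).1 hli0
  rw [← eval_minor] at hf
  obtain ⟨A, hA, hDf⟩ := exists_Df (insert (Matrix.of fun n j => pderiv (f j) (q n)).det
    (Set.range fun S : Finset ι => ∑ j ∈ S, T j)) ((Set.finite_range _).insert _)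
  have hDT : ∀ j, Df A (T j) := fun j => hDf _ (Or.inr ⟨{j}, Finset.sum_singleton _ _⟩)
  obtain ⟨x, hx, c, hc, Z, hZ, hZB, hZT⟩ := hkey hk T hT0 hT hcop hsum (by
    obtain ⟨h1, j, hj⟩ := hq ⟨0, hpm⟩
    exact ⟨j, fun h => h1.not_isUnit (isUnit_of_dvd_unit hj h)⟩) A hA
  have hli : LinearIndependent ℂ fun i => grad (q i) x := by
    refine (linInd_iff_minor _).2 ⟨f, fun h => hf ?_⟩
    rw [← eval_minor] at h
    rw [hx.eq_zero (hDf _ (Or.inl rfl)) h, map_zero]
  obtain ⟨E, hE⟩ := exists_dual _ hli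
  obtain ⟨v, hv, ω, hω, hvZ⟩ := cone_flat (δ := δ) (e := B) (p := p) (m := m) (by omega) hZ hZB
    (fun l u => E (finProdFinEquiv (l, u))) (hA.union (Set.finite_range x))
  let W : Option (Fin p) → σ → ℂ := fun o =>
    o.elim v fun l => ∑ u, ω l u • E (finProdFinEquiv (l, u))
  have hev0 : ∀ g, eval 0 (aff x W g) = eval x g := fun g => by
    rw [eval_aff]
    simp
  have hTx : ∀ j, eval x (T j) ≠ 0 := fun j h => hT0 j (hx.eq_zero (hDT j) h)
  have hP0 : ∀ j, aff x W (T j) ≠ 0 := fun j h => hTx j (by rw [← hev0, h, map_zero])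
  have hrel : ∑ j, C (c j) * aff x W (T j) = 0 := by
    refine (mul_eq_zero.1 (MvPolynomial.funext (q := 0) (p := X none * _) fun z => ?_)).resolve_left
      (X_ne_zero _)
    rw [map_mul, eval_X, map_zero]
    by_cases hz : z none = 0
    · rw [hz, zero_mul]
    · have h1 := hZT _ (hvZ fun l => (z none)⁻¹ * z (some l)) (z none)
      have h2 : ∑ u, z u • W u = z none • (v + ∑ l, ((z none)⁻¹ * z (some l)) •
          ∑ u, ω l u • E (finProdFinEquiv (l, u))) := by
        rw [Fintype.sum_option, smul_add, Finset.smul_sum]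
        simp only [W, Option.elim, smul_smul, mul_inv_cancel_left₀ hz]
      simp only [map_sum, map_mul, eval_C, eval_aff, h2, h1, mul_zero]
  obtain ⟨i0, -, -⟩ := id hc
  have : Nonempty ι := ⟨i0⟩
  obtain ⟨G, T', hG, hcop'⟩ := exists_gcd_fac fun j => aff x W (T j)
  have hG0 : G ≠ 0 := fun h => hP0 i0 (by rw [hG, h, zero_mul])
  have hsub : ∀ S : Finset ι, aff x W (∑ j ∈ S, T j) = G * ∑ j ∈ S, T' j := fun S => by
    simp only [map_sum, hG, Finset.mul_sum]
  have h1 := two_rel hB hk T' (fun j h => hP0 j (by rw [hG, h, mul_zero]))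
    (fun j r hr h => fac_aff x W (hT j) (hP0 j) r hr (by rw [hG]; exact h.mul_left _)) hcop'
    (fun S hS hS' h => hmin S hS hS' (hx.eq_zero (hDf _ (Or.inr ⟨S, rfl⟩)) (by
      rw [← hev0, hsub, h, mul_zero, map_zero])))
    ((mul_eq_zero.1 (by rw [← hsub, hsum, map_zero])).resolve_left hG0) c hc
    ((mul_eq_zero.1 (by
      rw [← hrel, Finset.mul_sum]
      exact Finset.sum_congr rfl fun j _ => by rw [hG]; ring)).resolve_left hG0) 0
  have h2 := common_factor_bound hA T hDT hcop hx i0 (hTx i0) W none hv G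
    (fun j => by rw [hG]; exact dvd_mul_right _ _)
  choose u hu using fun l => Function.ne_iff.1 (hω l)
  have h3 := card_le_finrank_of_mem (GS {q | Irreducible q ∧ q ∣ G} 0 ⊔ GS (Irr T') 0)
    (fun l => grad (aff x W (q (finProdFinEquiv (l, u l)))) 0) (by
      refine (linInd_iff_minor _).2 ⟨some, ?_⟩
      have h4 : (Matrix.of fun l l' => grad (aff x W (q (finProdFinEquiv (l, u l)))) 0 (some l')) =
          Matrix.diagonal fun l => ω l (u l) := by
        ext l l'
        simp only [Matrix.of_apply, grad_aff, W, Option.elim, dotProduct_sum, dotProduct_smul, hE,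
          Matrix.diagonal_apply, EmbeddingLike.apply_eq_iff_eq, Prod.mk.injEq, smul_eq_mul]
        split_ifs with h
        · subst h
          simp
        · simp [h]
      rw [h4, Matrix.det_diagonal]
      exact Finset.prod_ne_zero_iff.2 fun l _ => hu l) (fun l => by
      obtain ⟨-, j, hj⟩ := hq (finProdFinEquiv (l, u l))
      have h5 := map_dvd (aff x W) hj
      have h6 := grad_mem (Q := {q | Irreducible q ∧ q ∣ G} ∪ Irr T') 0
        (ne_zero_of_dvd_ne_zero (hP0 j) h5) (fun r hr h => by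
          have h7 := h.trans h5
          rw [hG] at h7
          exact (hr.prime.dvd_or_dvd h7).imp (fun h => ⟨hr, h⟩) fun h => ⟨hr, j, h⟩)
      rwa [GS, Set.image_union, Submodule.span_union] at h6)
  have h4 := Submodule.finrank_add_le_finrank_add_finrank
    (GS {q | Irreducible q ∧ q ∣ G} 0) (GS (Irr T') 0)
  rw [Fintype.card_fin] at h3
  omega

theorem exists_bound (k d : ℕ) : ∃ w, Bound k d w := by
  induction k with
  | zero => exact ⟨0, bound_zero d⟩
  | succ k ih => exact ih.elim fun _ h => bound_succ h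

theorem rank_bound : ∃ f : ℕ → ℕ → ℕ, ∀ (k d N : ℕ) (n : Fin k → ℕ)
      (Q : (i : Fin k) → Fin (n i) → MvPolynomial (Fin N) ℂ),
      (∀ i j, (Q i j).totalDegree ≤ d) →
      (∀ g : MvPolynomial (Fin N) ℂ, (∀ i, g ∣ ∏ j, Q i j) → IsUnit g) →
      (∀ S : Finset (Fin k), S.Nonempty → S ≠ Finset.univ →
        (∑ i ∈ S, ∏ j, Q i j) ≠ 0) →
      (∑ i, ∏ j, Q i j) = 0 →
      ∀ s : Finset (Σ i : Fin k, Fin (n i)),
        AlgebraicIndependent ℂ (fun p : s => Q p.1.1 p.1.2) →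
        s.card ≤ f k d := by
  classical
  choose f hf using exists_bound
  refine ⟨f, fun k d N n Q hd hcop hmin hsum s hs => ?_⟩
  have hT0 : ∀ i, ∏ j, Q i j ≠ 0 := by
    intro i h
    by_cases hi : ({i} : Finset (Fin k)) = Finset.univ
    · refine not_isUnit_zero (hcop 0 fun i' => ?_)
      have : i' = i := Finset.mem_singleton.1 (hi ▸ Finset.mem_univ i')
      rw [this, h]
    · exact hmin {i} (Finset.singleton_nonempty i) hi (by rw [Finset.sum_singleton, h])
  have hdvd : ∀ i j, Q i j ∣ ∏ j, Q i j := fun i j => Finset.dvd_prod_of_mem _ (Finset.mem_univ j)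
  obtain ⟨x, hx⟩ := jacobian (fun r : Fin s.card => Q (s.equivFin.symm r).1.1 (s.equivFin.symm r).1.2)
    (hs.comp _ s.equivFin.symm.injective)
  have h1 := card_le_finrank_of_mem (GS (Irr fun i => ∏ j, Q i j) x) _ hx fun r =>
    grad_mem x (ne_zero_of_dvd_ne_zero (hT0 _) (hdvd _ _)) fun q hq h =>
      ⟨hq, _, h.trans (hdvd _ _)⟩
  rw [Fintype.card_fin] at h1
  refine h1.trans (hf k d (by simp) _ hT0 (fun i q hq h => ?_) hcop hmin hsum x)
  obtain ⟨j, -, hj⟩ := hq.prime.exists_mem_finset_dvd h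
  exact (totalDegree_le_of_dvd_of_isDomain hj (ne_zero_of_dvd_ne_zero (hT0 _) (hdvd _ _))).trans
    (hd i j)

end Pool.Agent.Lib.MP_bd85b6_lc.B
end
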