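import Pool.Agent.Lib.MP_bd85b6_lc.Regular

-- part Pool.Agent.Lib.MP_bd85b6_lc.Cone
section

/-! Cones of bounded degree and codimension contain large affine subspaces. -/

set_option autoImplicit false

namespace Pool.Agent.Lib.MP_bd85b6_lc

open MvPolynomial Module

theorem totalDegree_eval₂_le {R S σ τ : Type*} [CommRing R] [CommRing S]
    (φ : R →+* MvPolynomial τ S) (hφ : ∀ r, (φ r).totalDegree = 0) (g : σ → MvPolynomial τ S)
    (hg : ∀ i, (g i).totalDegree ≤ 1) (f : MvPolynomial σ R) :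
    (eval₂ φ g f).totalDegree ≤ f.totalDegree := by
  rw [eval₂_eq]
  refine totalDegree_finsetSum_le fun m hm => ?_
  refine (totalDegree_mul _ _).trans ?_
  rw [hφ, zero_add]
  refine (totalDegree_finsetProd _ _).trans (le_trans ?_ (le_totalDegree hm))
  refine Finset.sum_le_sum fun i _ => (totalDegree_pow _ _).trans ?_
  simpa using Nat.mul_le_mul_left (m i) (hg i)

theorem totalDegree_affine_le {S ρ : Type*} [CommRing S] [Fintype ρ] (b : S) (E : ρ → S) :
    (C b + ∑ u, C (E u) * X u : MvPolynomial ρ S).totalDegree ≤ 1 := by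
  refine (totalDegree_add _ _).trans (max_le (by simp) (totalDegree_finsetSum_le fun u _ => ?_))
  exact (isHomogeneous_C_mul_X (E u) u).totalDegree_le

section
variable {σ : Type*}

/-- Restriction to an affine subspace. -/
noncomputable def aff {ρ : Type*} [Fintype ρ] (b : σ → ℂ) (E : ρ → σ → ℂ) :
    MvPolynomial σ ℂ →ₐ[ℂ] MvPolynomial ρ ℂ :=
  aeval fun i => C (b i) + ∑ u, C (E u i) * X u

theorem eval_aff {ρ : Type*} [Fintype ρ] (b : σ → ℂ) (E : ρ → σ → ℂ) (z : ρ → ℂ)
    (f : MvPolynomial σ ℂ) : eval z (aff b E f) = eval (b + ∑ u, z u • E u) f := by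
  have : (eval z).comp (aff b E).toRingHom = eval (b + ∑ u, z u • E u) :=
    MvPolynomial.ringHom_ext (fun c => by simp [aff]) (fun i => by simp [aff, mul_comm])
  exact congrArg (fun φ => φ f) this

theorem totalDegree_aff_le {ρ : Type*} [Fintype ρ] (b : σ → ℂ) (E : ρ → σ → ℂ)
    (f : MvPolynomial σ ℂ) : (aff b E f).totalDegree ≤ f.totalDegree :=
  totalDegree_eval₂_le _ (fun r => by simp) _ (fun i => totalDegree_affine_le _ _) f

/-- Restriction to a line. -/
noncomputable def line (x v : σ → ℂ) : MvPolynomial σ ℂ →ₐ[ℂ] Polynomial ℂ :=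
  aeval fun i => Polynomial.C (x i) + Polynomial.X * Polynomial.C (v i)

theorem eval_line (x v : σ → ℂ) (t : ℂ) (f : MvPolynomial σ ℂ) :
    (line x v f).eval t = eval (x + t • v) f := by
  have : (Polynomial.evalRingHom t).comp (line x v).toRingHom = eval (x + t • v) :=
    MvPolynomial.ringHom_ext (fun c => by simp [line]) (fun i => by
      simp only [line, AlgHom.toRingHom_eq_coe, RingHom.coe_comp, RingHom.coe_coe,
        Function.comp_apply, aeval_X, Polynomial.coe_evalRingHom, Polynomial.eval_add,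
        Polynomial.eval_mul, Polynomial.eval_C, Polynomial.eval_X, eval_X, Pi.add_apply,
        Pi.smul_apply, smul_eq_mul])
  exact congrArg (fun φ => φ f) this

theorem natDegree_line_le (x v : σ → ℂ) (f : MvPolynomial σ ℂ) :
    (line x v f).natDegree ≤ f.totalDegree := by
  have := aeval_natDegree_le (n := 1) f le_rfl
    (fun i => Polynomial.C (x i) + Polynomial.X * Polynomial.C (v i)) (fun i => by
      refine (Polynomial.natDegree_add_le _ _).trans (max_le (by simp) ?_)
      exact (Polynomial.natDegree_mul_C_le _ _).trans Polynomial.natDegree_X_le)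
  rw [mul_one] at this
  exact this

theorem coeff_line_aff {ρ : Type*} [Fintype ρ] (b : σ → ℂ) (E : ρ → σ → ℂ) (z : ρ → ℂ)
    (f : MvPolynomial σ ℂ) (n : ℕ) :
    (line b (∑ u, z u • E u) f).coeff n = eval z (homogeneousComponent n (aff b E f)) := by
  have h := coeff_eval₂_line (RingHom.id ℂ) z (aff b E f) n
  have : (eval₂Hom (Polynomial.C.comp (RingHom.id ℂ))
      (fun i => Polynomial.X * Polynomial.C (z i))).comp (aff b E).toRingHom =
      (line b (∑ u, z u • E u)).toRingHom :=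
    MvPolynomial.ringHom_ext (fun c => by simp [aff, line]) (fun i => by
      simp only [aff, line, AlgHom.toRingHom_eq_coe, RingHom.coe_comp, RingHom.coe_coe,
        Function.comp_apply, aeval_X, map_add, map_sum, map_mul, eval₂Hom_C, eval₂Hom_X',
        RingHom.id_apply, Finset.sum_apply, Pi.smul_apply, smul_eq_mul, Finset.mul_sum]
      congr 1
      exact Finset.sum_congr rfl fun u _ => by ring)
  have h2 := congrArg (fun φ => φ f) this
  exact (congrArg (fun p => Polynomial.coeff p n) h2).symm.trans h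

theorem line_eq_zero_of_eval {x v : σ → ℂ} {f : MvPolynomial σ ℂ}
    (h : ∀ t : ℂ, eval (x + t • v) f = 0) : line x v f = 0 :=
  Polynomial.funext fun t => by rw [eval_line, h, Polynomial.eval_zero]

theorem eval_zero_of_mul {x v : σ → ℂ} {h f : MvPolynomial σ ℂ} (hx : eval x h ≠ 0)
    (H : ∀ t : ℂ, eval (x + t • v) h * eval (x + t • v) f = 0) (t : ℂ) :
    eval (x + t • v) f = 0 := by
  have h1 : line x v h * line x v f = 0 := by
    rw [← map_mul]
    exact line_eq_zero_of_eval fun t => by rw [map_mul, H]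
  have h2 : line x v h ≠ 0 := by
    intro h3
    have := eval_line x v 0 h
    rw [h3] at this
    simp only [Polynomial.eval_zero, zero_smul, add_zero] at this
    exact hx this.symm
  rw [← eval_line, (mul_eq_zero.1 h1).resolve_left h2, Polynomial.eval_zero]

theorem exists_dir (δ m : ℕ) (G : Finset (MvPolynomial σ ℂ)) (hG : ∀ g ∈ G, g.totalDegree ≤ δ)
    (B : Finset (σ → ℂ)) (hB : ∀ b ∈ B, ∀ g ∈ G, eval b g = 0) (E : Fin m → σ → ℂ)
    (hm : G.card * B.card * δ < m) :
    ∃ ω : Fin m → ℂ, ω ≠ 0 ∧ ∀ b ∈ B, ∀ g ∈ G, ∀ t : ℂ, eval (b + t • ∑ u, ω u • E u) g = 0 := by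
  classical
  obtain ⟨ω, h0, hω⟩ := forms_common_zero (((G ×ˢ B) ×ˢ Finset.Icc 1 δ).image
      fun p => homogeneousComponent p.2 (aff p.1.2 E p.1.1)) (by
    intro g hg
    obtain ⟨p, hp, rfl⟩ := Finset.mem_image.1 hg
    have := (Finset.mem_Icc.1 (Finset.mem_product.1 hp).2).1
    exact ⟨p.2, this, homogeneousComponent_isHomogeneous _ _⟩) (by
    refine Finset.card_image_le.trans_lt ?_
    simpa using hm)
  refine ⟨ω, h0, fun b hb g hg t => ?_⟩
  rw [← eval_line]
  have : line b (∑ u, ω u • E u) g = 0 := by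
    ext n
    rcases Nat.eq_zero_or_pos n with rfl | hn
    · rw [Polynomial.coeff_zero_eq_eval_zero, eval_line]
      simpa using hB b hb g hg
    · by_cases hn' : n ≤ δ
      · rw [coeff_line_aff]
        exact hω _ (Finset.mem_image.2 ⟨((g, b), n), by simp [hg, hb, hn', Nat.succ_le_iff.2 hn],
          rfl⟩)
      · exact Polynomial.coeff_eq_zero_of_natDegree_lt
          (((natDegree_line_le _ _ _).trans (hG g hg)).trans_lt (by omega))
  rw [this, Polynomial.eval_zero]

theorem exists_flat (δ m : ℕ) (G : Finset (MvPolynomial σ ℂ)) (hG : ∀ g ∈ G, g.totalDegree ≤ δ)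
    (p : ℕ) : ∀ (B : Finset (σ → ℂ)) (_ : ∀ b ∈ B, ∀ g ∈ G, eval b g = 0)
      (E : Fin p → Fin m → σ → ℂ) (_ : G.card * B.card * (δ + 1) ^ p < m),
      ∃ ω : Fin p → Fin m → ℂ, (∀ l, ω l ≠ 0) ∧ ∀ b ∈ B, ∀ g ∈ G, ∀ z : Fin p → ℂ,
        eval (b + ∑ l, z l • ∑ u, ω l u • E l u) g = 0 := by
  classical
  induction p with
  | zero =>
    intro B hB E _
    exact ⟨fun l => l.elim0, fun l => l.elim0, fun b hb g hg z => by simpa using hB b hb g hg⟩
  | succ p ih =>
    intro B hB E hm
    obtain ⟨ω0, h0, hω0⟩ := exists_dir δ m G hG B hB (E 0) (lt_of_le_of_lt (by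
      refine Nat.mul_le_mul_left _ ?_
      calc δ ≤ (δ + 1) ^ 1 := by simp
        _ ≤ _ := Nat.pow_le_pow_right (by omega) (by omega)) hm)
    set w0 := ∑ u, ω0 u • E 0 u with hw0
    obtain ⟨ω, h1, hω⟩ := ih ((B ×ˢ Finset.range (δ + 1)).image fun q => q.1 + (q.2 : ℂ) • w0)
      (by
        intro b hb g hg
        obtain ⟨q, hq, rfl⟩ := Finset.mem_image.1 hb
        exact hω0 _ (Finset.mem_product.1 hq).1 g hg _)
      (fun l => E l.succ) (lt_of_le_of_lt (by
        rw [pow_succ', ← mul_assoc, mul_assoc G.card B.card]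
        refine Nat.mul_le_mul_right _ (Nat.mul_le_mul_left _ ?_)
        simpa using Finset.card_image_le (s := B ×ˢ Finset.range (δ + 1))) hm)
    refine ⟨Fin.cons ω0 ω, fun l => Fin.cases h0 h1 l, fun b hb g hg z => ?_⟩
    rw [Fin.sum_univ_succ]
    simp only [Fin.cons_zero, Fin.cons_succ]
    set y := ∑ l : Fin p, z l.succ • ∑ u, ω l u • E l.succ u with hy
    have h2 : line (b + y) w0 g = 0 := by
      refine Polynomial.eq_zero_of_natDegree_lt_card_of_eval_eq_zero _
        (f := fun τ : Fin (δ + 1) => (τ : ℂ)) ?_ (fun τ => ?_) ?_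
      · intro i j hij
        exact Fin.ext (Nat.cast_injective (R := ℂ) hij)
      · rw [eval_line, add_right_comm]
        exact hω _ (Finset.mem_image.2 ⟨(b, τ), by simp [hb, τ.2], rfl⟩) g hg _
      · simpa using Nat.lt_succ_of_le ((natDegree_line_le _ _ _).trans (hG g hg))
    rw [← hw0, ← add_assoc, add_right_comm, ← eval_line, h2, Polynomial.eval_zero]

variable [Fintype σ]

/-- A cone cut out by forms of bounded degree. -/
def IsCone (δ : ℕ) (Z : Set (σ → ℂ)) : Prop :=
  ∃ F : Finset (MvPolynomial σ ℂ), (∀ f ∈ F, ∃ n ≤ δ, f.IsHomogeneous n) ∧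
    ∀ v, v ∈ Z ↔ ∀ f ∈ F, eval v f = 0

/-- A set having points of transcendence codimension at most `e` over every finite set. -/
def Big (e : ℕ) (Z : Set (σ → ℂ)) : Prop :=
  ∀ A : Set ℂ, A.Finite → ∃ v ∈ Z, Fintype.card σ ≤ finrank ℂ (Tan A v) + e

theorem Big.mono {e e' : ℕ} {Z : Set (σ → ℂ)} (h : Big e Z) (he : e ≤ e') : Big e' Z :=
  fun A hA => by
    obtain ⟨v, hv, h'⟩ := h A hA
    exact ⟨v, hv, by omega⟩

omit [Fintype σ] in
theorem IsCone.mono {δ δ' : ℕ} {Z : Set (σ → ℂ)} (h : IsCone δ Z) (hδ : δ ≤ δ') : IsCone δ' Z := by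
  obtain ⟨F, hF, h⟩ := h
  refine ⟨F, fun f hf => ?_, h⟩
  obtain ⟨n, hn, h'⟩ := hF f hf
  exact ⟨n, hn.trans hδ, h'⟩

omit [Fintype σ] in
theorem IsCone.smul_mem {δ : ℕ} {Z : Set (σ → ℂ)} (h : IsCone δ Z) (c : ℂ) {v : σ → ℂ}
    (hv : v ∈ Z) : c • v ∈ Z := by
  obtain ⟨F, hF, h⟩ := h
  rw [h] at hv ⊢
  intro f hf
  obtain ⟨n, -, hn⟩ := hF f hf
  rw [eval_smul_hom _ _ hn, hv f hf, mul_zero]

omit [Fintype σ] in
theorem IsCone.inter {δ : ℕ} {Z Z' : Set (σ → ℂ)} (h : IsCone δ Z) (h' : IsCone δ Z') :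
    IsCone δ (Z ∩ Z') := by
  classical
  obtain ⟨F, hF, h⟩ := h
  obtain ⟨F', hF', h'⟩ := h'
  refine ⟨F ∪ F', fun f hf => (Finset.mem_union.1 hf).elim (hF f) (hF' f), fun v => ?_⟩
  simp only [Set.mem_inter_iff, h, h', Finset.mem_union, or_imp, forall_and]

theorem big_of_meets {δ e : ℕ} {Z : Set (σ → ℂ)} (hZ : IsCone δ Z)
    (h : ∀ M : σ → Fin (e + 1) → ℂ, ∃ w : Fin (e + 1) → ℂ, w ≠ 0 ∧
      (fun i => ∑ j, M i j * w j) ∈ Z) : Big e Z := by
  intro A hA
  obtain ⟨M, hM⟩ := exists_gen hA (σ × Fin (e + 1))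
  obtain ⟨w, hw, hwZ⟩ := h fun i j => M (i, j)
  obtain ⟨l, hl⟩ := Function.ne_iff.1 hw
  have h1 := gen_matrix (fun i j => M (i, j)) hM ((w l)⁻¹ • w) Finset.univ l (Finset.mem_univ _)
    (by simpa using inv_mul_cancel₀ hl) (by simp)
  rw [Finset.card_univ, Fintype.card_fin] at h1
  refine ⟨_, ?_, Nat.le_of_add_le_add_right (h1.trans_eq (add_assoc _ _ _).symm)⟩
  convert hZ.smul_mem (w l)⁻¹ hwZ using 1
  ext i
  simp [Finset.mul_sum, mul_left_comm]

theorem Big.inter {δ e e' : ℕ} {Z Z' : Set (σ → ℂ)} (hZ : IsCone δ Z) (hZ' : IsCone δ Z')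
    (h : Big e Z) (h' : Big e' Z') : Big (e + e') (Z ∩ Z') := by
  classical
  refine big_of_meets (hZ.inter hZ') fun M => ?_
  obtain ⟨F, hF, hZ⟩ := hZ
  obtain ⟨F', hF', hZ'⟩ := hZ'
  let τ := σ ⊕ σ ⊕ Fin (e + e' + 1)
  let i1 : σ → τ := Sum.inl
  let i2 : σ → τ := Sum.inr ∘ Sum.inl
  let i3 : Fin (e + e' + 1) → τ := Sum.inr ∘ Sum.inr
  let lin : σ ⊕ σ → MvPolynomial τ ℂ := fun q =>
    X (Sum.elim i1 i2 q) - ∑ j, C (M (Sum.elim id id q) j) * X (i3 j)
  obtain ⟨a, ha0, haF, haG⟩ := cone_meets (F.image (rename i1) ∪ F'.image (rename i2))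
    (Finset.univ.image lin) (by
      intro f hf
      rcases Finset.mem_union.1 hf with hf | hf
      · obtain ⟨g, hg, rfl⟩ := Finset.mem_image.1 hf
        obtain ⟨n, -, hn⟩ := hF g hg
        exact ⟨n, hn.rename_isHomogeneous⟩
      · obtain ⟨g, hg, rfl⟩ := Finset.mem_image.1 hf
        obtain ⟨n, -, hn⟩ := hF' g hg
        exact ⟨n, hn.rename_isHomogeneous⟩) (by
      intro g hg
      obtain ⟨q, -, rfl⟩ := Finset.mem_image.1 hg
      exact ⟨1, one_pos, (isHomogeneous_X _ _).sub
        (IsHomogeneous.sum _ _ _ fun j _ => isHomogeneous_C_mul_X _ _)⟩) (by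
      intro A hA
      obtain ⟨v, hv, hrk⟩ := h A hA
      obtain ⟨I, hI, hgen⟩ := exists_gen_coords A v
      obtain ⟨v', hv', hrk'⟩ := h' (A ∪ Set.range v) (hA.union (Set.finite_range v))
      obtain ⟨I', hI', hgen'⟩ := exists_gen_coords (A ∪ Set.range v) v'
      obtain ⟨b, hb⟩ := exists_gen ((hA.union (Set.finite_range v)).union (Set.finite_range v'))
        (Fin (e + e' + 1))
      have g1 := hgen'.sum hb (Set.subset_union_left.trans (subset_Const _))
        (fun i => mem_Const_of_mem (Or.inr ⟨_, rfl⟩))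
      have g2 := hgen.sum g1 (Set.subset_union_left.trans (subset_Const _))
        (fun i => mem_Const_of_mem (Or.inr ⟨_, rfl⟩))
      refine ⟨Sum.elim v (Sum.elim v' b), fun f hf => ?_, ?_⟩
      · rcases Finset.mem_union.1 hf with hf | hf
        · obtain ⟨g, hg, rfl⟩ := Finset.mem_image.1 hf
          rw [eval_rename]
          exact (hZ v).1 hv g hg
        · obtain ⟨g, hg, rfl⟩ := Finset.mem_image.1 hf
          rw [eval_rename]
          exact (hZ' v').1 hv' g hg
      · have h3 := Gen.card_le (A := A) (a := Sum.elim v (Sum.elim v' b))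
          (Sum.map (Subtype.val : I → σ) (Sum.map (Subtype.val : I' → σ) id)) (by
            convert g2 using 1
            ext (i | i | i) <;> rfl)
        have h4 : (Finset.univ.image lin).card ≤ Fintype.card σ + Fintype.card σ := by
          simpa using Finset.card_image_le (s := Finset.univ) (f := lin)
        simp only [Fintype.card_sum, Fintype.card_coe, Fintype.card_fin] at h3
        refine lt_of_lt_of_le ?_ h3
        omega)
  have hl : ∀ q, a (Sum.elim i1 i2 q) = ∑ j, M (Sum.elim id id q) j * a (i3 j) := by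
    intro q
    have := haG (lin q) (Finset.mem_image.2 ⟨q, Finset.mem_univ _, rfl⟩)
    simpa [lin, sub_eq_zero] using this
  refine ⟨a ∘ i3, fun h0 => ha0 ?_, ?_, ?_⟩
  · have h3 : ∀ j, a (i3 j) = 0 := fun j => congrFun h0 j
    ext (i | i | i)
    · simpa [h3] using hl (Sum.inl i)
    · have := hl (Sum.inr i)
      simp only [h3, mul_zero, Finset.sum_const_zero] at this
      exact this
    · exact h3 i
  · rw [hZ]
    intro f hf
    have := haF (rename i1 f) (Finset.mem_union_left _ (Finset.mem_image.2 ⟨f, hf, rfl⟩))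
    rw [eval_rename] at this
    convert this using 3
    ext i
    exact (hl (Sum.inl i)).symm
  · rw [hZ']
    intro f hf
    have := haF (rename i2 f) (Finset.mem_union_right _ (Finset.mem_image.2 ⟨f, hf, rfl⟩))
    rw [eval_rename] at this
    convert this using 3
    ext i
    exact (hl (Sum.inr i)).symm

theorem cone_biInter {δ e : ℕ} {κ : Type*} (s : Finset κ) (Z : κ → Set (σ → ℂ))
    (h : ∀ a ∈ s, IsCone δ (Z a) ∧ Big e (Z a)) :
    IsCone δ (⋂ a ∈ s, Z a) ∧ Big (s.card * e) (⋂ a ∈ s, Z a) := by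
  classical
  induction s using Finset.induction_on with
  | empty =>
    refine ⟨⟨∅, by simp, by simp⟩, fun A hA => ?_⟩
    obtain ⟨a, ha⟩ := exists_gen hA σ
    exact ⟨a, by simp, by simpa using Gen.card_le id ha⟩
  | insert a s ha ih =>
    obtain ⟨h1, h2⟩ := ih fun b hb => h b (Finset.mem_insert_of_mem hb)
    obtain ⟨h3, h4⟩ := h a (Finset.mem_insert_self _ _)
    rw [Finset.set_biInter_insert, Finset.card_insert_of_notMem ha, add_mul, one_mul, add_comm]
    exact ⟨h3.inter h1, h4.inter h3 h1 h2⟩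

/-- Near a point of small codimension boundedly many equations suffice. -/
theorem few_equations {δ e : ℕ} {A : Set ℂ} (F : Finset (MvPolynomial σ ℂ))
    (hF : ∀ f ∈ F, f.totalDegree ≤ δ ∧ Df A f) (v : σ → ℂ)
    (hv : Fintype.card σ ≤ finrank ℂ (Tan A v) + e) :
    ∃ G ⊆ F, G.card ≤ (δ + 1) ^ e ∧ ∀ f ∈ F, ∃ h, eval v h ≠ 0 ∧
      ∀ u, (∀ g ∈ G, eval u g = 0) → eval u h * eval u f = 0 := by
  classical
  obtain ⟨I, hI, hgen⟩ := exists_gen_coords A v
  let L := Const A
  let ψ : MvPolynomial I L →+* MvPolynomial σ ℂ :=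
    (rename Subtype.val).toRingHom.comp (map (algebraMap L ℂ))
  let R := ψ.range
  obtain ⟨s, hs, hmax⟩ := exists_maximal_linearIndepOn R (fun f : F => (f : MvPolynomial σ ℂ))
  let Mon : Finset (MvPolynomial σ ℂ) := Finset.univ.image
    fun c : {i // i ∉ I} → Fin (δ + 1) => ∏ i : {i // i ∉ I}, X i.1 ^ (c i : ℕ)
  have hMon : Mon.card ≤ (δ + 1) ^ e := by
    refine Finset.card_image_le.trans ?_
    simp only [Finset.card_univ, Fintype.card_fun, Fintype.card_fin]
    refine Nat.pow_le_pow_right (by omega) ?_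
    rw [Fintype.card_subtype_compl, Fintype.card_coe]
    omega
  have hspan : ∀ f ∈ F, f ∈ Submodule.span R (Mon : Set (MvPolynomial σ ℂ)) := by
    intro f hf
    rw [f.as_sum]
    refine sum_mem fun m hm => ?_
    have h1 : C (coeff m f) * ∏ i : I, X i.1 ^ m i ∈ R := by
      refine mul_mem (RingHom.mem_range.2 ⟨C ⟨_, (hF f hf).2 m⟩, by simp [ψ]; rfl⟩)
        (prod_mem fun i _ => pow_mem (RingHom.mem_range.2 ⟨X i, by simp [ψ]⟩) _)
    have h2 : ∀ i, m i < δ + 1 := fun i => Nat.lt_succ_of_le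
      ((monomial_le_degreeOf i hm).trans ((degreeOf_le_totalDegree f i).trans (hF f hf).1))
    have h3 : monomial m (coeff m f) =
        (⟨_, h1⟩ : R) • ∏ i : {i // i ∉ I}, X i.1 ^ m i := by
      rw [monomial_eq, Finsupp.prod_fintype _ _ (by simp), Subring.smul_def, smul_eq_mul,
        mul_assoc]
      congr 1
      convert (Fintype.prod_subtype_mul_prod_subtype (· ∈ I)
        (fun i => (X i : MvPolynomial σ ℂ) ^ m i)).symm
    rw [h3]
    refine Submodule.smul_mem _ _ (Submodule.subset_span ?_)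
    exact Finset.mem_coe.2 (Finset.mem_image.2 ⟨fun i => ⟨m i, h2 i⟩, Finset.mem_univ _, rfl⟩)
  have hcard := linearIndependent_le_span_aux' _ hs.linearIndependent
    (Mon : Set (MvPolynomial σ ℂ)) (by rintro _ ⟨i, rfl⟩; exact hspan _ i.1.2)
  refine ⟨s.toFinset.image Subtype.val, ?_, ?_, fun f hf => ?_⟩
  · intro g hg
    obtain ⟨g', -, rfl⟩ := Finset.mem_image.1 hg
    exact g'.2
  · refine Finset.card_image_le.trans (le_trans ?_ hMon)
    simpa [Set.toFinset_card] using hcard
  · by_cases hfs : (⟨f, hf⟩ : F) ∈ s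
    · refine ⟨1, by simp, fun u hu => ?_⟩
      rw [hu f (Finset.mem_image.2 ⟨⟨f, hf⟩, Set.mem_toFinset.2 hfs, rfl⟩), mul_zero]
    · obtain ⟨a, ha0, ha⟩ := hmax _ hfs
      refine ⟨a.1, ?_, fun u hu => ?_⟩
      · obtain ⟨a, g, rfl⟩ := a
        intro h0
        have h4 : map (algebraMap L ℂ) g = 0 := by
          refine hgen.eq_zero (Df_map g) ?_
          rw [← h0]
          simp only [ψ, RingHom.coe_comp, Function.comp_apply, AlgHom.toRingHom_eq_coe,
            RingHom.coe_coe, eval_rename]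
          rfl
        exact ha0 (Subtype.ext (by simp [ψ, h4]))
      · have h5 : ∀ q ∈ Submodule.span R ((fun f : F => (f : MvPolynomial σ ℂ)) '' s),
            eval u q = 0 := by
          intro q hq
          induction hq using Submodule.span_induction with
          | mem x hx =>
            obtain ⟨g, hg, rfl⟩ := hx
            exact hu _ (Finset.mem_image.2 ⟨g, Set.mem_toFinset.2 hg, rfl⟩)
          | zero => simp
          | add x y _ _ hx hy => rw [map_add, hx, hy, add_zero]
          | smul c x _ hx => rw [Subring.smul_def, smul_eq_mul, map_mul, hx, mul_zero]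
        have := h5 _ ha
        rwa [Subring.smul_def, smul_eq_mul, map_mul] at this

/-- Big cones contain large affine subspaces in prescribed block directions. -/
theorem cone_flat {δ e p m : ℕ} (hm : (δ + 1) ^ e * (δ + 1) ^ p < m) {Z : Set (σ → ℂ)}
    (hZ : IsCone δ Z) (hB : Big e Z) (E : Fin p → Fin m → σ → ℂ) {A : Set ℂ} (hA : A.Finite) :
    ∃ v : σ → ℂ, Fintype.card σ ≤ finrank ℂ (Tan A v) + e ∧
      ∃ ω : Fin p → Fin m → ℂ, (∀ l, ω l ≠ 0) ∧
        ∀ z : Fin p → ℂ, v + ∑ l, z l • ∑ u, ω l u • E l u ∈ Z := by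
  obtain ⟨F, hF, hZ⟩ := hZ
  obtain ⟨A', hA', hDf⟩ := exists_Df _ F.finite_toSet
  obtain ⟨v, hv, hrk⟩ := hB (A ∪ A') (hA.union hA')
  have hdeg : ∀ f ∈ F, f.totalDegree ≤ δ := fun f hf => by
    obtain ⟨n, hn, h⟩ := hF f hf
    exact h.totalDegree_le.trans hn
  obtain ⟨G, hGF, hcard, hG⟩ := few_equations F
    (fun f hf => ⟨hdeg f hf, (hDf f hf).mono' Set.subset_union_right⟩) v hrk
  obtain ⟨ω, h0, hω⟩ := exists_flat δ m G (fun g hg => hdeg g (hGF hg)) p {v}
    (by simpa using fun g hg => (hZ v).1 hv g (hGF hg)) E (lt_of_le_of_lt (by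
      rw [Finset.card_singleton, mul_one]
      exact Nat.mul_le_mul_right _ hcard) hm)
  refine ⟨v, hrk.trans ?_, ω, h0, fun z => (hZ _).2 fun f hf => ?_⟩
  · have := Submodule.finrank_mono (Tan_anti (A := A) (B := A ∪ A')
      (Set.subset_union_left.trans (subset_Const _)) v)
    omega
  · obtain ⟨h, hh, H⟩ := hG f hf
    have := eval_zero_of_mul (v := ∑ l, z l • ∑ u, ω l u • E l u) hh (fun t => H _ fun g hg => by
      have := hω v (Finset.mem_singleton_self _) g hg (t • z)
      simpa [Finset.smul_sum, smul_smul, mul_assoc] using this) 1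
    simpa using this

end

end Pool.Agent.Lib.MP_bd85b6_lc
end

-- part Pool.Agent.Lib.MP_bd85b6_lc.Taylor
section

/-! Lines of high contact with a hypersurface at a flexible point. -/

set_option autoImplicit false

namespace Pool.Agent.Lib.MP_bd85b6_lc

open MvPolynomial Module

theorem exists_perp_ne {𝔽 : Type*} [Field 𝔽] {σ : Type*} [Fintype σ] (T : Submodule 𝔽 (σ → 𝔽))
    {u : σ → 𝔽} (hu : u ∉ T) : ∃ ξ : σ → 𝔽, (∀ t ∈ T, ξ ⬝ᵥ t = 0) ∧ ξ ⬝ᵥ u ≠ 0 := by
  classical
  obtain ⟨f, hf0, hf⟩ := Submodule.exists_le_ker_of_notMem hu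
  have key : ∀ t, (fun i => f (Pi.single i 1)) ⬝ᵥ t = f t := by
    intro t
    conv_rhs => rw [pi_eq_sum_univ' t]
    simp [dotProduct, mul_comm]
  exact ⟨fun i => f (Pi.single i 1), fun t ht => by rw [key]; exact hf ht, by rwa [key]⟩

theorem exists_mem_span_of_dep {𝔽 V : Type*} [Field 𝔽] [AddCommGroup V] [Module 𝔽 V] (G : ℕ → V)
    (i : ℕ) (h : ¬ LinearIndependent 𝔽 fun n : Fin i => G n) :
    ∃ n < i, G n ∈ Submodule.span 𝔽 (Set.range fun j : Fin n => G j) := by
  induction i with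
  | zero => exact absurd linearIndependent_empty_type h
  | succ i ih =>
    rw [linearIndependent_finSucc', not_and_or] at h
    rcases h with h | h
    · obtain ⟨n, hn, h'⟩ := ih h
      exact ⟨n, by omega, h'⟩
    · exact ⟨i, by omega, not_not.1 h⟩

variable {σ : Type*} [Fintype σ]

/-- Taylor coefficients of the gradient along a line. -/
noncomputable def GG (F : MvPolynomial σ ℂ) (x v : σ → ℂ) (n : ℕ) : σ → ℂ :=
  fun i => (line x v (pderiv i F)).coeff n

theorem coeff_succ_line (F : MvPolynomial σ ℂ) (x v : σ → ℂ) (n : ℕ) :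
    (line x v F).coeff (n + 1) * (n + 1) = GG F x v n ⬝ᵥ v := by
  have h := der_eval₂ (Polynomial.C : ℂ →+* Polynomial ℂ)
    (Polynomial.derivative' : Derivation ℂ _ _)
    (fun i => Polynomial.C (x i) + Polynomial.X * Polynomial.C (v i)) F (fun m => by simp)
  have h2 : Polynomial.derivative (line x v F) =
      ∑ i, line x v (pderiv i F) * Polynomial.C (v i) := by
    refine h.trans (Finset.sum_congr rfl fun i _ => ?_)
    congr 1
    simp
  rw [← Polynomial.coeff_derivative, h2]
  simp [GG, dotProduct]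

theorem der_coeff_line (F : MvPolynomial σ ℂ) (x v : σ → ℂ) (δ : Dr)
    (hδ : ∀ m, δ (coeff m F) = 0) (n : ℕ) :
    δ ((line x v F).coeff (n + 1)) =
      GG F x v (n + 1) ⬝ᵥ (fun i => δ (x i)) + GG F x v n ⬝ᵥ (fun i => δ (v i)) := by
  let _ : Differential ℂ := ⟨δ⟩
  have hd : ∀ c : ℂ, Differential.deriv c = δ c := fun _ => rfl
  have h := der_eval₂ (Polynomial.C : ℂ →+* Polynomial ℂ) Differential.mapCoeffs
    (fun i => Polynomial.C (x i) + Polynomial.X * Polynomial.C (v i)) F (fun m => by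
      rw [Differential.mapCoeffs_C, hd, hδ, map_zero])
  have h2 : Differential.mapCoeffs (line x v F) = ∑ i, line x v (pderiv i F) *
      (Polynomial.C (δ (x i)) + Polynomial.C (δ (v i)) * Polynomial.X) := by
    refine h.trans (Finset.sum_congr rfl fun i _ => ?_)
    congr 1
    rw [map_add, Derivation.leibniz, Differential.mapCoeffs_C, Differential.mapCoeffs_C,
      Differential.mapCoeffs_X, hd, hd, smul_zero, add_zero, smul_eq_mul, mul_comm]
  rw [← hd, ← Differential.coeff_mapCoeffs, h2]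
  simp only [GG, dotProduct, Polynomial.finset_sum_coeff, mul_add, ← mul_assoc,
    Polynomial.coeff_add, Polynomial.coeff_mul_X, Polynomial.coeff_mul_C, Finset.sum_add_distrib]

/-- The point `x` can be moved in all tangent directions of the hypersurface by derivations. -/
def Flex (F : MvPolynomial σ ℂ) (x : σ → ℂ) : Prop :=
  ∀ w : σ → ℂ, (fun i => eval x (pderiv i F)) ⬝ᵥ w = 0 →
    ∃ δ : Dr, (∀ m, δ (coeff m F) = 0) ∧ ∀ i, δ (x i) = w i

theorem invariance_step {F : MvPolynomial σ ℂ} {x : σ → ℂ} (hF : Flex F x) (v : σ → ℂ) (n : ℕ)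
    (h1 : ∀ j ≤ n, (line x v F).coeff (j + 1) = 0)
    (h2 : GG F x v n ∈ Submodule.span ℂ (Set.range fun j : Fin n => GG F x v j)) :
    (∀ j ≤ n + 1, (line x v F).coeff (j + 1) = 0) ∧
      GG F x v (n + 1) ∈ Submodule.span ℂ (Set.range fun j : Fin (n + 1) => GG F x v j) := by
  obtain ⟨c, hc⟩ := (Submodule.mem_span_range_iff_exists_fun ℂ).1 h2
  have hG0 : GG F x v 0 = fun i => eval x (pderiv i F) := by
    ext i
    rw [GG, Polynomial.coeff_zero_eq_eval_zero, eval_line]
    simp
  have h3 : GG F x v (n + 1) - ∑ j : Fin n, c j • GG F x v (j + 1) ∈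
      Submodule.span ℂ {GG F x v 0} := by
    by_contra hne
    obtain ⟨w, hw, hw'⟩ := exists_perp_ne _ hne
    obtain ⟨δ, hδ, hδx⟩ := hF w (by
      rw [← hG0, dotProduct_comm]
      exact hw _ (Submodule.mem_span_singleton_self _))
    have h4 : ∀ j ≤ n, GG F x v (j + 1) ⬝ᵥ w = - (GG F x v j ⬝ᵥ (fun i => δ (v i))) := by
      intro j hj
      have := der_coeff_line F x v δ hδ j
      rw [h1 j hj, map_zero] at this
      simp only [hδx] at this
      exact eq_neg_of_add_eq_zero_left this.symm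
    apply hw'
    rw [dotProduct_comm, sub_dotProduct, h4 n le_rfl, ← hc, sum_dotProduct, sum_dotProduct,
      ← Finset.sum_neg_distrib, sub_eq_zero]
    refine Finset.sum_congr rfl fun j _ => ?_
    rw [smul_dotProduct, smul_dotProduct, h4 j j.2.le, smul_neg]
  have h5 : GG F x v (n + 1) ∈
      Submodule.span ℂ (Set.range fun j : Fin (n + 1) => GG F x v j) := by
    rw [← sub_add_cancel (GG F x v (n + 1)) (∑ j : Fin n, c j • GG F x v (j + 1))]
    refine add_mem (Submodule.span_mono ?_ h3) (sum_mem fun j _ => Submodule.smul_mem _ _ ?_)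
    · rintro _ rfl
      exact ⟨0, rfl⟩
    · exact Submodule.subset_span ⟨j.succ, rfl⟩
  refine ⟨fun j hj => ?_, h5⟩
  rcases Nat.lt_or_eq_of_le hj with hj | rfl
  · exact h1 j (by omega)
  · have h6 : ∀ u ∈ Submodule.span ℂ (Set.range fun j : Fin (n + 1) => GG F x v j),
        u ⬝ᵥ v = 0 := by
      intro u hu
      induction hu using Submodule.span_induction with
      | mem u hu =>
        obtain ⟨j, rfl⟩ := hu
        rw [← coeff_succ_line, h1 j (by omega), zero_mul]
      | zero => simp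
      | add a b _ _ ha hb => rw [add_dotProduct, ha, hb, add_zero]
      | smul c a _ ha => rw [smul_dotProduct, ha, smul_zero]
    have h7 := h6 _ h5
    rw [← coeff_succ_line] at h7
    exact (mul_eq_zero.1 h7).resolve_right (Nat.cast_add_one_ne_zero _)

theorem invariance {F : MvPolynomial σ ℂ} {x : σ → ℂ} (hF : Flex F x) (h0 : eval x F = 0)
    (v : σ → ℂ) (i : ℕ) (h1 : ∀ j < i, (line x v F).coeff (j + 1) = 0)
    (h2 : ¬ LinearIndependent ℂ fun n : Fin i => GG F x v n) : line x v F = 0 := by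
  obtain ⟨n, hn, h3⟩ := exists_mem_span_of_dep _ i h2
  have key : ∀ m, (∀ j ≤ n + m, (line x v F).coeff (j + 1) = 0) ∧
      GG F x v (n + m) ∈ Submodule.span ℂ (Set.range fun j : Fin (n + m) => GG F x v j) := by
    intro m
    induction m with
    | zero => exact ⟨fun j hj => h1 j (by omega), h3⟩
    | succ m ih => exact invariance_step hF v (n + m) ih.1 ih.2
  ext j
  rcases j with _ | j
  · rw [Polynomial.coeff_zero_eq_eval_zero, eval_line]
    simpa using h0
  · exact (key j).1 j (by omega)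

/-- Directions of high contact with degenerate gradients. -/
def Sig (F : MvPolynomial σ ℂ) (x : σ → ℂ) (r : ℕ) : Set (σ → ℂ) :=
  {v | (∀ j < r, (line x v F).coeff (j + 1) = 0) ∧
    ¬ LinearIndependent ℂ fun n : Fin r => GG F x v n}

theorem sig_cone (F : MvPolynomial σ ℂ) (x : σ → ℂ) (r : ℕ) : IsCone (r * r) (Sig F x r) := by
  classical
  let E : σ → σ → ℂ := fun u => Pi.single u 1
  have hE : ∀ (v : σ → ℂ) (f : MvPolynomial σ ℂ) (n : ℕ),
      (line x v f).coeff n = eval v (homogeneousComponent n (aff x E f)) := by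
    intro v f n
    rw [← coeff_line_aff]
    conv_lhs => rw [pi_eq_sum_univ' v]
  let Mi : (Fin r → σ) → MvPolynomial σ ℂ := fun f =>
    (Matrix.of fun (n j : Fin r) => homogeneousComponent n (aff x E (pderiv (f j) F))).det
  have hMi : ∀ v f, eval v (Mi f) = (Matrix.of fun (n j : Fin r) => GG F x v n (f j)).det := by
    intro v f
    rw [RingHom.map_det]
    congr 1
    ext n j
    simp [GG, hE]
  refine ⟨(Finset.range r).image (fun j => homogeneousComponent (j + 1) (aff x E F)) ∪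
    Finset.univ.image Mi, fun f hf => ?_, fun v => ?_⟩
  · rcases Finset.mem_union.1 hf with hf | hf
    · obtain ⟨j, hj, rfl⟩ := Finset.mem_image.1 hf
      have := Finset.mem_range.1 hj
      exact ⟨j + 1, by nlinarith, homogeneousComponent_isHomogeneous _ _⟩
    · obtain ⟨f, -, rfl⟩ := Finset.mem_image.1 hf
      refine ⟨∑ n : Fin r, (n : ℕ), ?_, ?_⟩
      · simpa using Finset.sum_le_card_nsmul Finset.univ (fun n : Fin r => (n : ℕ)) r
          fun n _ => n.2.le
      · simp only [Mi]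
        rw [Matrix.det_apply']
        refine IsHomogeneous.sum _ _ _ fun π _ => ?_
        rw [← Equiv.sum_comp π, ← map_intCast (C : ℂ →+* MvPolynomial σ ℂ)]
        exact (IsHomogeneous.prod _ _ _ fun n _ => homogeneousComponent_isHomogeneous _ _).C_mul _
  · simp only [Sig, Set.mem_setOf_eq, linInd_iff_minor, Finset.mem_union, Finset.mem_image,
      Finset.mem_range, Finset.mem_univ, true_and, or_imp, forall_and, forall_exists_index,
      and_imp, forall_apply_eq_imp_iff₂, forall_apply_eq_imp_iff, hMi, hE, not_exists, not_not]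

theorem sig_big {F : MvPolynomial σ ℂ} {x : σ → ℂ} (hF : Flex F x) (h0 : eval x F = 0) (r : ℕ)
    (H : ∀ M : σ → Fin r → ℂ, ∃ i ≤ r, ∃ w : Fin r → ℂ, w ≠ 0 ∧ (∀ j : Fin r, i ≤ j → w j = 0) ∧
      ∀ n < i, (line x (fun a => ∑ j, M a j * w j) F).coeff (n + 1) = 0) :
    Big r (Sig F x r) := by
  classical
  intro A hA
  obtain ⟨A', hA', hDf⟩ := exists_Df {F} (Set.finite_singleton F)
  have hDF := hDf F rfl
  obtain ⟨M, hM⟩ := exists_gen ((hA.union hA').union (Set.finite_range x)) (σ × Fin r)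
  obtain ⟨i, hi, w, hw, hwi, hw0⟩ := H fun a j => M (a, j)
  obtain ⟨l, hl⟩ := Function.ne_iff.1 hw
  have hl' : w l ≠ 0 := hl
  let J : Finset (Fin r) := Finset.univ.filter fun j => (j : ℕ) < i
  have hJ : J.card ≤ i := by
    rw [← Finset.card_range i]
    exact Finset.card_le_card_of_injOn (fun j => (j : ℕ))
      (fun j hj => by simpa [J] using hj) (fun a _ b _ h => Fin.ext h)
  have h1 := gen_matrix (fun a j => M (a, j)) hM ((w l)⁻¹ • w) J l
    (by
      by_contra h
      exact hl' (hwi l (by simpa [J] using h)))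
    (by simpa using inv_mul_cancel₀ hl') (fun j hj => by
      rw [Pi.smul_apply, hwi j (by simpa [J] using hj), smul_zero])
  set v : σ → ℂ := fun a => ∑ j, M (a, j) * ((w l)⁻¹ • w) j with hv
  have hv0 : ∀ n < i, (line x v F).coeff (n + 1) = 0 := by
    intro n hn
    have h2 : ∀ w' : Fin r → ℂ, (fun a => ∑ j, M (a, j) * w' j) =
        ∑ j, w' j • fun a => M (a, j) := by
      intro w'
      ext a
      simp [mul_comm]
    have h3 := hw0 n hn
    rw [h2, coeff_line_aff] at h3
    rw [hv, h2, coeff_line_aff, eval_smul_hom _ _ (homogeneousComponent_isHomogeneous _ _), h3,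
      mul_zero]
  have hdep : ¬ LinearIndependent ℂ fun n : Fin i => GG F x v n := by
    intro hind
    have := perp_card (Tan (A ∪ A' ∪ Set.range x) v) _ hind (fun n t ht => by
      obtain ⟨δ, hδ, h⟩ := mem_Tan.1 ht
      have h4 := der_coeff_line F x v δ (fun m => hDF m δ (D_anti' (fun a ha => by simp [ha]) hδ)) n
      have h5 : ∀ a, δ (x a) = 0 := fun a => hδ _ (Or.inr ⟨a, rfl⟩)
      rw [hv0 n n.2, map_zero] at h4
      simp only [h5, h] at h4
      simpa [dotProduct] using h4.symm)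
    rw [Fintype.card_fin] at this
    omega
  have hline := invariance hF h0 v i hv0 hdep
  refine ⟨v, ⟨fun j _ => by rw [hline, Polynomial.coeff_zero], fun hind => hdep ?_⟩, ?_⟩
  · exact hind.comp (Fin.castLE hi) (Fin.castLE_injective hi)
  · have := Submodule.finrank_mono (Tan_anti (A := A) (B := A ∪ A' ∪ Set.range x)
      (fun a ha => mem_Const_of_mem (by simp [ha])) v)
    omega

theorem sig_line {F : MvPolynomial σ ℂ} {x : σ → ℂ} (hF : Flex F x) (h0 : eval x F = 0) {r : ℕ}
    {v : σ → ℂ} (hv : v ∈ Sig F x r) (t : ℂ) : eval (x + t • v) F = 0 := by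
  rw [← eval_line, invariance hF h0 v r hv.1 hv.2, Polynomial.eval_zero]

end Pool.Agent.Lib.MP_bd85b6_lc
end

-- part Pool.Agent.Lib.MP_bd85b6_lc.Flex
section

/-! Generic members of the linear system attached to a circuit. -/

set_option autoImplicit false

namespace Pool.Agent.Lib.MP_bd85b6_lc

open MvPolynomial

variable {ι : Type*} [Fintype ι] [DecidableEq ι] {n : ℕ}

theorem Gen.lin_eq_zero {A : Set ℂ} {κ : Type*} [Fintype κ] {y c : κ → ℂ} (hy : Gen A y)
    (hc : ∀ l, c l ∈ Const A) (h : ∑ l, y l * c l = 0) (l : κ) : c l = 0 := by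
  classical
  obtain ⟨δ, hδ, h1⟩ := hy (Pi.single l 1)
  have := congrArg δ h
  simpa [map_sum, h1, hc _ δ hδ, Pi.single_apply] using this

theorem const_of_dual {ν lam : Fin n → ι → ℂ} {lam1 τ S : ι → ℂ}
    (P3 : ∀ i j, (if i = j then 1 else 0) = ∑ l, ν l i * lam l j + lam1 j + τ i * S j)
    (B : ι → ℂ) (h1 : ∀ l, ∑ j, lam l j * B j = 0) (h2 : ∑ j, S j * B j = 0) (i : ι) :
    B i = ∑ j, lam1 j * B j := by
  have h3 : B i = ∑ j, (if i = j then 1 else 0) * B j := by simp
  rw [h3]
  simp only [P3, add_mul, Finset.sum_add_distrib, mul_assoc, ← Finset.mul_sum, h2, mul_zero,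
    add_zero, Finset.sum_mul]
  rw [Finset.sum_comm]
  simp only [← Finset.mul_sum, h1, mul_zero, Finset.sum_const_zero, zero_add]

theorem unit_lemma {A : Set ℂ} {ν lam : Fin n → ι → ℂ} {lam1 τ S : ι → ℂ}
    (P1 : ∀ l, ∑ j, lam l j = 0)
    (P3 : ∀ i j, (if i = j then 1 else 0) = ∑ l, ν l i * lam l j + lam1 j + τ i * S j)
    {y : Fin n → ℂ} (hy : Gen A y) (hlam : ∀ l j, lam l j ∈ Const A) (m : ι → ℕ) (j1 : ι)
    (hm : ∀ j, m j ≠ m j1 → S j = 0) (h : ∑ j, (∑ l, y l * lam l j) * m j = 0) (a b : ι) :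
    m a = m b := by
  have h1 : ∀ l, ∑ j, lam l j * m j = 0 := hy.lin_eq_zero
    (fun l => sum_mem fun j _ => mul_mem (hlam l j) (natCast_mem _ _)) (by
      rw [← h]
      simp only [Finset.mul_sum, Finset.sum_mul, mul_assoc]
      exact Finset.sum_comm)
  have h2 := const_of_dual P3 (fun j => (m j : ℂ) - m j1) (fun l => by
    simp only [mul_sub, Finset.sum_sub_distrib, h1, ← Finset.sum_mul, P1, zero_mul, sub_zero])
    (Finset.sum_eq_zero fun j _ => by
      by_cases hj : m j = m j1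
      · simp [hj]
      · simp [hm j hj])
  have h3 := (h2 a).trans (h2 b).symm
  exact_mod_cast sub_left_injective h3

theorem flex_lemma {σ : Type*} [Fintype σ] {A A' : Set ℂ} (hAA : A ⊆ Const A')
    {ν lam : Fin n → ι → ℂ} {lam1 τ S : ι → ℂ} (P1 : ∀ l, ∑ j, lam l j = 0)
    (P3 : ∀ i j, (if i = j then 1 else 0) = ∑ l, ν l i * lam l j + lam1 j + τ i * S j)
    {y : Fin n → ℂ} (hy : Gen A' y) (hlam : ∀ l j, lam l j ∈ Const A')
    {P : ι → MvPolynomial σ ℂ} (hP : ∀ j, Df A (P j)) (hsum : ∑ j, P j = 0) {x : σ → ℂ}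
    (hx : Gen A x) (hxA : ∀ i, x i ∈ Const A') (hs : ∀ j, eval x (P j) ≠ 0) {g : ℂ}
    (hg : ∀ j, eval x (P j) = g * S j) :
    Flex (∑ j, C ((∑ l, y l * lam l j) / eval x (P j)) * P j) x ∧
      eval x (∑ j, C ((∑ l, y l * lam l j) / eval x (P j)) * P j) = 0 := by
  set c : ι → ℂ := fun j => (∑ l, y l * lam l j) / eval x (P j) with hc
  have h0 : ∑ j, c j * eval x (P j) = 0 := by
    simp only [hc, div_mul_cancel₀ _ (hs _)]
    rw [Finset.sum_comm]
    simp only [← Finset.mul_sum, P1, mul_zero, Finset.sum_const_zero]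
  refine ⟨fun w hw => ?_, by simpa using h0⟩
  obtain ⟨δ0, hδ0, h1⟩ := hx w
  let z : ι → ℂ := fun j => δ0 (c j) * eval x (P j)
  have hz : ∑ j, z j = 0 := by
    have h2 := congrArg δ0 h0
    rw [map_sum, map_zero] at h2
    simp only [Derivation.leibniz, smul_eq_mul, der_eval hδ0 x (hP _), h1,
      Finset.sum_add_distrib] at h2
    have h3 : ∑ j, c j * ∑ i, eval x (pderiv i (P j)) * w i = 0 := by
      rw [← hw]
      simp only [dotProduct, map_sum, pderiv_C_mul, map_mul, eval_C, Finset.sum_mul, Finset.mul_sum,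
        mul_assoc]
      exact Finset.sum_comm
    rw [h3, zero_add] at h2
    simpa only [z, mul_comm] using h2
  have hz2 : ∀ j, z j = ∑ l, (∑ i, ν l i * z i) * lam l j + (∑ i, τ i * z i) * S j := by
    intro j
    have h3 : z j = ∑ i, (if i = j then 1 else 0) * z i := by simp
    rw [h3]
    simp only [P3, add_mul, Finset.sum_add_distrib, ← Finset.mul_sum, hz, mul_zero,
      add_zero, Finset.sum_mul]
    rw [Finset.sum_comm]
    congr 1
    · exact Finset.sum_congr rfl fun l _ => Finset.sum_congr rfl fun i _ => by ring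
    · exact Finset.sum_congr rfl fun i _ => by ring
  obtain ⟨δ1, hδ1, h4⟩ := hy fun l => -∑ i, ν l i * z i
  have hδ1A : δ1 ∈ D A := D_anti hAA hδ1
  have h5 : ∀ j, (δ0 + δ1) (c j) = (∑ i, τ i * z i) / g := by
    intro j
    have h6 : δ1 (eval x (P j)) = 0 := ((hP j).mono hAA).eval_mem hxA δ1 hδ1
    have h7 : δ1 (c j) * eval x (P j) = -∑ l, (∑ i, ν l i * z i) * lam l j := by
      have h8 := congrArg δ1 (div_mul_cancel₀ (∑ l, y l * lam l j) (hs j))
      rw [Derivation.leibniz, h6, smul_zero, zero_add, smul_eq_mul, mul_comm, map_sum] at h8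
      rw [h8, ← Finset.sum_neg_distrib]
      refine Finset.sum_congr rfl fun l _ => ?_
      rw [Derivation.leibniz, hlam l j δ1 hδ1, h4, smul_zero, zero_add, smul_eq_mul]
      ring
    have hg0 : g ≠ 0 := left_ne_zero_of_mul (hg j ▸ hs j)
    apply mul_right_cancel₀ (hs j)
    rw [Derivation.add_apply, add_mul, h7]
    change z j + _ = _
    rw [hz2 j, hg j]
    field_simp
    ring
  refine ⟨δ0 + δ1, fun m => ?_, fun i => by simp [h1, hxA i δ1 hδ1]⟩
  have h9 : ∀ j, (δ0 + δ1) (coeff m (P j)) = 0 := fun j => hP j m _ (add_mem hδ0 hδ1A)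
  rw [coeff_sum, map_sum]
  simp only [coeff_C_mul]
  have h10 : ∀ j, (δ0 + δ1) (c j * coeff m (P j)) = (∑ i, τ i * z i) / g * coeff m (P j) := by
    intro j
    rw [Derivation.leibniz, h9, h5, smul_zero, zero_add, smul_eq_mul, mul_comm]
  rw [Finset.sum_congr rfl fun j _ => h10 j, ← Finset.mul_sum, ← coeff_sum, hsum, coeff_zero,
    mul_zero]

end Pool.Agent.Lib.MP_bd85b6_lc
end

-- part Pool.Agent.Lib.MP_bd85b6_lc.Null
section

/-! The space spanned by syzygies of small degree and its circuits. -/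

set_option autoImplicit false

namespace Pool.Agent.Lib.MP_bd85b6_lc

open Polynomial Module

section circuits
variable {𝔽 : Type*} [Field 𝔽] {ι : Type*} [Fintype ι]

/-- A minimal support of a nonzero vector of `U`. -/
def IsCirc (U : Submodule 𝔽 (ι → 𝔽)) (C : Finset ι) : Prop :=
  (∃ x ∈ U, ∀ j, x j ≠ 0 ↔ j ∈ C) ∧ C.Nonempty ∧
    ∀ y ∈ U, (∀ j ∉ C, y j = 0) → (∃ j ∈ C, y j = 0) → y = 0

theorem exists_circ (U : Submodule 𝔽 (ι → 𝔽)) {x : ι → 𝔽} (hx : x ∈ U) (h0 : x ≠ 0) :
    ∃ C, IsCirc U C ∧ ∀ j ∈ C, x j ≠ 0 := by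
  classical
  let s : (ι → 𝔽) → Finset ι := fun y => Finset.univ.filter fun j => y j ≠ 0
  have hex : ∃ n, ∃ y ∈ U, y ≠ 0 ∧ s y ⊆ s x ∧ (s y).card = n := ⟨_, x, hx, h0, le_rfl, rfl⟩
  obtain ⟨y, hy, hy0, hyx, hn⟩ := Nat.find_spec hex
  refine ⟨s y, ⟨⟨y, hy, fun j => by simp [s]⟩, ?_, fun z hz hz1 ⟨j, hj, hz2⟩ => ?_⟩,
    fun j hj => by simpa [s] using hyx hj⟩
  · obtain ⟨j, hj⟩ := Function.ne_iff.1 hy0
    exact ⟨j, by simpa [s] using hj⟩
  · by_contra hz0
    have h1 : s z ⊂ s y := by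
      refine ⟨fun i hi => ?_, fun h => ?_⟩
      · by_contra h
        exact (Finset.mem_filter.1 hi).2 (hz1 i h)
      · exact (Finset.mem_filter.1 (h hj)).2 hz2
    have h2 := Nat.find_min' hex ⟨z, hz, hz0, h1.1.trans hyx, rfl⟩
    have := Finset.card_lt_card h1
    omega

theorem le_span_circ (U : Submodule 𝔽 (ι → 𝔽)) (ξ : Finset ι → ι → 𝔽)
    (hξ : ∀ C, IsCirc U C → ξ C ∈ U ∧ ∀ j, ξ C j ≠ 0 ↔ j ∈ C) :
    U ≤ Submodule.span 𝔽 (ξ '' {C | IsCirc U C}) := by
  classical
  intro x hx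
  induction hn : (Finset.univ.filter fun j => x j ≠ 0).card using Nat.strong_induction_on
    generalizing x with
  | _ n ih =>
    by_cases h0 : x = 0
    · rw [h0]; exact zero_mem _
    obtain ⟨C, hC, hCx⟩ := exists_circ U hx h0
    obtain ⟨j, hj⟩ := hC.2.1
    have hξj := ((hξ C hC).2 j).2 hj
    rw [← sub_add_cancel x ((x j / ξ C j) • ξ C)]
    refine add_mem (ih _ ?_ (sub_mem hx (U.smul_mem _ (hξ C hC).1)) rfl)
      (Submodule.smul_mem _ _ (Submodule.subset_span ⟨C, hC, rfl⟩))
    rw [← hn]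
    refine Finset.card_lt_card ⟨fun i hi => ?_, fun h => ?_⟩
    · simp only [Finset.mem_filter, Finset.mem_univ, true_and] at hi ⊢
      intro h
      have : ξ C i = 0 := by
        by_contra h'
        exact hCx i (((hξ C hC).2 i).1 h') h
      simp [h, this] at hi
    · have := h (Finset.mem_filter.2 ⟨Finset.mem_univ j, hCx j hj⟩)
      simp [div_mul_cancel₀ _ hξj] at this

end circuits

variable {R : Type*} [CommRing R] [IsDomain R] {ι : Type*} [Fintype ι]

/-- Vectors of polynomials as vectors of fractions. -/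
noncomputable def toF (w : ι → R[X]) : ι → FractionRing R[X] :=
  fun j => algebraMap R[X] (FractionRing R[X]) (w j)

omit [Fintype ι] in
theorem toF_eq_zero {w : ι → R[X]} {j : ι} : toF w j = 0 ↔ w j = 0 :=
  map_eq_zero_iff _ (IsFractionRing.injective _ _)

/-- `U` is spanned by polynomial vectors of degree at most `e`. -/
def SpanDeg (U : Submodule (FractionRing R[X]) (ι → FractionRing R[X])) (e : ℕ) : Prop :=
  U ≤ Submodule.span _ (toF '' {w | toF w ∈ U ∧ ∀ j, (w j).natDegree ≤ e})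

omit [Fintype ι] in
theorem SpanDeg.section {U : Submodule (FractionRing R[X]) (ι → FractionRing R[X])} {e : ℕ}
    (h : SpanDeg U e) (j : ι) : SpanDeg (U ⊓ LinearMap.ker (LinearMap.proj j)) (2 * e) := by
  by_cases hj : ∃ w0 : ι → R[X], toF w0 ∈ U ∧ (∀ i, (w0 i).natDegree ≤ e) ∧ w0 j ≠ 0
  · obtain ⟨w0, h1, h2, h3⟩ := hj
    have key : ∀ x ∈ Submodule.span (FractionRing R[X])
        (toF '' {w | toF w ∈ U ∧ ∀ j, (w j).natDegree ≤ e}),
        toF w0 j • x - x j • toF w0 ∈ Submodule.span (FractionRing R[X])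
          (toF '' {w | toF w ∈ U ⊓ LinearMap.ker (LinearMap.proj j) ∧
            ∀ i, (w i).natDegree ≤ 2 * e}) := by
      intro x hx
      induction hx using Submodule.span_induction with
      | mem x hx =>
        obtain ⟨w, hw, rfl⟩ := hx
        have e1 : toF (fun i => w0 j * w i - w j * w0 i) = toF w0 j • toF w - toF w j • toF w0 := by
          ext i
          simp [toF, Algebra.smul_def]
        refine Submodule.subset_span ⟨_, ⟨?_, fun i => ?_⟩, e1⟩
        · rw [e1]
          exact ⟨sub_mem (U.smul_mem _ hw.1) (U.smul_mem _ h1), by simp [mul_comm]⟩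
        · refine (natDegree_sub_le _ _).trans (max_le (natDegree_mul_le.trans ?_)
            (natDegree_mul_le.trans ?_))
          · have := h2 j; have := hw.2 i; omega
          · have := h2 i; have := hw.2 j; omega
      | zero => simp
      | add x y _ _ hx hy =>
        rw [smul_add, Pi.add_apply, add_smul, add_sub_add_comm]
        exact add_mem hx hy
      | smul c x _ hx =>
        rw [smul_comm, Pi.smul_apply, smul_assoc, ← smul_sub]
        exact Submodule.smul_mem _ _ hx
    intro x hx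
    have h4 := key x (h hx.1)
    have h5 : x j = 0 := hx.2
    rw [h5, zero_smul, sub_zero] at h4
    exact (Submodule.smul_mem_iff _ (mt toF_eq_zero.1 h3)).1 h4
  · push Not at hj
    refine inf_le_left.trans (h.trans (Submodule.span_mono (Set.image_mono fun w hw => ?_)))
    exact ⟨⟨hw.1, toF_eq_zero.2 (hj w hw.1 hw.2)⟩, fun i => (hw.2 i).trans (by omega)⟩

theorem SpanDeg.exists_poly {U : Submodule (FractionRing R[X]) (ι → FractionRing R[X])} {e : ℕ}
    (h : SpanDeg U e) (C : Finset ι) {x : ι → FractionRing R[X]} (hx : x ∈ U) (h0 : x ≠ 0)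
    (hC : ∀ j ∉ C, x j = 0) : ∃ w : ι → R[X], w ≠ 0 ∧ toF w ∈ U ∧ (∀ j ∉ C, w j = 0) ∧
      ∀ j, (w j).natDegree ≤ 2 ^ Fintype.card ι * e := by
  classical
  have key : ∀ J : Finset ι, SpanDeg (U ⊓ ⨅ j ∈ J, LinearMap.ker (LinearMap.proj j))
      (2 ^ J.card * e) := by
    intro J
    induction J using Finset.induction_on with
    | empty => simpa using h
    | insert j J hj ih =>
      have := ih.section j
      rwa [Finset.iInf_insert, Finset.card_insert_of_notMem hj, pow_succ', mul_assoc, inf_comm _ (⨅ _ ∈ J, _),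
        ← inf_assoc]
  have h1 := key Cᶜ (show x ∈ _ from ⟨hx, by simpa [Submodule.mem_iInf] using hC⟩)
  by_contra hcon
  push Not at hcon
  refine h0 ((Submodule.mem_bot _).1 ((Submodule.span_eq_bot.2 ?_).le h1))
  rintro _ ⟨w, ⟨⟨h2, h3⟩, h4⟩, rfl⟩
  by_contra h5
  obtain ⟨j, hj⟩ := hcon w (fun h6 => h5 (by ext j; simp [h6, toF])) h2 (fun j hj =>
    toF_eq_zero.1 (by
      have := (Submodule.mem_iInf _).1 ((Submodule.mem_iInf _).1 h3 j) (Finset.mem_compl.2 hj)
      exact this))
  have h7 : 2 ^ Cᶜ.card * e ≤ 2 ^ Fintype.card ι * e :=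
    Nat.mul_le_mul_right _ (Nat.pow_le_pow_right (by norm_num) (Finset.card_le_univ _))
  have := h4 j
  omega

/-- The span of the syzygies of degree at most `e`. -/
noncomputable def NS (T : ι → R[X]) (e : ℕ) :
    Submodule (FractionRing R[X]) (ι → FractionRing R[X]) :=
  Submodule.span _ (toF '' {w | ∑ j, w j * T j = 0 ∧ ∀ j, (w j).natDegree ≤ e})

theorem NS_mono (T : ι → R[X]) {e e' : ℕ} (h : e ≤ e') : NS T e ≤ NS T e' :=
  Submodule.span_mono (Set.image_mono fun _ hw => ⟨hw.1, fun j => (hw.2 j).trans h⟩)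

theorem spanDeg_NS (T : ι → R[X]) (e : ℕ) : SpanDeg (NS T e) e :=
  Submodule.span_mono (Set.image_mono fun w hw => ⟨Submodule.subset_span ⟨w, hw, rfl⟩, hw.2⟩)

theorem toF_dot (w T : ι → R[X]) :
    toF w ⬝ᵥ toF T = algebraMap _ (FractionRing R[X]) (∑ j, w j * T j) := by
  simp [toF, dotProduct]

theorem NS_perp (T : ι → R[X]) (e : ℕ) : ∀ x ∈ NS T e, x ⬝ᵥ toF T = 0 := by
  intro x hx
  induction hx using Submodule.span_induction with
  | mem x hx =>
    obtain ⟨w, hw, rfl⟩ := hx
    rw [toF_dot, hw.1, map_zero]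
  | zero => simp
  | add x y _ _ hx hy => rw [add_dotProduct, hx, hy, add_zero]
  | smul c x _ hx => rw [smul_dotProduct, hx, smul_zero]

theorem syz_of_mem_NS {T w : ι → R[X]} {e : ℕ} (h : toF w ∈ NS T e) : ∑ j, w j * T j = 0 := by
  have := NS_perp T e _ h
  rwa [toF_dot, map_eq_zero_iff _ (IsFractionRing.injective _ _)] at this

theorem exists_gap (f : ℕ → ℕ) (k : ℕ) (hf : ∀ j, f j ≤ k) (hanti : ∀ j, f (j + 1) ≤ f j) :
    ∃ j, 1 ≤ j ∧ j ≤ k + 1 ∧ f (j + 1) = f j := by
  by_contra h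
  push Not at h
  have key : ∀ n ≤ k + 1, f (n + 1) + n ≤ f 1 := by
    intro n
    induction n with
    | zero => simp
    | succ n ih =>
      intro hn
      have h1 := ih (by omega)
      have h2 := h (n + 1) (by omega) hn
      have h3 := hanti (n + 1)
      omega
  have := key (k + 1) le_rfl
  have := hf 1
  omega

theorem null_data (T : ι → R[X]) (hT0 : ∀ i, T i ≠ 0) (hsum : ∑ j, T j = 0) (A D : ℕ) (i0 : ι)
    (hcop : ∀ B : R[X], B ≠ 0 → (∀ j, T i0 ∣ B * T j) → D ≤ B.natDegree)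
    (hA : Fintype.card ι * 2 ^ Fintype.card ι < A) (hD : 0 < D) :
    ∃ e e', A * e ≤ e' ∧ D < A ^ (Fintype.card ι + 1) * (e' + 1) ∧ e' ≤ D ∧
      ∃ (𝒞 : Finset (Finset ι)) (μ : Finset ι → ι → R[X]),
        (∀ C ∈ 𝒞, (∀ j, μ C j ≠ 0 ↔ j ∈ C) ∧ C.Nonempty ∧ ∑ j, μ C j * T j = 0 ∧
          (∀ j, (μ C j).natDegree ≤ 2 ^ Fintype.card ι * e) ∧
          ∀ w : ι → R[X], ∑ j, w j * T j = 0 → (∀ j, (w j).natDegree ≤ e') → (∀ j ∉ C, w j = 0) →
            (∃ j ∈ C, w j = 0) → w = 0) ∧
        (∃ h : R[X], h ≠ 0 ∧ ∃ α : Finset ι → R[X], ∀ j, h = ∑ C ∈ 𝒞, α C * μ C j) ∧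
        ∃ z : ι → R[X], (∀ C ∈ 𝒞, ∑ j, z j * μ C j = 0) ∧ ∃ i j, z i * T j ≠ z j * T i := by
  classical
  set k := Fintype.card ι with hk
  have hA0 : 0 < A := by omega
  obtain ⟨j0, hj1, hj2, hgap⟩ := exists_gap (fun j => finrank _ (NS T (D / A ^ j))) k
    (fun j => by simpa using Submodule.finrank_le (NS T (D / A ^ j)))
    (fun j => Submodule.finrank_mono (NS_mono T (Nat.div_le_div_left
      (Nat.pow_le_pow_right hA0 (by omega)) (by positivity))))
  set e := D / A ^ (j0 + 1) with he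
  set e' := D / A ^ j0 with he'
  have hee' : A * e ≤ e' := by
    rw [he, pow_succ, ← Nat.div_div_eq_div_mul]
    exact Nat.mul_div_le _ _
  have hAe' : A * e' ≤ D := by
    calc A * e' ≤ A ^ j0 * e' := Nat.mul_le_mul_right _ (Nat.le_self_pow (by omega) _)
      _ ≤ D := Nat.mul_div_le _ _
  have hNeq : NS T e = NS T e' := Submodule.eq_of_le_of_finrank_eq
    (NS_mono T (le_trans (Nat.le_mul_of_pos_left _ hA0) hee')) hgap
  let U := NS T e
  have hμ : ∀ C, ∃ w : ι → R[X], IsCirc U C → toF w ∈ U ∧ (∀ j, w j ≠ 0 ↔ j ∈ C) ∧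
      ∀ j, (w j).natDegree ≤ 2 ^ k * e := by
    intro C
    by_cases hC : IsCirc U C
    · obtain ⟨⟨x, hx, hxC⟩, ⟨j, hj⟩, hmin⟩ := hC
      obtain ⟨w, h0, h1, h2, h3⟩ := (spanDeg_NS T e).exists_poly C hx
        (fun h => (hxC j).2 hj (by simp [h])) (fun j hj => by
          by_contra h
          exact hj ((hxC j).1 h))
      refine ⟨w, fun _ => ⟨h1, fun j => ⟨fun h => ?_, fun hj h => h0 ?_⟩, h3⟩⟩
      · by_contra h'
        exact h (h2 j h')
      · have := hmin _ h1 (fun j hj => toF_eq_zero.2 (h2 j hj)) ⟨j, hj, toF_eq_zero.2 h⟩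
        ext1 i
        exact toF_eq_zero.1 (congrFun this i)
    · exact ⟨0, fun h => absurd h hC⟩
  choose μ hμ using hμ
  have hspan := le_span_circ U (fun C => toF (μ C)) fun C hC =>
    ⟨(hμ C hC).1, fun j => by rw [← (hμ C hC).2.1 j, Ne, toF_eq_zero]⟩
  refine ⟨e, e', hee', ?_, le_trans (Nat.le_mul_of_pos_left _ hA0) hAe',
    Finset.univ.filter (IsCirc U), μ, fun C hC => ?_, ?_, ?_⟩
  · calc D < A ^ j0 * (e' + 1) := Nat.lt_mul_div_succ _ (by positivity)
      _ ≤ _ := Nat.mul_le_mul_right _ (Nat.pow_le_pow_right hA0 hj2)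
  · have hC' := (Finset.mem_filter.1 hC).2
    refine ⟨(hμ C hC').2.1, hC'.2.1, syz_of_mem_NS (hμ C hC').1, (hμ C hC').2.2,
      fun w h1 h2 h3 ⟨j, hj, h4⟩ => ?_⟩
    have := hC'.2.2 (toF w) (by
      simp only [U]; rw [hNeq]; exact Submodule.subset_span ⟨w, ⟨h1, h2⟩, rfl⟩)
      (fun j hj => toF_eq_zero.2 (h3 j hj)) ⟨j, hj, toF_eq_zero.2 h4⟩
    ext1 i
    exact toF_eq_zero.1 (congrFun this i)
  · have h1 : toF (1 : ι → R[X]) ∈ U :=
      Submodule.subset_span ⟨1, ⟨by simpa using hsum, by simp⟩, rfl⟩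
    have h2 := hspan h1
    rw [show {C | IsCirc U C} = ((Finset.univ.filter (IsCirc U) : Finset _) : Set _) by
      ext C; simp] at h2
    obtain ⟨a, ha⟩ := (Submodule.mem_span_image_finset_iff_exists_fun' _).1 h2
    obtain ⟨h, hh⟩ := IsLocalization.exist_integer_multiples_of_finite (nonZeroDivisors R[X]) a
    choose α hα using hh
    refine ⟨h, nonZeroDivisors.coe_ne_zero h, α, fun j => ?_⟩
    apply IsFractionRing.injective R[X] (FractionRing R[X])
    have h3 := congrFun ha j
    simp only [Finset.sum_apply, Pi.smul_apply, smul_eq_mul, toF, Pi.one_apply, map_one] at h3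
    simp only [map_sum, map_mul, hα, Algebra.smul_def, mul_assoc, ← Finset.mul_sum, h3, mul_one]
  · obtain ⟨u, hu, huU⟩ : ∃ u, u ⬝ᵥ toF T = 0 ∧ u ∉ U := by
      by_contra hcon
      push Not at hcon
      have h1 : ∀ j, ∃ b : R[X], b ≠ 0 ∧ b.natDegree ≤ 2 ^ k * e ∧ T i0 ∣ b * T j := by
        intro j
        by_cases hj : j = i0
        · exact ⟨1, one_ne_zero, by simp, by simp [hj]⟩
        · obtain ⟨w, h0, h1, h2, h3⟩ := (spanDeg_NS T e).exists_poly {i0, j}
            (x := Pi.single i0 (toF T j) - Pi.single j (toF T i0))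
            (hcon _ (by simp [sub_dotProduct, mul_comm])) (fun h => by
              have := congrFun h i0
              simp [Pi.single_eq_of_ne (Ne.symm hj), toF_eq_zero, hT0] at this) (fun l hl => by
              simp only [Finset.mem_insert, Finset.mem_singleton, not_or] at hl
              simp [Pi.single_eq_of_ne hl.1, Pi.single_eq_of_ne hl.2])
          have h4 := syz_of_mem_NS h1
          rw [← Finset.sum_subset (Finset.subset_univ {i0, j}) (fun l _ hl => by simp [h2 l hl]),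
            Finset.sum_pair (Ne.symm hj)] at h4
          refine ⟨w j, fun h5 => h0 ?_, h3 j, ⟨-w i0, by linear_combination h4⟩⟩
          rw [h5, zero_mul, add_zero] at h4
          have h6 := (mul_eq_zero.1 h4).resolve_right (hT0 i0)
          ext1 l
          by_cases hl : l ∈ ({i0, j} : Finset ι)
          · rcases Finset.mem_insert.1 hl with rfl | hl
            · exact h6
            · rw [Finset.mem_singleton.1 hl]; exact h5
          · exact h2 l hl
      choose b hb0 hb1 hb2 using h1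
      have h2 := hcop (∏ j, b j) (Finset.prod_ne_zero_iff.2 fun j _ => hb0 j) fun j =>
        (hb2 j).trans (mul_dvd_mul_right (Finset.dvd_prod_of_mem _ (Finset.mem_univ j)) _)
      have h3 : (∏ j, b j).natDegree ≤ k * (2 ^ k * e) := by
        refine (natDegree_prod_le _ _).trans ?_
        simpa using Finset.sum_le_card_nsmul Finset.univ _ _ fun j _ => hb1 j
      have h4 : e ≤ e' := le_trans (Nat.le_mul_of_pos_left _ hA0) hee'
      have h5 : k * (2 ^ k * e) ≤ k * 2 ^ k * e' := by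
        rw [← mul_assoc]; exact Nat.mul_le_mul_left _ h4
      rcases Nat.eq_zero_or_pos e' with h6 | h6
      · rw [h6] at h5; omega
      · have := Nat.mul_lt_mul_of_pos_right hA h6
        omega
    obtain ⟨ξ, hξ, hξu⟩ := exists_perp_ne U huU
    obtain ⟨c, hc⟩ := IsLocalization.exist_integer_multiples_of_finite (nonZeroDivisors R[X]) ξ
    choose z hz using hc
    have hc0 : algebraMap R[X] (FractionRing R[X]) c ≠ 0 :=
      (map_ne_zero_iff _ (IsFractionRing.injective _ _)).2 (nonZeroDivisors.coe_ne_zero c)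
    have hz' : toF z = algebraMap R[X] (FractionRing R[X]) c • ξ := by
      ext j
      simp [toF, hz, Algebra.smul_def]
    refine ⟨z, fun C hC => ?_, ?_⟩
    · apply IsFractionRing.injective R[X] (FractionRing R[X])
      rw [← toF_dot, hz', smul_dotProduct, hξ _ (hμ C (Finset.mem_filter.1 hC).2).1, smul_zero,
        map_zero]
    · by_contra hcon
      push Not at hcon
      have h1 : toF T i0 * (toF z ⬝ᵥ u) = toF z i0 * (u ⬝ᵥ toF T) := by
        simp only [dotProduct, Finset.mul_sum]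
        refine Finset.sum_congr rfl fun j _ => ?_
        have : toF z j * toF T i0 = toF z i0 * toF T j := by
          simp only [toF, ← map_mul, hcon j i0]
        linear_combination u j * this
      rw [hu, mul_zero, hz', smul_dotProduct, smul_eq_mul] at h1
      exact mul_ne_zero (mt toF_eq_zero.1 (hT0 i0)) (mul_ne_zero hc0 hξu) h1

end Pool.Agent.Lib.MP_bd85b6_lc
end

-- part Pool.Agent.Lib.MP_bd85b6_lc.Focal
section

/-! Gradients, the Jacobian criterion and focal points on lines. -/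

set_option autoImplicit false

namespace Pool.Agent.Lib.MP_bd85b6_lc

open MvPolynomial Module

section
variable {σ : Type*}

/-- The gradient at a point. -/
noncomputable def grad (f : MvPolynomial σ ℂ) (x : σ → ℂ) : σ → ℂ := fun i => eval x (pderiv i f)

/-- The span of the gradients of a set of polynomials. -/
noncomputable def GS (Q : Set (MvPolynomial σ ℂ)) (x : σ → ℂ) : Submodule ℂ (σ → ℂ) :=
  Submodule.span ℂ ((fun q => grad q x) '' Q)

theorem grad_mul (f g : MvPolynomial σ ℂ) (x : σ → ℂ) :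
    grad (f * g) x = eval x f • grad g x + eval x g • grad f x := by
  ext i
  simp [grad]

theorem grad_C (r : ℂ) (x : σ → ℂ) : grad (C r) x = 0 := by
  ext i
  simp [grad]

theorem grad_mem {Q : Set (MvPolynomial σ ℂ)} (x : σ → ℂ) {f : MvPolynomial σ ℂ} (hf : f ≠ 0)
    (h : ∀ q, Irreducible q → q ∣ f → q ∈ Q) : grad f x ∈ GS Q x := by
  induction f using WfDvdMonoid.induction_on_irreducible with
  | zero => exact absurd rfl hf
  | unit u hu =>
    obtain ⟨r, -, rfl⟩ := isUnit_iff_eq_C_of_isReduced.1 hu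
    rw [grad_C]
    exact zero_mem _
  | mul a q ha hq ih =>
    rw [grad_mul]
    refine add_mem (Submodule.smul_mem _ _ (ih ha fun q' hq' h' => h q' hq' (h'.mul_left _)))
      (Submodule.smul_mem _ _ (Submodule.subset_span ⟨q, h q hq (dvd_mul_right _ _), rfl⟩))

theorem grad_aff [Fintype σ] {ρ : Type*} [Fintype ρ] (b : σ → ℂ) (E : ρ → σ → ℂ)
    (f : MvPolynomial σ ℂ) (u : ρ) : grad (aff b E f) 0 u = grad f b ⬝ᵥ E u := by
  classical
  have h := der_eval₂ (S := ℂ) (algebraMap ℂ (MvPolynomial ρ ℂ)) (pderiv u)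
    (fun i => C (b i) + ∑ u, C (E u i) * X u) f (fun m => by simp)
  have h1 : ∀ g, eval₂ (algebraMap ℂ (MvPolynomial ρ ℂ))
    (fun i => C (b i) + ∑ u, C (E u i) * X u) g = aff b E g := fun g => rfl
  simp only [h1] at h
  simp only [grad, h, map_sum, map_mul, eval_aff, dotProduct]
  refine Finset.sum_congr rfl fun i _ => ?_
  simp [Pi.single_apply]

theorem fac_aff {ρ : Type*} [Fintype ρ] (b : σ → ℂ) (E : ρ → σ → ℂ) {d : ℕ}
    {f : MvPolynomial σ ℂ} (hf : ∀ q, Irreducible q → q ∣ f → q.totalDegree ≤ d)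
    (h0 : aff b E f ≠ 0) : ∀ q, Irreducible q → q ∣ aff b E f → q.totalDegree ≤ d := by
  induction f using WfDvdMonoid.induction_on_irreducible with
  | zero => exact absurd (map_zero _) h0
  | unit u hu =>
    exact fun q hq h => absurd (isUnit_of_dvd_unit h (hu.map _)) hq.not_isUnit
  | mul a p ha hp ih =>
    intro q hq h
    rw [map_mul] at h h0
    rcases hq.prime.dvd_or_dvd h with h | h
    · exact (totalDegree_le_of_dvd_of_isDomain h (left_ne_zero_of_mul h0)).trans
        ((totalDegree_aff_le _ _ _).trans (hf p hp (dvd_mul_right _ _)))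
    · exact ih (fun q' hq' h' => hf q' hq' (h'.mul_left _)) (right_ne_zero_of_mul h0) q hq h

theorem exists_gcd_fac {κ : Type*} [Fintype κ] [Nonempty κ] (T : κ → MvPolynomial σ ℂ) :
    ∃ (G : MvPolynomial σ ℂ) (T' : κ → MvPolynomial σ ℂ), (∀ j, T j = G * T' j) ∧
      ∀ g, (∀ j, g ∣ T' j) → IsUnit g := by
  classical
  let _ : NormalizedGCDMonoid (MvPolynomial σ ℂ) := Nonempty.some inferInstance
  obtain ⟨g, h1, h2⟩ := Finset.extract_gcd T Finset.univ_nonempty
  exact ⟨_, g, fun j => h1 j (Finset.mem_univ _), fun q hq =>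
    isUnit_of_dvd_one (h2 ▸ Finset.dvd_gcd fun j _ => hq j)⟩

theorem finrank_sup_le [Fintype σ] {κ : Type*} (s : Finset κ) (U : κ → Submodule ℂ (σ → ℂ))
    (w : ℕ) (h : ∀ a ∈ s, finrank ℂ (U a) ≤ w) : finrank ℂ (s.sup U : Submodule ℂ _) ≤ s.card * w := by
  classical
  induction s using Finset.induction_on with
  | empty => simp
  | insert a s ha ih =>
    rw [Finset.sup_insert, Finset.card_insert_of_notMem ha]
    have h1 := Submodule.finrank_add_le_finrank_add_finrank (U a) (s.sup U)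
    have h2 := ih fun b hb => h b (Finset.mem_insert_of_mem hb)
    have h3 := h a (Finset.mem_insert_self _ _)
    rw [add_mul]
    omega

theorem card_le_finrank_of_mem [Fintype σ] {κ : Type*} [Fintype κ] (U : Submodule ℂ (σ → ℂ))
    (ξ : κ → σ → ℂ) (hξ : LinearIndependent ℂ ξ) (h : ∀ k, ξ k ∈ U) :
    Fintype.card κ ≤ finrank ℂ U := by
  rw [← finrank_span_eq_card hξ]
  exact Submodule.finrank_mono (Submodule.span_le.2 (by rintro _ ⟨k, rfl⟩; exact h k))

theorem exists_indep_grad [Fintype σ] (Q : Set (MvPolynomial σ ℂ)) (x : σ → ℂ) {n : ℕ}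
    (h : n ≤ finrank ℂ (GS Q x)) :
    ∃ q : Fin n → MvPolynomial σ ℂ, (∀ i, q i ∈ Q) ∧ LinearIndependent ℂ fun i => grad (q i) x := by
  obtain ⟨f, hf, -, hli⟩ := Submodule.exists_fun_fin_finrank_span_eq ℂ ((fun q => grad q x) '' Q)
  choose q hq hq' using hf
  refine ⟨fun i => q (Fin.castLE h i), fun i => hq _, ?_⟩
  have : (fun i => grad (q (Fin.castLE h i)) x) = f ∘ Fin.castLE h := funext fun i => hq' _
  rw [this]
  exact hli.comp _ (Fin.castLE_injective h)

theorem eval_minor {r : ℕ} (q : Fin r → MvPolynomial σ ℂ) (f : Fin r → σ) (x : σ → ℂ) :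
    eval x (Matrix.of fun n j => pderiv (f j) (q n)).det =
      (Matrix.of fun n j => grad (q n) x (f j)).det := by
  rw [RingHom.map_det]
  rfl

theorem jacobian_aux [Fintype σ] {r : ℕ} (q : Fin r → MvPolynomial σ ℂ)
    (hq : AlgebraicIndependent ℂ q) {Ω : Type*} [Field Ω] [Algebra ℂ Ω]
    (φ : MvPolynomial σ ℂ →ₐ[ℂ] Ω) (hφ : Function.Injective φ) :
    ∃ x, LinearIndependent ℂ fun i => grad (q i) x := by
  classical
  have ha : AlgebraicIndependent ℂ (φ ∘ q) := hq.map' hφ
  have hev : ∀ f, eval₂ (algebraMap ℂ Ω) (fun i => φ (X i)) f = φ f := by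
    intro f
    have : aeval (fun i => φ (X i)) = φ := MvPolynomial.algHom_ext fun i => aeval_X _ _
    exact congrArg (fun ψ => ψ f) this
  have hli : LinearIndependent Ω fun n i => φ (pderiv i (q n)) := by
    rw [Fintype.linearIndependent_iff]
    intro g hg l
    obtain ⟨δ, hδ⟩ := exists_der (φ ∘ q) ha (Pi.single l 1)
    have h1 : ∀ n, Pi.single (M := fun _ => Ω) l 1 n = ∑ i, φ (pderiv i (q n)) * δ (φ (X i)) := by
      intro n
      have := der_eval₂ (algebraMap ℂ Ω) δ (fun i => φ (X i)) (q n) (fun m => δ.map_algebraMap _)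
      simp only [hev] at this
      rw [← this, ← hδ]
      rfl
    have h2 : ∑ n, g n * Pi.single (M := fun _ => Ω) l 1 n = 0 := by
      simp only [h1, Finset.mul_sum]
      rw [Finset.sum_comm]
      refine Finset.sum_eq_zero fun i _ => ?_
      have := congrFun hg i
      simp only [Finset.sum_apply, Pi.smul_apply, smul_eq_mul, Pi.zero_apply] at this
      simp only [← mul_assoc, ← Finset.sum_mul, this, zero_mul]
    simpa [Pi.single_apply] using h2
  obtain ⟨f, hf⟩ := (linInd_iff_minor _).1 hli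
  have h3 : (Matrix.of fun n j => pderiv (f j) (q n)).det ≠ 0 := by
    intro h
    apply hf
    have := congrArg φ h
    rw [map_zero, AlgHom.map_det] at this
    exact this
  by_contra hcon
  refine h3 (MvPolynomial.funext fun x => ?_)
  rw [eval_minor, map_zero]
  by_contra h4
  exact hcon ⟨x, (linInd_iff_minor _).2 ⟨f, h4⟩⟩

/-- The Jacobian criterion. -/
theorem jacobian [Fintype σ] {r : ℕ} (q : Fin r → MvPolynomial σ ℂ)
    (hq : AlgebraicIndependent ℂ q) : ∃ x, LinearIndependent ℂ fun i => grad (q i) x :=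
  jacobian_aux q hq (IsScalarTower.toAlgHom ℂ _ (FractionRing (MvPolynomial σ ℂ)))
    (IsFractionRing.injective _ _)

theorem finrank_sup_span_le [Fintype σ] (U : Submodule ℂ (σ → ℂ)) (v : σ → ℂ) :
    finrank ℂ (U ⊔ Submodule.span ℂ {v} : Submodule ℂ _) ≤ finrank ℂ U + 1 := by
  have h4 := Submodule.finrank_add_le_finrank_add_finrank U (Submodule.span ℂ {v})
  have h5 : finrank ℂ (Submodule.span ℂ {v}) ≤ 1 := by
    simpa using finrank_span_le_card (R := ℂ) ({v} : Set (σ → ℂ))
  omega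

/-- Lines through a generic point meeting a codimension two set in many points are rare. -/
theorem focal [Fintype σ] {A : Set ℂ} {κ : Type*} (T : κ → MvPolynomial σ ℂ)
    (hT : ∀ j, Df A (T j)) (hcop : ∀ g, (∀ j, g ∣ T j) → IsUnit g) {x : σ → ℂ} (hx : Gen A x)
    (v : σ → ℂ) {n : ℕ} (t : Fin n → ℂ) (ht : Function.Injective t) (ht0 : ∀ b, t b ≠ 0)
    (h0 : ∀ b j, eval (x + t b • v) (T j) = 0) :
    n + finrank ℂ (Tan (A ∪ Set.range x) v) ≤ Fintype.card σ := by
  classical
  have h1 : ∀ b, ∃ ξ : σ → ℂ, ξ ≠ 0 ∧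
      ∀ s ∈ Tan A (x + t b • v) ⊔ Submodule.span ℂ {v}, ξ ⬝ᵥ s = 0 := by
    intro b
    refine exists_perp' _ ?_
    have h2 := codim_two T hT hcop _ (h0 b)
    have h3 := finrank_sup_span_le (Tan A (x + t b • v)) v
    omega
  choose ξ hξ0 hξ using h1
  have key : ∀ δ ∈ D A, ∀ b, ξ b ⬝ᵥ (fun i => δ (x i)) + t b * (ξ b ⬝ᵥ fun i => δ (v i)) = 0 := by
    intro δ hδ b
    have h2 := hξ b _ (Submodule.mem_sup_left (mem_Tan.2 ⟨δ, hδ, fun _ => rfl⟩))
    have h3 := hξ b v (Submodule.mem_sup_right (Submodule.mem_span_singleton_self _))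
    have h4 : (fun i => δ ((x + t b • v) i)) =
        (fun i => δ (x i)) + t b • (fun i => δ (v i)) + δ (t b) • v := by
      ext i
      simp only [Pi.add_apply, Pi.smul_apply, smul_eq_mul, map_add, Derivation.leibniz]
      ring
    rw [h4, dotProduct_add, dotProduct_add, dotProduct_smul, dotProduct_smul, h3] at h2
    simpa using h2
  have hli : LinearIndependent ℂ ξ := by
    rw [Fintype.linearIndependent_iff]
    intro a ha
    have step : ∀ a : Fin n → ℂ, ∑ b, a b • ξ b = 0 → ∑ b, (a b * (t b)⁻¹) • ξ b = 0 := by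
      intro a ha
      ext i
      obtain ⟨δ, hδ, h⟩ := hx (Pi.single i 1)
      have h2 : ∀ b, (t b)⁻¹ * ξ b i = - (ξ b ⬝ᵥ fun i => δ (v i)) := by
        intro b
        have h3 := key δ hδ b
        rw [funext h, dotProduct_single, mul_one] at h3
        field_simp [ht0 b]
        linear_combination h3
      have h3 := congrArg (fun y => y ⬝ᵥ fun i => δ (v i)) ha
      simp only [sum_dotProduct, smul_dotProduct, zero_dotProduct, smul_eq_mul] at h3
      simp only [Finset.sum_apply, Pi.smul_apply, smul_eq_mul, Pi.zero_apply, mul_assoc, h2,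
        mul_neg, Finset.sum_neg_distrib, h3, neg_zero]
    have hpow : ∀ m : ℕ, ∑ b, (a b * (t b)⁻¹ ^ m) • ξ b = 0 := by
      intro m
      induction m with
      | zero => simpa using ha
      | succ m ih => simpa only [pow_succ, mul_assoc] using step _ ih
    intro b
    obtain ⟨i, hi⟩ := Function.ne_iff.1 (hξ0 b)
    have h5 := Matrix.eq_zero_of_forall_pow_sum_mul_pow_eq_zero (f := fun b => (t b)⁻¹)
      (v := fun b => a b * ξ b i) (fun b b' h => ht (inv_injective h)) (fun m => by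
        have := congrFun (hpow m) i
        simp only [Finset.sum_apply, Pi.smul_apply, smul_eq_mul, Pi.zero_apply] at this
        rw [← this]
        exact Finset.sum_congr rfl fun b _ => by ring)
    exact (mul_eq_zero.1 (congrFun h5 b)).resolve_right hi
  have h6 := perp_card (Tan (A ∪ Set.range x) v) ξ hli (fun b s hs => by
    obtain ⟨δ, hδ, h⟩ := mem_Tan.1 hs
    have h2 := key δ (D_anti' Set.subset_union_left hδ) b
    have h3 : (fun i => δ (x i)) = 0 := funext fun i => hδ _ (Or.inr ⟨i, rfl⟩)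
    rw [h3, dotProduct_zero, zero_add, funext h] at h2
    exact (mul_eq_zero.1 h2).resolve_left (ht0 b))
  simpa using h6

end

end Pool.Agent.Lib.MP_bd85b6_lc
end
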