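import Mathlib

-- part Pool.Agent.Lib.MP_bd85b6_lc.Der
section

/-! Derivations of the complex numbers and generic points. -/

set_option autoImplicit false

namespace Pool.Agent.Lib.MP_bd85b6_lc

open MvPolynomial

/-- Extension of derivations: prescribed values on an algebraically independent family. -/
theorem exists_der {L Ω : Type*} [Field L] [CharZero L] [Field Ω] [Algebra L Ω] {ι : Type*}
    (a : ι → Ω) (ha : AlgebraicIndependent L a) (ω : ι → Ω) :
    ∃ δ : Derivation L Ω Ω, ∀ i, δ (a i) = ω i := by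
  classical
  obtain ⟨t, hst, ht⟩ := exists_isTranscendenceBasis_superset (R := L) (A := Ω)
    (s := Set.range a) ha.to_subtype_range
  let S := MvPolynomial t L
  let φ : S →ₐ[L] Ω := aeval (fun x : t => (x : Ω))
  have hφ : Function.Injective φ := ht.1
  have hφX : ∀ x : t, φ (X x) = x := fun x => aeval_X _ _
  let _ : Algebra S Ω := φ.toRingHom.toAlgebra
  have : IsScalarTower L S Ω := IsScalarTower.of_algebraMap_eq (fun x => by
    change _ = φ _
    simp)
  have : FaithfulSMul S Ω := (faithfulSMul_iff_algebraMap_injective S Ω).2 hφ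
  let F := FractionRing S
  let _ : Algebra F Ω := FractionRing.liftAlgebra S Ω
  have : IsScalarTower S F Ω := FractionRing.isScalarTower_liftAlgebra S Ω
  have halgS : Algebra.IsAlgebraic S Ω := by
    have h1 := ht.isAlgebraic
    refine Algebra.IsAlgebraic.of_ringHom_of_comp_eq ht.1.aevalEquiv
      (RingHom.id Ω) ht.1.aevalEquiv.surjective Function.injective_id ?_
    refine RingHom.ext fun x => ?_
    change ((ht.1.aevalEquiv x : _) : Ω) = φ x
    simp [φ]
  have : Algebra.IsAlgebraic F Ω := IsFractionRing.comap_isAlgebraic_iff.1 halgS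
  have : CharZero F := algebraRat.charZero F
  have : Algebra.IsSeparable F Ω := inferInstance
  have : Algebra.FormallyEtale F Ω := Algebra.FormallyEtale.of_isSeparable F Ω
  have : Algebra.FormallyEtale S F := Algebra.FormallyEtale.of_isLocalization (nonZeroDivisors S)
  have : Algebra.FormallyEtale S Ω := Algebra.FormallyEtale.comp S F Ω
  have hbc := KaehlerDifferential.isBaseChange_of_formallyEtale L S Ω
  let w : t → Ω := fun x => if h : ∃ i, a i = x then ω h.choose else 0
  let g : Ω[S⁄L] →ₗ[S] Ω := (KaehlerDifferential.mvPolynomialBasis L t).constr S w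
  let G : Ω[Ω⁄L] →ₗ[Ω] Ω := hbc.lift g
  refine ⟨G.compDer (KaehlerDifferential.D L Ω), fun i => ?_⟩
  have hi : a i ∈ t := hst ⟨i, rfl⟩
  have h1 : a i = algebraMap S Ω (X ⟨a i, hi⟩) := (hφX ⟨a i, hi⟩).symm
  have h2 : G (KaehlerDifferential.D L Ω (a i)) = g (KaehlerDifferential.D L S (X ⟨a i, hi⟩)) := by
    conv_lhs => rw [h1, ← KaehlerDifferential.map_D L L S Ω]
    exact hbc.lift_eq g _
  change G (KaehlerDifferential.D L Ω (a i)) = _
  rw [h2, ← KaehlerDifferential.mvPolynomialBasis_apply, Module.Basis.constr_basis]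
  have hex : ∃ j, a j = a i := ⟨i, rfl⟩
  simp only [w]
  rw [dif_pos hex, ha.injective hex.choose_spec]

/-- Lifting a polynomial to a subring containing its coefficients. -/
theorem exists_lift {R S : Type*} [CommRing R] [CommRing S] {σ : Type*} (φ : R →+* S)
    (f : MvPolynomial σ S) (hf : ∀ m, coeff m f ∈ Set.range φ) :
    ∃ g : MvPolynomial σ R, map φ g = f := by
  refine mem_range_map_iff_coeffs_subset.2 fun c hc => ?_
  obtain ⟨m, -, rfl⟩ := mem_coeffs_iff.1 hc
  exact hf m

/-- Chain rule for a derivation killing the coefficients. -/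
theorem der_eval₂ {S R B : Type*} [CommRing S] [CommRing R] [CommRing B] [Algebra S B]
    (ψ : R →+* B) (d : Derivation S B B)
    {σ : Type*} [Fintype σ] (a : σ → B) (f : MvPolynomial σ R)
    (hf : ∀ m, d (ψ (coeff m f)) = 0) :
    d (eval₂ ψ a f) = ∑ i, eval₂ ψ a (pderiv i f) * d (a i) := by
  classical
  let K : Subring R :=
    { carrier := {c | d (ψ c) = 0}
      mul_mem' := fun {x y} hx hy => by
        simp only [Set.mem_setOf_eq] at hx hy ⊢
        simp [hx, hy]
      one_mem' := by simp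
      add_mem' := fun {x y} hx hy => by
        simp only [Set.mem_setOf_eq] at hx hy ⊢
        simp [hx, hy]
      zero_mem' := by simp
      neg_mem' := fun {x} hx => by
        simp only [Set.mem_setOf_eq] at hx ⊢
        simp [hx] }
  obtain ⟨g, rfl⟩ := exists_lift K.subtype f (fun m => ⟨⟨_, hf m⟩, rfl⟩)
  simp only [pderiv_map]
  clear hf
  induction g using MvPolynomial.induction_on with
  | C c =>
    have : d (ψ c) = 0 := c.2
    simp [this]
  | add p q hp hq =>
    simp only [map_add, eval₂_add, hp, hq, add_mul, Finset.sum_add_distrib]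
  | mul_X p j hp =>
    simp only [map_mul, map_X, eval₂_mul, eval₂_X, Derivation.leibniz, hp, smul_eq_mul,
      map_add, eval₂_add, add_mul, Finset.sum_add_distrib, pderiv_X]
    rw [Finset.mul_sum]
    congr 1
    · rw [Finset.sum_eq_single j]
      · simp
      · intro i _ hij
        simp [Pi.single_apply, hij.symm]
      · simp
    · exact Finset.sum_congr rfl fun i _ => by ring

/-- Derivations of the complex numbers. -/
abbrev Dr := Derivation ℤ ℂ ℂ

theorem dr_sum_apply {ι : Type*} (s : Finset ι) (δ : ι → Dr) (x : ℂ) :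
    (∑ i ∈ s, δ i) x = ∑ i ∈ s, δ i x := by
  classical
  induction s using Finset.induction_on with
  | empty => simp
  | insert i s hi ih => simp [Finset.sum_insert hi, ih]

/-- Derivations killing a set. -/
def D (A : Set ℂ) : Submodule ℂ Dr where
  carrier := {δ | ∀ a ∈ A, δ a = 0}
  add_mem' := fun {x y} hx hy a ha => by simp [hx a ha, hy a ha]
  zero_mem' := fun a _ => by simp
  smul_mem' := fun c {x} hx a ha => by simp [hx a ha]

theorem mem_D {A : Set ℂ} {δ : Dr} : δ ∈ D A ↔ ∀ a ∈ A, δ a = 0 := Iff.rfl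

/-- Constants of all derivations killing a set. -/
def Const (A : Set ℂ) : Subfield ℂ where
  carrier := {c | ∀ δ ∈ D A, δ c = 0}
  mul_mem' := fun {x y} hx hy δ hδ => by simp [hx δ hδ, hy δ hδ]
  one_mem' := fun δ _ => by simp
  add_mem' := fun {x y} hx hy δ hδ => by simp [hx δ hδ, hy δ hδ]
  zero_mem' := fun δ _ => by simp
  neg_mem' := fun {x} hx δ hδ => by simp [hx δ hδ]
  inv_mem' := fun x hx δ hδ => by rw [Derivation.leibniz_inv]; simp [hx δ hδ]

theorem mem_Const {A : Set ℂ} {c : ℂ} : c ∈ Const A ↔ ∀ δ ∈ D A, δ c = 0 := Iff.rfl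

theorem subset_Const (A : Set ℂ) : A ⊆ Const A := fun a ha _ hδ => hδ a ha

theorem mem_Const_of_mem {A : Set ℂ} {a : ℂ} (h : a ∈ A) : a ∈ Const A := subset_Const A h

theorem D_anti {A B : Set ℂ} (h : A ⊆ Const B) : D B ≤ D A := fun _ hδ _ ha => h ha _ hδ

theorem D_anti' {A B : Set ℂ} (h : A ⊆ B) : D B ≤ D A := fun _ hδ a ha => hδ a (h ha)

theorem Const_mono {A B : Set ℂ} (h : A ⊆ Const B) : Const A ≤ Const B :=
  fun _ hc δ hδ => hc δ (D_anti h hδ)

theorem Const_mono' {A B : Set ℂ} (h : A ⊆ B) : Const A ≤ Const B :=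
  Const_mono (h.trans (subset_Const B))

/-- A family is generic over `A` if derivations killing `A` take arbitrary values on it. -/
def Gen (A : Set ℂ) {ι : Type*} (a : ι → ℂ) : Prop :=
  ∀ ω : ι → ℂ, ∃ δ ∈ D A, ∀ i, δ (a i) = ω i

theorem Gen.mono {A B : Set ℂ} {ι : Type*} {a : ι → ℂ} (h : Gen B a) (hAB : A ⊆ Const B) :
    Gen A a := fun ω => by
  obtain ⟨δ, hδ, h'⟩ := h ω
  exact ⟨δ, D_anti hAB hδ, h'⟩

theorem Gen.mono' {A B : Set ℂ} {ι : Type*} {a : ι → ℂ} (h : Gen B a) (hAB : A ⊆ B) :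
    Gen A a := h.mono (hAB.trans (subset_Const B))

theorem Gen.comp {A : Set ℂ} {ι κ : Type*} {a : ι → ℂ} (h : Gen A a) (e : κ → ι)
    (he : Function.Injective e) : Gen A (a ∘ e) := fun ω => by
  classical
  obtain ⟨δ, hδ, h'⟩ := h (Function.extend e ω 0)
  exact ⟨δ, hδ, fun k => by rw [Function.comp_apply, h', he.extend_apply]⟩

theorem Gen.sum {A B : Set ℂ} {ι κ : Type*} {a : ι → ℂ} {b : κ → ℂ} (ha : Gen A a) (hb : Gen B b)
    (hAB : A ⊆ Const B) (haB : ∀ i, a i ∈ Const B) : Gen A (Sum.elim a b) := fun ω => by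
  obtain ⟨δ, hδ, h1⟩ := ha (ω ∘ Sum.inl)
  obtain ⟨δ', hδ', h2⟩ := hb (fun k => ω (Sum.inr k) - δ (b k))
  refine ⟨δ + δ', add_mem hδ (D_anti hAB hδ'), ?_⟩
  rintro (i | k)
  · simp [h1, haB i δ' hδ']
  · simp [h2]

/-- Translating a generic family by constants. -/
theorem Gen.add_const {A : Set ℂ} {ι : Type*} {a c : ι → ℂ} (ha : Gen A a)
    (hc : ∀ i, c i ∈ Const A) : Gen A (a + c) := fun ω => by
  obtain ⟨δ, hδ, h1⟩ := ha ω
  exact ⟨δ, hδ, fun i => by simp [h1, hc i δ hδ]⟩

/-- A polynomial is defined over `A`. -/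
def Df (A : Set ℂ) {σ : Type*} (f : MvPolynomial σ ℂ) : Prop := ∀ m, coeff m f ∈ Const A

theorem Df.mono {A B : Set ℂ} {σ : Type*} {f : MvPolynomial σ ℂ} (h : Df A f)
    (hAB : A ⊆ Const B) : Df B f := fun m => Const_mono hAB (h m)

theorem Df.mono' {A B : Set ℂ} {σ : Type*} {f : MvPolynomial σ ℂ} (h : Df A f)
    (hAB : A ⊆ B) : Df B f := fun m => Const_mono' hAB (h m)

theorem Df.lift {A : Set ℂ} {σ : Type*} {f : MvPolynomial σ ℂ} (h : Df A f) :
    ∃ g : MvPolynomial σ (Const A), map (algebraMap (Const A) ℂ) g = f :=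
  exists_lift _ f fun m => ⟨⟨_, h m⟩, rfl⟩

theorem Df_map {A : Set ℂ} {σ : Type*} (g : MvPolynomial σ (Const A)) :
    Df A (map (algebraMap (Const A) ℂ) g) := fun m => by
  rw [coeff_map]; exact (coeff m g).2

theorem Df.pderiv {A : Set ℂ} {σ : Type*} {f : MvPolynomial σ ℂ} (h : Df A f) (i : σ) :
    Df A (pderiv i f) := fun m => by
  rw [coeff_pderiv]
  exact mul_mem (h _) (add_mem (natCast_mem _ _) (one_mem _))

/-- A finite set of polynomials is defined over a finite set. -/
theorem exists_Df {σ : Type*} (s : Set (MvPolynomial σ ℂ)) (hs : s.Finite) :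
    ∃ A : Set ℂ, A.Finite ∧ ∀ f ∈ s, Df A f := by
  refine ⟨⋃ f ∈ s, (f.coeffs : Set ℂ), hs.biUnion fun f _ => f.coeffs.finite_toSet, ?_⟩
  intro f hf m
  by_cases h : coeff m f = 0
  · rw [h]; exact zero_mem _
  · refine mem_Const_of_mem ?_
    simp only [Set.mem_iUnion]
    exact ⟨f, hf, mem_coeffs_iff.2 ⟨m, mem_support_iff.2 h, rfl⟩⟩

theorem exists_Df_fam {σ κ : Type*} [Finite κ] (f : κ → MvPolynomial σ ℂ) :
    ∃ A : Set ℂ, A.Finite ∧ ∀ k, Df A (f k) := by
  obtain ⟨A, hA, h⟩ := exists_Df (Set.range f) (Set.finite_range f)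
  exact ⟨A, hA, fun k => h _ ⟨k, rfl⟩⟩

theorem der_eval {A : Set ℂ} {δ : Dr} (hδ : δ ∈ D A) {σ : Type*} [Fintype σ] (a : σ → ℂ)
    {f : MvPolynomial σ ℂ} (hf : Df A f) :
    δ (eval a f) = ∑ i, eval a (pderiv i f) * δ (a i) :=
  der_eval₂ (RingHom.id ℂ) δ a f fun m => hf m δ hδ

theorem Df.eval_mem {A : Set ℂ} {σ : Type*} {f : MvPolynomial σ ℂ} (hf : Df A f) {a : σ → ℂ}
    (ha : ∀ i, a i ∈ Const A) : eval a f ∈ Const A := by
  rw [eval_eq]
  exact sum_mem fun m _ => mul_mem (hf m) (prod_mem fun i _ => pow_mem (ha i) _)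

/-- A generic point is not a zero of a nonzero polynomial defined over the base. -/
theorem Gen.eq_zero {A : Set ℂ} {σ : Type*} [Finite σ] {a : σ → ℂ} (ha : Gen A a)
    {f : MvPolynomial σ ℂ} (hf : Df A f) (h0 : eval a f = 0) : f = 0 := by
  classical
  have := Fintype.ofFinite σ
  induction hn : f.totalDegree using Nat.strong_induction_on generalizing f with
  | _ n ih =>
    have hp : ∀ i, pderiv i f = 0 := by
      intro i
      by_contra hne
      obtain ⟨δ, hδ, h1⟩ := ha (Pi.single i 1)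
      have h2 := der_eval hδ a hf
      rw [h0, map_zero, Finset.sum_eq_single i] at h2
      · rw [h1, Pi.single_eq_same, mul_one] at h2
        refine hne (ih _ ?_ (hf.pderiv i) h2.symm rfl)
        obtain ⟨m, hm, hm'⟩ := Finset.exists_mem_eq_sup (pderiv i f).support
          (support_nonempty.2 hne) (fun s => s.sum fun _ e => e)
        have h3 : m + Finsupp.single i 1 ∈ f.support := by
          rw [mem_support_iff] at hm ⊢
          rw [coeff_pderiv] at hm
          exact left_ne_zero_of_mul hm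
        have h4 := le_totalDegree h3
        rw [Finsupp.sum_add_index' (by simp) (by simp), Finsupp.sum_single_index (by simp)] at h4
        rw [← hn, totalDegree, hm']
        omega
      · intro j _ hj
        rw [h1, Pi.single_eq_of_ne hj, mul_zero]
      · simp
    have hC : f = C (coeff 0 f) := by
      ext m
      rw [coeff_C]
      split_ifs with h
      · rw [h]
      · obtain ⟨i, hi⟩ := Finsupp.support_nonempty_iff.2 (Ne.symm h)
        have hle : Finsupp.single i 1 ≤ m := by
          rw [Finsupp.single_le_iff]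
          exact Nat.one_le_iff_ne_zero.2 (Finsupp.mem_support_iff.1 hi)
        have h5 := congrArg (coeff (m - Finsupp.single i 1)) (hp i)
        rw [coeff_pderiv, tsub_add_cancel_of_le hle, coeff_zero, mul_eq_zero] at h5
        refine h5.resolve_right ?_
        exact Nat.cast_add_one_ne_zero _
    rw [hC, eval_C] at h0
    rw [hC, h0, C_0]

theorem Gen.algInd {A : Set ℂ} {σ : Type*} [Finite σ] {a : σ → ℂ} (ha : Gen A a) :
    AlgebraicIndependent (Const A) a := by
  rw [algebraicIndependent_iff]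
  intro p hp
  have h1 : map (algebraMap (Const A) ℂ) p = 0 := by
    refine ha.eq_zero (Df_map p) ?_
    rw [← hp, aeval_def, eval₂_eq_eval_map]
  exact map_injective _ (algebraMap (Const A) ℂ).injective (by rw [h1, map_zero])

theorem gen_of_algInd {A : Set ℂ} {σ : Type*} {a : σ → ℂ}
    (ha : AlgebraicIndependent (Const A) a) : Gen A a := fun ω => by
  obtain ⟨δ, hδ⟩ := exists_der a ha ω
  refine ⟨δ.restrictScalars ℤ, fun c hc => ?_, hδ⟩
  exact δ.map_algebraMap ⟨c, mem_Const_of_mem hc⟩

theorem exists_gen_empty (n : ℕ) : ∃ b : Fin n → ℂ, Gen ∅ b := by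
  obtain ⟨ι, v, hv⟩ := exists_isTranscendenceBasis' ℚ ℂ
  have h := IsAlgClosed.cardinal_eq_cardinal_transcendence_basis_of_aleph0_lt' v hv
    (by simp) (by rw [Cardinal.mk_complex]; exact Cardinal.aleph0_lt_continuum)
  have : Infinite ι := by
    rw [Cardinal.infinite_iff, ← h, Cardinal.mk_complex]
    exact Cardinal.aleph0_le_continuum
  let e : Fin n → ι := fun i => Infinite.natEmbedding ι i
  have he : Function.Injective e := fun i j hij =>
    Fin.ext ((Infinite.natEmbedding ι).injective hij)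
  refine ⟨v ∘ e, fun ω => ?_⟩
  obtain ⟨δ, hδ⟩ := exists_der (v ∘ e) (hv.1.comp e he) ω
  exact ⟨δ.restrictScalars ℤ, fun c hc => hc.elim, hδ⟩

theorem exists_D_ne_zero {A : Set ℂ} (hA : A.Finite) : ∃ δ ∈ D A, δ ≠ 0 := by
  classical
  have := hA.fintype
  obtain ⟨b, hb⟩ := exists_gen_empty (Fintype.card A + 1)
  choose δ hδ hδ' using fun i => hb (Pi.single i 1)
  let Φ : (Fin (Fintype.card A + 1) → ℂ) →ₗ[ℂ] (A → ℂ) :=
    { toFun := fun c a => ∑ i, c i * δ i a
      map_add' := fun c c' => by ext a; simp [add_mul, Finset.sum_add_distrib]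
      map_smul' := fun r c => by ext a; simp [Finset.mul_sum, mul_assoc] }
  obtain ⟨c, hc, hc0⟩ := (Submodule.ne_bot_iff _).1 (LinearMap.ker_ne_bot_of_finrank_lt (f := Φ)
    (by simp))
  refine ⟨∑ i, c i • δ i, fun a ha => ?_, fun h => hc0 ?_⟩
  · have := congrFun (LinearMap.mem_ker.1 hc) ⟨a, ha⟩
    simpa [Φ, dr_sum_apply] using this
  · ext j
    have := congrArg (fun d : Dr => d (b j)) h
    simpa [dr_sum_apply, hδ', Pi.single_apply] using this

theorem exists_gen_one {A : Set ℂ} (hA : A.Finite) : ∃ x : ℂ, Gen A (fun _ : Unit => x) := by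
  obtain ⟨δ, hδ, h0⟩ := exists_D_ne_zero hA
  obtain ⟨x, hx⟩ : ∃ x, δ x ≠ 0 := by
    by_contra h
    push Not at h
    exact h0 (Derivation.ext h)
  refine ⟨x, fun ω => ⟨(ω () / δ x) • δ, Submodule.smul_mem _ _ hδ, fun _ => ?_⟩⟩
  simp [div_mul_cancel₀ _ hx]

theorem exists_gen {A : Set ℂ} (hA : A.Finite) (ι : Type*) [Finite ι] :
    ∃ a : ι → ℂ, Gen A a := by
  have key : ∀ n : ℕ, ∃ a : Fin n → ℂ, Gen A a := by
    intro n
    induction n with
    | zero => exact ⟨0, fun ω => ⟨0, zero_mem _, fun i => i.elim0⟩⟩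
    | succ n ih =>
      obtain ⟨a, ha⟩ := ih
      obtain ⟨x, hx⟩ := exists_gen_one (hA.union (Set.finite_range a))
      have h := ha.sum hx (Set.subset_union_left.trans (subset_Const _))
        (fun i => mem_Const_of_mem (Or.inr ⟨i, rfl⟩))
      let e : Fin (n + 1) ≃ Fin n ⊕ Unit := Fintype.equivOfCardEq (by simp)
      exact ⟨_, h.comp e e.injective⟩
  obtain ⟨n, ⟨e⟩⟩ := Finite.exists_equiv_fin ι
  obtain ⟨a, ha⟩ := key n
  exact ⟨_, ha.comp e e.injective⟩

/-- A derivation killing the coefficients of a nonzero polynomial kills its roots. -/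
theorem der_root_eq_zero {B : Type*} [CommRing B] [IsDomain B] [CharZero B] (δ : Derivation ℤ B B)
    (p : Polynomial B) (hp : p ≠ 0) (hc : ∀ n, δ (p.coeff n) = 0) (x : B) (hx : p.eval x = 0) :
    δ x = 0 := by
  induction hn : p.natDegree using Nat.strong_induction_on generalizing p with
  | _ n ih =>
    by_contra hδ
    have h1 := δ.apply_eval_eq x p
    have h2 : δ.mapCoeffs p = 0 := by
      ext i
      simp [hc]
    rw [hx, h2, map_zero, map_zero, zero_add, smul_eq_mul] at h1
    have h3 : p.derivative.eval x = 0 := (mul_eq_zero.1 h1.symm).resolve_right hδ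
    have h4 : p.natDegree ≠ 0 := by
      intro h
      rw [Polynomial.eq_C_of_natDegree_eq_zero h, Polynomial.eval_C] at hx
      exact hp (by rw [Polynomial.eq_C_of_natDegree_eq_zero h, hx, Polynomial.C_0])
    refine hδ (ih _ ?_ p.derivative ?_ ?_ h3 rfl)
    · rw [← hn]; exact Polynomial.natDegree_derivative_lt h4
    · intro h
      exact h4 (Polynomial.natDegree_eq_zero_of_derivative_eq_zero h)
    · intro m
      rw [Polynomial.coeff_derivative]
      simp [hc]

end Pool.Agent.Lib.MP_bd85b6_lc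
end

-- part Pool.Agent.Lib.MP_bd85b6_lc.Lin
section

/-! Linear algebra in coordinate spaces and tangent spaces of points. -/

set_option autoImplicit false

namespace Pool.Agent.Lib.MP_bd85b6_lc

open MvPolynomial Module

section Lin
variable {𝔽 : Type*} [Field 𝔽] {σ : Type*} [Fintype σ]

theorem exists_coords (T : Submodule 𝔽 (σ → 𝔽)) :
    ∃ I : Finset σ, finrank 𝔽 T ≤ I.card ∧ ∀ ω : σ → 𝔽, ∃ t ∈ T, ∀ i ∈ I, t i = ω i := by
  classical
  let P : Finset σ → Prop := fun I => ∀ ω : σ → 𝔽, ∃ t ∈ T, ∀ i ∈ I, t i = ω i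
  obtain ⟨I, hI, hmax⟩ := Finset.exists_max_image (Finset.univ.filter P) Finset.card
    ⟨∅, Finset.mem_filter.2 ⟨Finset.mem_univ _, fun ω => ⟨0, zero_mem _, by simp⟩⟩⟩
  have hI' : P I := (Finset.mem_filter.1 hI).2
  refine ⟨I, ?_, hI'⟩
  let π : T →ₗ[𝔽] (I → 𝔽) := (LinearMap.funLeft 𝔽 𝔽 (Subtype.val : I → σ)) ∘ₗ T.subtype
  have hπ : Function.Injective π := by
    rw [injective_iff_map_eq_zero]
    intro t ht
    by_contra hne
    obtain ⟨j, hj⟩ : ∃ j, (t : σ → 𝔽) j ≠ 0 := by
      by_contra h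
      push Not at h
      exact hne (Subtype.ext (funext h))
    have ht' : ∀ i ∈ I, (t : σ → 𝔽) i = 0 := fun i hi => congrFun ht ⟨i, hi⟩
    have hjI : j ∉ I := fun h => hj (ht' j h)
    have hP : P (insert j I) := by
      intro ω
      obtain ⟨t', ht'T, h'⟩ := hI' ω
      refine ⟨t' + ((ω j - t' j) / (t : σ → 𝔽) j) • (t : σ → 𝔽),
        add_mem ht'T (T.smul_mem _ t.2), ?_⟩
      intro i hi
      rcases Finset.mem_insert.1 hi with rfl | hi
      · simp [div_mul_cancel₀ _ hj]
      · simp [ht' i hi, h' i hi]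
    have := hmax (insert j I) (Finset.mem_filter.2 ⟨Finset.mem_univ _, hP⟩)
    rw [Finset.card_insert_of_notMem hjI] at this
    omega
  simpa using LinearMap.finrank_le_finrank_of_injective hπ

theorem card_le_finrank (T : Submodule 𝔽 (σ → 𝔽)) {κ : Type*} [Fintype κ] (e : κ → σ)
    (h : ∀ ω : κ → 𝔽, ∃ t ∈ T, ∀ k, t (e k) = ω k) : Fintype.card κ ≤ finrank 𝔽 T := by
  let π : T →ₗ[𝔽] (κ → 𝔽) := (LinearMap.funLeft 𝔽 𝔽 e) ∘ₗ T.subtype
  have hπ : Function.Surjective π := by
    intro ω
    obtain ⟨t, ht, h'⟩ := h ω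
    exact ⟨⟨t, ht⟩, funext h'⟩
  simpa using LinearMap.finrank_le_finrank_of_surjective hπ

theorem perp_card (T : Submodule 𝔽 (σ → 𝔽)) {κ : Type*} [Fintype κ] (ξ : κ → σ → 𝔽)
    (hξ : LinearIndependent 𝔽 ξ) (h : ∀ k, ∀ t ∈ T, ξ k ⬝ᵥ t = 0) :
    Fintype.card κ + finrank 𝔽 T ≤ Fintype.card σ := by
  classical
  let M : Matrix κ σ 𝔽 := Matrix.of ξ
  have h1 : M.rank = Fintype.card κ := LinearIndependent.rank_matrix hξ
  have h2 := LinearMap.finrank_range_add_finrank_ker M.mulVecLin
  have h3 : T ≤ LinearMap.ker M.mulVecLin := by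
    intro t ht
    rw [LinearMap.mem_ker]
    ext k
    exact h k t ht
  have h4 := Submodule.finrank_mono h3
  rw [Matrix.rank] at h1
  simp only [finrank_fintype_fun_eq_card] at h2
  omega

theorem exists_perp (T : Submodule 𝔽 (σ → 𝔽)) (h : T ≠ ⊤) :
    ∃ ξ : σ → 𝔽, ξ ≠ 0 ∧ ∀ t ∈ T, ξ ⬝ᵥ t = 0 := by
  classical
  obtain ⟨f, hf0, hf⟩ := Submodule.exists_le_ker_of_lt_top T (lt_top_iff_ne_top.2 h)
  have key : ∀ t, (fun i => f (Pi.single i 1)) ⬝ᵥ t = f t := by
    intro t
    conv_rhs => rw [pi_eq_sum_univ' t]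
    simp [dotProduct, mul_comm]
  refine ⟨fun i => f (Pi.single i 1), fun h0 => hf0 ?_, fun t ht => ?_⟩
  · refine LinearMap.ext fun t => ?_
    rw [← key, h0]
    simp
  · rw [key]; exact hf ht

theorem exists_perp' (T : Submodule 𝔽 (σ → 𝔽)) (h : finrank 𝔽 T < Fintype.card σ) :
    ∃ ξ : σ → 𝔽, ξ ≠ 0 ∧ ∀ t ∈ T, ξ ⬝ᵥ t = 0 := by
  refine exists_perp T ?_
  rintro rfl
  simp at h

theorem linInd_iff_minor {r : ℕ} (G : Fin r → σ → 𝔽) :
    LinearIndependent 𝔽 G ↔ ∃ f : Fin r → σ, (Matrix.of fun n j => G n (f j)).det ≠ 0 := by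
  classical
  constructor
  · intro hG
    obtain ⟨I, hI, h⟩ := exists_coords (Submodule.span 𝔽 (Set.range G))
    rw [finrank_span_eq_card hG, Fintype.card_fin] at hI
    obtain ⟨e⟩ : Nonempty (Fin r ↪ I) := Function.Embedding.nonempty_of_card_le (by simpa)
    refine ⟨fun j => e j, ?_⟩
    have hs : Function.Surjective (Matrix.of fun n j => G n (e j)).vecMul := by
      intro ω
      obtain ⟨t, ht, h'⟩ := h (Function.extend (fun j => (e j : σ)) ω 0)
      obtain ⟨c, rfl⟩ := (Submodule.mem_span_range_iff_exists_fun 𝔽).1 ht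
      refine ⟨c, funext fun j => ?_⟩
      have h1 := h' (e j) (e j).2
      have hinj : Function.Injective (fun j => (e j : σ)) :=
        Subtype.val_injective.comp e.injective
      rw [hinj.extend_apply] at h1
      rw [← h1]
      simp [Matrix.vecMul, dotProduct]
    have hu := Matrix.vecMul_surjective_iff_isUnit.1 hs
    exact ((Matrix.isUnit_iff_isUnit_det _).1 hu).ne_zero
  · rintro ⟨f, hf⟩
    have h1 : LinearIndependent 𝔽 (Matrix.of fun n j => G n (f j)).row :=
      Matrix.linearIndependent_rows_iff_isUnit.2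
        ((Matrix.isUnit_iff_isUnit_det _).2 (isUnit_iff_ne_zero.2 hf))
    exact LinearIndependent.of_comp (LinearMap.funLeft 𝔽 𝔽 f) h1

/-- A dual family to a linearly independent family of covectors. -/
theorem exists_dual {κ : Type*} [Fintype κ] [DecidableEq κ] (ξ : κ → σ → 𝔽)
    (hξ : LinearIndependent 𝔽 ξ) :
    ∃ E : κ → σ → 𝔽, ∀ k l, ξ k ⬝ᵥ E l = if k = l then 1 else 0 := by
  classical
  let M : Matrix κ σ 𝔽 := Matrix.of ξ
  have h1 : M.rank = Fintype.card κ := LinearIndependent.rank_matrix hξ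
  have h2 : LinearMap.range M.mulVecLin = ⊤ := by
    apply Submodule.eq_top_of_finrank_eq
    rw [Matrix.rank] at h1
    simpa using h1
  have h3 : ∀ l, ∃ t, M.mulVecLin t = Pi.single l 1 := fun l =>
    LinearMap.range_eq_top.1 h2 _
  choose E hE using h3
  refine ⟨E, fun k l => ?_⟩
  have := congrFun (hE l) k
  rw [Pi.single_apply] at this
  exact this

end Lin

/-- Evaluation of derivations on a family. -/
def evD {ι : Type*} (a : ι → ℂ) : Dr →ₗ[ℂ] (ι → ℂ) where
  toFun δ i := δ (a i)
  map_add' _ _ := rfl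
  map_smul' _ _ := rfl

/-- The tangent space of a point over `A`. -/
def Tan (A : Set ℂ) {ι : Type*} (a : ι → ℂ) : Submodule ℂ (ι → ℂ) := (D A).map (evD a)

theorem mem_Tan {A : Set ℂ} {ι : Type*} {a t : ι → ℂ} :
    t ∈ Tan A a ↔ ∃ δ ∈ D A, ∀ i, δ (a i) = t i := by
  simp only [Tan, Submodule.mem_map]
  exact ⟨fun ⟨δ, h, h'⟩ => ⟨δ, h, fun i => congrFun h' i⟩, fun ⟨δ, h, h'⟩ => ⟨δ, h, funext h'⟩⟩

theorem Tan_anti {A B : Set ℂ} (h : A ⊆ Const B) {ι : Type*} (a : ι → ℂ) : Tan B a ≤ Tan A a :=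
  Submodule.map_mono (D_anti h)

theorem exists_gen_coords (A : Set ℂ) {σ : Type*} [Fintype σ] (a : σ → ℂ) :
    ∃ I : Finset σ, finrank ℂ (Tan A a) ≤ I.card ∧ Gen A (fun i : I => a i) := by
  classical
  obtain ⟨I, hI, h⟩ := exists_coords (Tan A a)
  refine ⟨I, hI, fun ω => ?_⟩
  obtain ⟨t, ht, h'⟩ := h (Function.extend Subtype.val ω 0)
  obtain ⟨δ, hδ, h2⟩ := mem_Tan.1 ht
  refine ⟨δ, hδ, fun i => ?_⟩
  rw [h2, h' i i.2, Subtype.val_injective.extend_apply]

theorem Gen.card_le {A : Set ℂ} {σ κ : Type*} [Fintype σ] [Fintype κ] {a : σ → ℂ} (e : κ → σ)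
    (h : Gen A (a ∘ e)) : Fintype.card κ ≤ finrank ℂ (Tan A a) := by
  refine card_le_finrank _ e fun ω => ?_
  obtain ⟨δ, hδ, h'⟩ := h ω
  exact ⟨fun i => δ (a i), mem_Tan.2 ⟨δ, hδ, fun _ => rfl⟩, h'⟩

/-- Gradients of equations are orthogonal to the tangent space. -/
theorem grad_perp {A : Set ℂ} {σ : Type*} [Fintype σ] {a : σ → ℂ} {f : MvPolynomial σ ℂ}
    (hf : Df A f) (h0 : eval a f = 0) {t : σ → ℂ} (ht : t ∈ Tan A a) :
    (fun i => eval a (pderiv i f)) ⬝ᵥ t = 0 := by
  obtain ⟨δ, hδ, h⟩ := mem_Tan.1 ht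
  have := der_eval hδ a hf
  rw [h0, map_zero] at this
  rw [this]
  simp [dotProduct, h]

/-- A nonzero vector in a generic subspace has large tangent space. -/
theorem gen_matrix {A : Set ℂ} {σ ρ : Type*} [Fintype σ] [Fintype ρ] (M : σ → ρ → ℂ)
    (hM : Gen A (fun p : σ × ρ => M p.1 p.2)) (w : ρ → ℂ) (J : Finset ρ) (l : ρ) (hl : l ∈ J)
    (hwl : w l = 1) (hw : ∀ j ∉ J, w j = 0) :
    Fintype.card σ + 1 ≤ finrank ℂ (Tan A (fun i => ∑ j, M i j * w j)) + J.card := by
  classical
  let U : Submodule ℂ (σ → ℂ) := Submodule.span ℂ (Set.range fun j : J.erase l => fun i => M i j)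
  have hU : finrank ℂ U ≤ (J.erase l).card := by
    have := finrank_range_le_card (R := ℂ) (fun j : J.erase l => fun i => M i j)
    rwa [Fintype.card_coe] at this
  have htop : Tan A (fun i => ∑ j, M i j * w j) ⊔ U = ⊤ := by
    rw [eq_top_iff]
    intro ω _
    obtain ⟨δ, hδ, h⟩ := hM (fun p => if p.2 = l then ω p.1 else 0)
    have h1 : ω = (fun i => δ (∑ j, M i j * w j)) -
        ∑ j : J.erase l, δ (w j) • (fun i => M i j) := by
      ext i
      have h2 : ∀ j, δ (M i j * w j) = M i j * δ (w j) + w j * (if j = l then ω i else 0) := by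
        intro j
        rw [Derivation.leibniz, h (i, j)]
        simp
      simp only [map_sum, h2, Finset.sum_add_distrib, Pi.sub_apply, Finset.sum_apply,
        Pi.smul_apply, smul_eq_mul]
      rw [Finset.sum_coe_sort (J.erase l) (fun j => δ (w j) * M i j)]
      have h3 : ∑ j, M i j * δ (w j) = ∑ j ∈ J.erase l, δ (w j) * M i j := by
        symm
        rw [Finset.sum_subset (Finset.subset_univ _)]
        · exact Finset.sum_congr rfl fun j _ => mul_comm _ _
        · intro j _ hj
          by_cases hjl : j = l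
          · rw [hjl, hwl]; simp
          · rw [hw j (fun h => hj (Finset.mem_erase.2 ⟨hjl, h⟩))]; simp
      rw [h3]
      simp [hwl]
    rw [h1]
    refine sub_mem (Submodule.mem_sup_left (mem_Tan.2 ⟨δ, hδ, fun _ => rfl⟩))
      (Submodule.mem_sup_right (sum_mem fun j _ => Submodule.smul_mem _ _ ?_))
    exact Submodule.subset_span ⟨j, rfl⟩
  have h4 := Submodule.finrank_add_le_finrank_add_finrank (Tan A (fun i => ∑ j, M i j * w j)) U
  rw [htop, finrank_top, finrank_fintype_fun_eq_card] at h4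
  have h5 := Finset.card_erase_add_one hl
  omega

end Pool.Agent.Lib.MP_bd85b6_lc
end

-- part Pool.Agent.Lib.MP_bd85b6_lc.Codim
section

/-! Codimension estimates: common zeros of coprime polynomials, cones meeting hypersurfaces. -/

set_option autoImplicit false

namespace Pool.Agent.Lib.MP_bd85b6_lc

open MvPolynomial Module

theorem coprime_root {R : Type*} [CommRing R] [IsDomain R] [UniqueFactorizationMonoid R]
    (ev : R →+* ℂ) (hev : Function.Injective ev) {κ : Type*} (f : κ → Polynomial R)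
    (hcop : ∀ g, (∀ i, g ∣ f i) → IsUnit g) (x : ℂ) : ¬ ∀ i, (f i).eval₂ ev x = 0 := by
  classical
  intro h0
  obtain ⟨i0, hi0⟩ : ∃ i, f i ≠ 0 := by
    by_contra h
    push Not at h
    exact not_isUnit_zero (hcop 0 fun i => by rw [h i])
  let E : Polynomial R →+* ℂ := Polynomial.eval₂RingHom ev x
  obtain ⟨π, hπ, hπ0⟩ : ∃ π : Polynomial R, Irreducible π ∧ E π = 0 := by
    obtain ⟨u, hu⟩ := UniqueFactorizationMonoid.factors_prod hi0
    have h1 : E (UniqueFactorizationMonoid.factors (f i0)).prod = 0 := by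
      have h2 : E (f i0) = 0 := h0 i0
      rw [← hu, map_mul] at h2
      exact (mul_eq_zero.1 h2).resolve_right (u.isUnit.map E).ne_zero
    rw [map_multiset_prod, Multiset.prod_eq_zero_iff, Multiset.mem_map] at h1
    obtain ⟨π, h2, h3⟩ := h1
    exact ⟨π, UniqueFactorizationMonoid.irreducible_of_factor π h2, h3⟩
  have hdeg : π.natDegree ≠ 0 := by
    intro h
    rw [Polynomial.eq_C_of_natDegree_eq_zero h] at hπ0 hπ
    simp only [E, Polynomial.coe_eval₂RingHom, Polynomial.eval₂_C] at hπ0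
    have : π.coeff 0 = 0 := hev (by rw [hπ0, map_zero])
    rw [this, Polynomial.C_0] at hπ
    exact not_irreducible_zero hπ
  have hprim := hπ.isPrimitive hdeg
  let F := FractionRing R
  let evF : F →+* ℂ := IsFractionRing.lift hev
  have hE : ∀ p : Polynomial R, (p.map (algebraMap R F)).eval₂ evF x = E p := by
    intro p
    rw [Polynomial.eval₂_map]
    congr 1
    ext r
    simp [evF]
  have hirr := (hprim.irreducible_iff_irreducible_map_fraction_map (K := F)).1 hπ
  refine hπ.not_isUnit (hcop π fun i => ?_)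
  refine hprim.dvd_of_fraction_map_dvd_fraction_map (K := F) ?_
  by_contra hnd
  obtain ⟨a, b, hab⟩ := (hirr.coprime_iff_not_dvd).2 hnd
  have := congrArg (Polynomial.eval₂ evF x) hab
  rw [Polynomial.eval₂_add, Polynomial.eval₂_mul, Polynomial.eval₂_mul, hE, hE, hπ0] at this
  have h2 : E (f i) = 0 := h0 i
  simp [h2] at this

theorem codim_two_L {A : Set ℂ} {σ : Type*} [Fintype σ] {κ : Type*}
    (f : κ → MvPolynomial σ (Const A)) (hcop : ∀ g, (∀ i, g ∣ f i) → IsUnit g) (a : σ → ℂ)
    (h0 : ∀ i, aeval a (f i) = 0) : finrank ℂ (Tan A a) + 2 ≤ Fintype.card σ := by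
  classical
  by_contra hlt
  obtain ⟨I, hI, hgen⟩ := exists_gen_coords A a
  by_cases hall : ∀ i, i ∈ I
  · have h1 : Gen A a := hgen.comp (fun i => (⟨i, hall i⟩ : I))
      (fun i j h => congrArg Subtype.val h)
    refine not_isUnit_zero (hcop 0 fun i => ?_)
    rw [algebraicIndependent_iff.1 h1.algInd _ (h0 i)]
  push Not at hall
  obtain ⟨j, hj⟩ := hall
  have hI2 : ∀ i, i ≠ j → i ∈ I := by
    intro i hij
    by_contra hi
    have h1 : I ⊆ (Finset.univ.erase j).erase i := by
      intro l hl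
      simp only [Finset.mem_erase, Finset.mem_univ, and_true]
      exact ⟨fun h => hi (h ▸ hl), fun h => hj (h ▸ hl)⟩
    have h2 := Finset.card_le_card h1
    have h3 := Finset.card_erase_add_one (Finset.mem_univ j)
    have h4 := Finset.card_erase_add_one (s := Finset.univ.erase j) (a := i) (by simp [hij])
    rw [Finset.card_univ] at h3
    omega
  let τ := {i // i ≠ j}
  have h1 : Gen A (fun i : τ => a i) := hgen.comp (fun i : τ => (⟨i, hI2 i i.2⟩ : I))
    (fun i j h => Subtype.ext (congrArg (fun x : I => (x : σ)) h))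
  let e : MvPolynomial σ (Const A) ≃ₐ[Const A] Polynomial (MvPolynomial τ (Const A)) :=
    (renameEquiv (Const A) (Equiv.optionSubtypeNe j).symm).trans (optionEquivLeft _ _)
  let ev : MvPolynomial τ (Const A) →+* ℂ := (aeval (fun i : τ => a i)).toRingHom
  have hev : Function.Injective ev := h1.algInd
  have key : ∀ p, (e p).eval₂ ev (a j) = aeval a p := by
    intro p
    have : (Polynomial.eval₂RingHom ev (a j)).comp e.toRingEquiv.toRingHom =
        (aeval a : MvPolynomial σ (Const A) →ₐ[Const A] ℂ).toRingHom := by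
      refine MvPolynomial.ringHom_ext (fun c => ?_) (fun i => ?_)
      · simp [e, ev]
      · by_cases hij : i = j
        · subst hij
          simp [e, ev]
        · simp [e, ev, Equiv.optionSubtypeNe_symm_of_ne hij]
    exact congrArg (fun φ => φ p) this
  refine coprime_root ev hev (fun i => e (f i)) (fun g hg => ?_) (a j) (fun i => ?_)
  · have := hcop (e.symm g) (fun i => by
      have := map_dvd e.symm (hg i)
      simpa using this)
    simpa using this.map e
  · rw [key, h0]

theorem isUnit_of_isUnit_map {L : Type*} [Field L] [Algebra L ℂ] {σ : Type*}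
    {g : MvPolynomial σ L} (h : IsUnit (map (algebraMap L ℂ) g)) : IsUnit g := by
  obtain ⟨r, hr, h1⟩ := isUnit_iff_eq_C_of_isReduced.1 h
  have h2 : g = C (coeff 0 g) := by
    apply map_injective _ (algebraMap L ℂ).injective
    rw [map_C, ← coeff_map, h1, coeff_zero_C]
  rw [h2]
  refine (IsUnit.mk0 _ ?_).map C
  intro h3
  rw [h3, C_0] at h2
  rw [h2, map_zero] at h
  exact not_isUnit_zero h

theorem aeval_eq_eval_map {L : Type*} [CommRing L] [Algebra L ℂ] {σ : Type*} (a : σ → ℂ)
    (g : MvPolynomial σ L) : aeval a g = eval a (map (algebraMap L ℂ) g) := by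
  rw [aeval_def, eval₂_eq_eval_map]

/-- Common zeros of coprime polynomials have codimension at least two. -/
theorem codim_two {A : Set ℂ} {σ : Type*} [Fintype σ] {κ : Type*}
    (f : κ → MvPolynomial σ ℂ) (hf : ∀ i, Df A (f i)) (hcop : ∀ g, (∀ i, g ∣ f i) → IsUnit g)
    (a : σ → ℂ) (h0 : ∀ i, eval a (f i) = 0) : finrank ℂ (Tan A a) + 2 ≤ Fintype.card σ := by
  choose f' hf' using fun i => (hf i).lift
  refine codim_two_L f' (fun g hg => isUnit_of_isUnit_map (hcop _ fun i => ?_)) a fun i => ?_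
  · rw [← hf']; exact map_dvd _ (hg i)
  · rw [aeval_eq_eval_map, hf', h0]

section Hom
variable {R : Type*} [CommRing R] {σ : Type*}

theorem hc_mul {g : MvPolynomial σ R} {n : ℕ} (hg : g.IsHomogeneous n) (h : MvPolynomial σ R)
    (m : ℕ) : homogeneousComponent m (h * g) =
      if n ≤ m then homogeneousComponent (m - n) h * g else 0 := by
  induction h using MvPolynomial.induction_on' with
  | monomial u a =>
    have h1 : (monomial u a).IsHomogeneous u.degree := isHomogeneous_monomial a rfl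
    rw [homogeneousComponent_of_mem (h1.mul hg), homogeneousComponent_of_mem h1]
    split_ifs with h2 h3 h4 h5 h6 <;> first | rfl | omega | simp
  | add p q hp hq =>
    rw [add_mul, map_add, hp, hq]
    split_ifs <;> simp [add_mul]

theorem eval₂_hom_mul {B : Type*} [CommRing B] (φ : R →+* B) (b : σ → B) (c : B)
    {P : MvPolynomial σ R} {n : ℕ} (hP : P.IsHomogeneous n) :
    eval₂ φ (fun i => c * b i) P = c ^ n * eval₂ φ b P := by
  rw [eval₂_eq, eval₂_eq, Finset.mul_sum]
  refine Finset.sum_congr rfl fun m hm => ?_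
  simp only [mul_pow, Finset.prod_mul_distrib, Finset.prod_pow_eq_pow_sum]
  rw [← hP.degree_eq_sum_deg_support hm]
  ring

theorem coeff_eval₂_line {B : Type*} [CommRing B] (φ : R →+* B) (b : σ → B)
    (P : MvPolynomial σ R) (n : ℕ) :
    (eval₂ (Polynomial.C.comp φ) (fun i => Polynomial.X * Polynomial.C (b i)) P).coeff n =
      eval₂ φ b (homogeneousComponent n P) := by
  induction P using MvPolynomial.induction_on' with
  | monomial u a =>
    have h1 : (monomial u a).IsHomogeneous u.degree := isHomogeneous_monomial a rfl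
    rw [eval₂_hom_mul _ _ _ h1, homogeneousComponent_of_mem h1]
    have h2 : eval₂ (Polynomial.C.comp φ) (fun i => Polynomial.C (b i)) (monomial u a) =
        Polynomial.C (eval₂ φ b (monomial u a)) := by
      rw [eval₂_comp_left]
      rfl
    rw [h2, mul_comm, Polynomial.coeff_C_mul_X_pow]
    split_ifs <;> simp
  | add p q hp hq => simp only [eval₂_add, Polynomial.coeff_add, hp, hq, map_add]

theorem eval_smul_hom (b : σ → R) (c : R) {P : MvPolynomial σ R} {n : ℕ} (hP : P.IsHomogeneous n) :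
    eval (c • b) P = c ^ n * eval b P := eval₂_hom_mul (RingHom.id R) b c hP

/-- If every variable is nilpotent modulo `I`, all forms of large degree lie in `I`. -/
theorem exists_hom_mem [Finite σ] (I : Ideal (MvPolynomial σ R)) (h : ∀ i, X i ∈ I.radical) :
    ∃ n0, ∀ m, n0 ≤ m → ∀ P : MvPolynomial σ R, P.IsHomogeneous m → P ∈ I := by
  obtain ⟨k, hk⟩ := Ideal.exists_pow_le_of_le_radical_of_fg (I := idealOfVars σ R) (J := I)
    (Ideal.span_le.2 (by rintro _ ⟨i, rfl⟩; exact h i)) (idealOfVars_fg σ R)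
  refine ⟨k, fun m hm P hP => hk ((mem_pow_idealOfVars_iff' k P).2 fun x hx => ?_)⟩
  exact hP.coeff_eq_zero (by omega)

end Hom

theorem X_mem_radical {L : Type*} [Field L] [Algebra L ℂ] {σ : Type*} [Finite σ]
    (s : Set (MvPolynomial σ L)) (h : ∀ a : σ → ℂ, (∀ f ∈ s, aeval a f = 0) → a = 0) (i : σ) :
    X i ∈ (Ideal.span s).radical := by
  rw [← vanishingIdeal_zeroLocus_eq_radical (K := ℂ), zeroLocus_span]
  intro a ha
  rw [h a ha]
  simp

/-- The set of exponents of bounded degree is finite. -/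
theorem finite_degree_lt (σ : Type*) [Finite σ] (n : ℕ) : {m : σ →₀ ℕ | m.degree < n}.Finite :=
  (Finsupp.finite_of_degree_le n).subset fun m hm => (le_of_lt (hm : m.degree < n) : m.degree ≤ n)

/-- A cone with points of large tangent dimension meets any few hypersurfaces. -/
theorem cone_meets {σ : Type*} [Fintype σ] (F G : Finset (MvPolynomial σ ℂ))
    (hF : ∀ f ∈ F, ∃ n, f.IsHomogeneous n) (hG : ∀ g ∈ G, ∃ n, 0 < n ∧ g.IsHomogeneous n)
    (H : ∀ A : Set ℂ, A.Finite → ∃ a, (∀ f ∈ F, eval a f = 0) ∧ G.card < finrank ℂ (Tan A a)) :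
    ∃ a, a ≠ 0 ∧ (∀ f ∈ F, eval a f = 0) ∧ ∀ g ∈ G, eval a g = 0 := by
  classical
  by_contra hcon
  push Not at hcon
  obtain ⟨A, hA, hDf⟩ := exists_Df _ (F ∪ G).finite_toSet
  obtain ⟨a, haF, hrk⟩ := H A hA
  -- a derivation killing the values of `G` but not the point
  obtain ⟨δ, hδ, hδG, i0, hi0⟩ : ∃ δ ∈ D A, (∀ g ∈ G, δ (eval a g) = 0) ∧ ∃ i, δ (a i) ≠ 0 := by
    let Φ : Tan A a →ₗ[ℂ] (G → ℂ) :=
      { toFun := fun t g => ∑ i, eval a (pderiv i g.1) * t.1 i
        map_add' := fun t t' => by ext g; simp [mul_add, Finset.sum_add_distrib]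
        map_smul' := fun r t => by ext g; simp [Finset.mul_sum, mul_left_comm] }
    obtain ⟨t, ht, ht0⟩ := (Submodule.ne_bot_iff _).1 (LinearMap.ker_ne_bot_of_finrank_lt (f := Φ)
      (by simpa using hrk))
    obtain ⟨δ, hδ, h⟩ := mem_Tan.1 t.2
    refine ⟨δ, hδ, fun g hg => ?_, ?_⟩
    · rw [der_eval hδ a (hDf g (by simp [hg]))]
      simp only [h]
      exact congrFun (LinearMap.mem_ker.1 ht) ⟨g, hg⟩
    · by_contra h'
      push Not at h'
      exact ht0 (Subtype.ext (funext fun i => by rw [← h, h']; rfl))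
  let L := Const A
  let s : Finset (MvPolynomial σ L) := (F ∪ G).preimage (map (algebraMap L ℂ))
    (map_injective _ (algebraMap L ℂ).injective).injOn
  have hs : ∀ f, f ∈ s ↔ map (algebraMap L ℂ) f ∈ F ∪ G := fun f => Finset.mem_preimage
  obtain ⟨n0, hn0⟩ := exists_hom_mem (Ideal.span (s : Set (MvPolynomial σ L)))
    (X_mem_radical _ fun b hb => by
      by_contra hb0
      have hb' : ∀ f ∈ F ∪ G, eval b f = 0 := by
        intro f hf
        obtain ⟨f', rfl⟩ := (hDf f hf).lift
        rw [← aeval_eq_eval_map]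
        exact hb f' ((hs f').2 hf)
      obtain ⟨g, hg, hg0⟩ := hcon b hb0 (fun f hf => hb' f (by simp [hf]))
      exact hg0 (hb' g (by simp [hg])))
  let E : Subring ℂ :=
    { carrier := {c | δ c = 0}
      mul_mem' := fun {x y} hx hy => by
        simp only [Set.mem_setOf_eq] at hx hy ⊢
        simp [hx, hy]
      one_mem' := by simp
      add_mem' := fun {x y} hx hy => by
        simp only [Set.mem_setOf_eq] at hx hy ⊢
        simp [hx, hy]
      zero_mem' := by simp
      neg_mem' := fun {x} hx => by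
        simp only [Set.mem_setOf_eq] at hx ⊢
        simp [hx] }
  let W : Submodule E ℂ := Submodule.span E
    ((fun m : σ →₀ ℕ => aeval a (monomial m (1 : L))) '' {m | m.degree < n0 + 1})
  have hWfg : W.FG := Submodule.fg_span ((finite_degree_lt σ _).image _)
  have key : ∀ m, ∀ P : MvPolynomial σ L, P.IsHomogeneous m → aeval a P ∈ W := by
    intro m
    induction m using Nat.strong_induction_on with
    | _ m ih =>
      intro P hP
      by_cases hm : m < n0 + 1
      · rw [P.as_sum, map_sum]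
        refine sum_mem fun u hu => ?_
        have h1 : aeval a (monomial u (coeff u P)) =
            (⟨((coeff u P : L) : ℂ), (coeff u P).2 δ hδ⟩ : E) • aeval a (monomial u (1 : L)) := by
          rw [aeval_monomial, aeval_monomial, map_one, one_mul]
          rfl
        rw [h1]
        refine Submodule.smul_mem _ _ (Submodule.subset_span ⟨u, ?_, rfl⟩)
        have : u.degree = m := by
          by_contra h
          exact mem_support_iff.1 hu (hP.coeff_eq_zero h)
        simpa [this] using hm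
      · obtain ⟨c, -, hc⟩ := Submodule.mem_span_finset.1 (hn0 m (by omega) P hP)
        rw [← homogeneousComponent_eq_self hP, ← hc, map_sum, map_sum]
        refine sum_mem fun f hf => ?_
        rw [smul_eq_mul]
        rcases Finset.mem_union.1 ((hs f).1 hf) with hf' | hf'
        · obtain ⟨n, hn⟩ := hF _ hf'
          rw [hc_mul (hn.of_map (algebraMap L ℂ).injective)]
          split_ifs
          · rw [map_mul, aeval_eq_eval_map a f, haF _ hf', mul_zero]; exact zero_mem _
          · rw [map_zero]; exact zero_mem _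
        · obtain ⟨n, hn0', hn⟩ := hG _ hf'
          rw [hc_mul (hn.of_map (algebraMap L ℂ).injective)]
          split_ifs
          · rw [map_mul, mul_comm, aeval_eq_eval_map a f]
            exact W.smul_mem (⟨_, hδG _ hf'⟩ : E)
              (ih (m - n) (by omega) _ (homogeneousComponent_isHomogeneous _ _))
          · rw [map_zero]; exact zero_mem _
  have hint : IsIntegral E (a i0) := by
    refine isIntegral_of_smul_mem_submodule W ?_ hWfg _ ?_
    · rw [Submodule.ne_bot_iff]
      exact ⟨1, by simpa using key 0 1 (isHomogeneous_one _ _), one_ne_zero⟩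
    · intro w hw
      induction hw using Submodule.span_induction with
      | mem x hx =>
        obtain ⟨u, -, rfl⟩ := hx
        have := key (1 + u.degree) (X i0 * monomial u (1 : L))
          ((isHomogeneous_X _ _).mul (isHomogeneous_monomial _ rfl))
        simpa using this
      | zero => simp
      | add x y _ _ hx hy => rw [smul_add]; exact add_mem hx hy
      | smul c x _ hx => rw [smul_comm]; exact W.smul_mem c hx
  obtain ⟨p, hp, hp0⟩ := hint
  refine hi0 (der_root_eq_zero δ (p.map (algebraMap E ℂ)) (hp.map _).ne_zero (fun n => ?_) _ ?_)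
  · rw [Polynomial.coeff_map]; exact (p.coeff n).2
  · rw [Polynomial.eval_map]; exact hp0

/-- Fewer forms than variables have a nontrivial common zero. -/
theorem forms_common_zero {σ : Type*} [Fintype σ] (G : Finset (MvPolynomial σ ℂ))
    (hG : ∀ g ∈ G, ∃ n, 0 < n ∧ g.IsHomogeneous n) (h : G.card < Fintype.card σ) :
    ∃ a, a ≠ 0 ∧ ∀ g ∈ G, eval a g = 0 := by
  obtain ⟨a, h0, -, h1⟩ := cone_meets ∅ G (by simp) hG fun A hA => by
    obtain ⟨a, ha⟩ := exists_gen hA σ
    exact ⟨a, by simp, h.trans_le (Gen.card_le id ha)⟩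
  exact ⟨a, h0, h1⟩

end Pool.Agent.Lib.MP_bd85b6_lc
end

-- part Pool.Agent.Lib.MP_bd85b6_lc.Regular
section

/-! Regular sequences of forms from a flag of complete intersections. -/

set_option autoImplicit false

namespace Pool.Agent.Lib.MP_bd85b6_lc

open MvPolynomial

section
variable {R : Type*} [CommRing R] {σ : Type*}

/-- `a` is a non zero divisor modulo `J`. -/
def Nzd (J : Ideal R) (a : R) : Prop := ∀ g, a * g ∈ J → g ∈ J

/-- The ideal is closed under taking homogeneous components. -/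
def HomI (J : Ideal (MvPolynomial σ R)) : Prop := ∀ m, ∀ x ∈ J, homogeneousComponent m x ∈ J

attribute [local instance] MvPolynomial.gradedAlgebra in
theorem homI_span (s : Set (MvPolynomial σ R)) (h : ∀ f ∈ s, ∃ n, f.IsHomogeneous n) :
    HomI (Ideal.span s) := fun m _ hx =>
  homogeneousComponent_mem_of_mem (Ideal.homogeneous_span _ s fun f hf => h f hf) hx m

theorem nzd_swap₁ {J : Ideal R} {a b : R} (ha : Nzd J a) (hb : Nzd (J ⊔ Ideal.span {a}) b) :
    Nzd (J ⊔ Ideal.span {b}) a := by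
  intro x hx
  obtain ⟨y, j, hj, h⟩ := Ideal.mem_span_singleton_sup.1 (sup_comm J _ ▸ hx)
  have h1 : b * y ∈ J ⊔ Ideal.span {a} := by
    rw [sup_comm, Ideal.mem_span_singleton_sup]
    exact ⟨x, -j, neg_mem hj, by linear_combination -h⟩
  obtain ⟨y', j', hj', h'⟩ := Ideal.mem_span_singleton_sup.1 (sup_comm J _ ▸ hb y h1)
  have h2 : x - b * y' ∈ J := by
    refine ha _ ?_
    have : a * (x - b * y') = j + b * j' := by linear_combination -h - b * h'
    rw [this]
    exact add_mem hj (J.mul_mem_left _ hj')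
  rw [sup_comm, Ideal.mem_span_singleton_sup]
  exact ⟨y', _, h2, by ring⟩

theorem nzd_swap₂ {J : Ideal (MvPolynomial σ R)} (hJ : HomI J) {a b : MvPolynomial σ R} {n : ℕ}
    (ha1 : a.IsHomogeneous 1) (hbn : b.IsHomogeneous n) (ha : Nzd J a)
    (hb : Nzd (J ⊔ Ideal.span {a}) b) : Nzd J b := by
  have key : ∀ m, ∀ x : MvPolynomial σ R, x.IsHomogeneous m → b * x ∈ J → x ∈ J := by
    intro m
    induction m using Nat.strong_induction_on with
    | _ m ih =>
      intro x hx hbx
      obtain ⟨y, j, hj, h⟩ := Ideal.mem_span_singleton_sup.1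
        (sup_comm J _ ▸ hb x (Ideal.mem_sup_left hbx))
      have h1 := congrArg (homogeneousComponent m) h
      rw [map_add, hc_mul ha1, homogeneousComponent_eq_self hx] at h1
      split_ifs at h1 with hm
      · have h2 : homogeneousComponent (m - 1) y ∈ J := by
          refine ih (m - 1) (by omega) _ (homogeneousComponent_isHomogeneous _ _) (ha _ ?_)
          have : a * (b * homogeneousComponent (m - 1) y) =
              b * x - b * homogeneousComponent m j := by rw [← h1]; ring
          rw [this]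
          exact sub_mem hbx (J.mul_mem_left _ (hJ m j hj))
        rw [← h1]
        exact add_mem (J.mul_mem_right _ h2) (hJ m j hj)
      · rw [← h1, zero_add]
        exact hJ m j hj
  intro g hg
  rw [← sum_homogeneousComponent g]
  refine sum_mem fun m _ => key m _ (homogeneousComponent_isHomogeneous _ _) ?_
  have := hJ (m + n) _ hg
  rw [mul_comm, hc_mul hbn, if_pos (by omega), Nat.add_sub_cancel, mul_comm] at this
  exact this

theorem nzd_of_pow {J : Ideal R} {a b : R} (ha : Nzd J a) {n : ℕ}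
    (h : a ^ n ∈ J ⊔ Ideal.span {b}) : Nzd J b := by
  intro g hg
  obtain ⟨y, j, hj, h'⟩ := Ideal.mem_span_singleton_sup.1 (sup_comm J _ ▸ h)
  have h1 : a ^ n * g ∈ J := by
    rw [← h', add_mul, mul_assoc]
    exact add_mem (J.mul_mem_left _ hg) (J.mul_mem_right _ hj)
  clear h h'
  induction n with
  | zero => simpa using h1
  | succ n ih => exact ih (ha _ (by rwa [pow_succ', mul_assoc] at h1))

end

variable {R : Type*} [CommRing R] {r : ℕ}

/-- The ideal generated by the first `i` forms and the variables of index at least `j`. -/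
noncomputable def JJ (Φ : ℕ → MvPolynomial (Fin r) R) (i j : ℕ) : Ideal (MvPolynomial (Fin r) R) :=
  Ideal.span (Φ '' {n | n < i} ∪ X '' {l : Fin r | j ≤ l})

/-- The ideal generated by the first `i` forms. -/
noncomputable def II {σ : Type*} (Φ : ℕ → MvPolynomial σ R) (i : ℕ) : Ideal (MvPolynomial σ R) :=
  Ideal.span (Φ '' {n | n < i})

theorem JJ_top (Φ : ℕ → MvPolynomial (Fin r) R) (i : ℕ) : JJ Φ i r = II Φ i := by
  have : {l : Fin r | r ≤ l} = ∅ := by
    ext l
    simpa using l.2
  simp [JJ, II, this]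

theorem II_succ {σ : Type*} (Φ : ℕ → MvPolynomial σ R) (i : ℕ) :
    II Φ (i + 1) = II Φ i ⊔ Ideal.span {Φ i} := by
  rw [II, II, ← Ideal.span_union, ← Set.image_singleton, ← Set.image_union]
  congr 2
  ext n
  simp only [Set.mem_setOf_eq, Set.mem_union, Set.mem_singleton_iff]
  omega

theorem JJ_succ_left (Φ : ℕ → MvPolynomial (Fin r) R) (i j : ℕ) :
    JJ Φ (i + 1) j = JJ Φ i j ⊔ Ideal.span {Φ i} := by
  have := II_succ Φ i
  simp only [II] at this
  rw [JJ, JJ, Ideal.span_union, Ideal.span_union, this, sup_right_comm]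

theorem JJ_succ_right (Φ : ℕ → MvPolynomial (Fin r) R) (i : ℕ) (j : Fin r) :
    JJ Φ i j = JJ Φ i (j + 1) ⊔ Ideal.span {X j} := by
  rw [JJ, JJ, ← Ideal.span_union, Set.union_assoc, ← Set.image_singleton, ← Set.image_union]
  congr 3
  ext n
  simp only [Set.mem_setOf_eq, Set.mem_union, Set.mem_singleton_iff, Fin.ext_iff]
  omega

theorem homI_JJ {Φ : ℕ → MvPolynomial (Fin r) R} (hΦ : ∀ n, (Φ n).IsHomogeneous (n + 1))
    (i j : ℕ) : HomI (JJ Φ i j) := by
  refine homI_span _ ?_
  rintro _ (⟨n, -, rfl⟩ | ⟨l, -, rfl⟩)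
  · exact ⟨_, hΦ n⟩
  · exact ⟨_, isHomogeneous_X _ _⟩

theorem homI_II {σ : Type*} {Φ : ℕ → MvPolynomial σ R} (hΦ : ∀ n, (Φ n).IsHomogeneous (n + 1))
    (i : ℕ) : HomI (II Φ i) := by
  refine homI_span _ ?_
  rintro _ ⟨n, -, rfl⟩
  exact ⟨_, hΦ n⟩

theorem nzd_X (Φ : ℕ → MvPolynomial (Fin r) R) (j : Fin r) : Nzd (JJ Φ 0 (j + 1)) (X j) := by
  intro g hg
  simp only [JJ, Nat.not_lt_zero, Set.setOf_false, Set.image_empty, Set.empty_union,
    mem_ideal_span_X_image] at hg ⊢
  intro m hm
  obtain ⟨i, hi, h⟩ := hg (Finsupp.single j 1 + m) (by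
    rwa [mem_support_iff, coeff_X_mul, ← mem_support_iff])
  refine ⟨i, hi, ?_⟩
  have hij : j ≠ i := by
    rintro rfl
    simp at hi
  simpa [Finsupp.single_eq_of_ne hij.symm] using h

theorem regular_of_flag {Φ : ℕ → MvPolynomial (Fin r) R} (hΦ : ∀ n, (Φ n).IsHomogeneous (n + 1))
    (hnil : ∀ j : Fin r, ∃ n, X j ^ n ∈ JJ Φ (j + 1) (j + 1)) :
    ∀ i < r, Nzd (II Φ i) (Φ i) := by
  have key : ∀ j ≤ r, ∀ i < j, Nzd (JJ Φ i j) (Φ i) := by
    intro j
    induction j with
    | zero => intro _ i hi; omega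
    | succ j ih =>
      intro hj
      let l : Fin r := ⟨j, hj⟩
      have h1 : ∀ i ≤ j, Nzd (JJ Φ i (j + 1)) (X l) := by
        intro i
        induction i with
        | zero => intro _; exact nzd_X Φ l
        | succ i ihi =>
          intro hi
          rw [JJ_succ_left]
          refine nzd_swap₁ (ihi (by omega)) ?_
          rw [← JJ_succ_right Φ i l]
          exact ih (by omega) i (by omega)
      intro i hi
      rcases Nat.lt_or_eq_of_le (Nat.le_of_lt_succ hi) with hi' | rfl
      · refine nzd_swap₂ (homI_JJ hΦ _ _) (isHomogeneous_X _ l) (hΦ i) (h1 i hi'.le) ?_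
        rw [← JJ_succ_right Φ i l]
        exact ih (by omega) i hi'
      · obtain ⟨n, hn⟩ := hnil l
        rw [JJ_succ_left] at hn
        exact nzd_of_pow (h1 i le_rfl) hn
  intro i hi
  rw [← JJ_top]
  exact key r le_rfl i hi

end Pool.Agent.Lib.MP_bd85b6_lc
end
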